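import Mathlib

/-!
# Cutting words (MP_86dbc7_gt): definitions

Closed curves are modelled by cyclic words of letters; a letter is a dart `u → v` of a ribbon graph
(the nerve of a fine cover of a surface), decorated by a point `z` and a lateral coordinate `y > 0`.
-/

namespace Pool.Agent.Helper21.Cut

/-! ### split sums -/

section words

variable {S : Type*} {R : Type*}

/-- the sum of `f A B` over all splittings `W = A ++ B` -/
def sp [AddCommMonoid R] : List S → (List S → List S → R) → R
  | [], f => f [] []
  | a :: W, f => f [] (a :: W) + sp W (fun A B => f (a :: A) B)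

/-- the sum of `f B C` over all splittings `W = B ++ C` with `B ≠ []` -/
def spn [AddCommMonoid R] : List S → (List S → List S → R) → R
  | [], _ => 0
  | a :: W, f => sp W (fun B C => f (a :: B) C)

/-- `nu J lam k b W`: the closed word `b :: W` (based at `b`) is cut `k` times. One cut:
`W = A ++ B ++ C`, `B ≠ []`, the loop `B` is cut off (label `lam B`) and we go on with
`b :: (A ++ C)`; the sign is the crossing number `J` of the two passages of the word
`last (b :: A) → head B` and `last B → head (C ++ [b])`. -/
def nu [CommRing R] (J : S → S → S → S → ℤ) (lam : List S → R) : ℕ → S → List S → R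
  | 0, b, W => lam (b :: W)
  | k + 1, b, W => sp W fun A D => spn D fun B C =>
      (J (A.getLastD b) (B.headD b) (B.getLastD b) (C.headD b) : R) * lam B *
        nu J lam k b (A ++ C)

/-- `nu` of a closed word, based at its first letter (zero for the empty word) -/
def nuC [CommRing R] (J : S → S → S → S → ℤ) (lam : List S → R) (k : ℕ) : List S → R
  | [] => 0
  | b :: W => nu J lam k b W

end words

/-! ### crossing numbers -/

section ports

variable {P : Type*} [LinearOrder P]

/-- sign of `b - a` -/
def om (a b : P) : ℤ := if a < b then 1 else if b < a then -1 else 0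

/-- on which side of the chord `s → t` of the circle lies `x` -/
def side (s t x : P) : ℤ :=
  if s < t then (if s < x ∧ x < t then 0 else 1) else (if t < x ∧ x < s then 1 else 0)

/-- crossing number of the chords `s → t` and `s' → t'` of the circle -/
def lk (s t s' t' : P) : ℤ := side s t t' - side s t s'

end ports

/-- a letter: a dart `u → v` with a decoration `z` and a lateral coordinate `y` -/
structure Letter (V X : Type*) where
  u : V
  v : V
  z : X
  y : ℤ

section letters

variable {V X : Type*}

/-- position of the incoming port of a letter on the circle around its end point `v` -/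
def Letter.pin (key : V → V → ℝ) (l : Letter V X) : ℝ ×ₗ ℤ := toLex (key l.v l.u, -l.y)

/-- position of the outgoing port of a letter on the circle around its starting point `u` -/
def Letter.pout (key : V → V → ℝ) (l : Letter V X) : ℝ ×ₗ ℤ := toLex (key l.u l.v, l.y)

open Classical in
/-- crossing number of the passages `a → b` and `c → d` (zero unless they are at the same vertex) -/
noncomputable def Jl (key : V → V → ℝ) (a b c d : Letter V X) : ℤ :=
  if a.v = b.u ∧ a.v = c.v ∧ a.v = d.u then lk (a.pin key) (b.pout key) (c.pin key) (d.pout key)
  else 0

/-- the invariant of a closed word of letters, for a label `lab` of lists of decorations -/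
noncomputable def NN {R : Type*} [CommRing R] (key : V → V → ℝ) (lab : List X → R) (k : ℕ)
    (W : List (Letter V X)) : R :=
  nuC (Jl key) (fun B => lab (B.map Letter.z)) k W

end letters

/-! ### closed polygons -/

section polygons

variable {X : Type*} [PseudoMetricSpace X]

/-- length of the polygonal path from `a` through the points of the list to `b` -/
def walkLen : X → List X → X → ℝ
  | a, [], b => dist a b
  | a, x :: l, b => dist a x + walkLen x l b

/-- length of a closed polygon -/
def plen : List X → ℝ
  | [] => 0
  | a :: l => walkLen a l a

/-- consecutive points of the closed polygon have distance at most `δ` -/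
def Mesh (δ : ℝ) : List X → Prop
  | [] => True
  | a :: l => List.IsChain (fun x y => dist x y ≤ δ) (a :: (l ++ [a]))

/-- a nonempty closed polygon with steps at most `δ` and length less than `Λ` -/
def Good (δ Λ : ℝ) (l : List X) : Prop := l ≠ [] ∧ Mesh δ l ∧ plen l < Λ

/-- elementary moves of closed polygons: rotation and insertion of a point -/
inductive Move (δ Λ : ℝ) : List X → List X → Prop
  | rot (a : X) (l : List X) : Good δ Λ (a :: l) → Move δ Λ (a :: l) (l ++ [a])
  | ins (z a : X) (l : List X) : Good δ Λ (a :: l) → Good δ Λ (z :: a :: l) →
      Move δ Λ (a :: l) (z :: a :: l)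

/-- two closed polygons are connected through good polygons -/
def Conn (δ Λ : ℝ) : List X → List X → Prop := Relation.EqvGen (Move δ Λ)

end polygons

/-! ### covers with surface nerve -/

/-- A family of sets of diameter `≤ δ` whose nerve looks like an oriented surface: the neighbours of
each vertex `v` are cyclically ordered (by `key v`), and every triple of distinct sets with a common
point is a face. -/
structure Cover (V X : Type*) [PseudoMetricSpace X] (δ : ℝ) where
  U : V → Set X
  key : V → V → ℝ
  Face : V → V → V → Prop
  diam : ∀ v, ∀ x ∈ U v, ∀ y ∈ U v, dist x y ≤ δ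
  key_inj : ∀ v a b, v ≠ a → (U v ∩ U a).Nonempty → v ≠ b → (U v ∩ U b).Nonempty →
    key v a = key v b → a = b
  face_rot : ∀ a b c, Face a b c → Face b c a
  face_next : ∀ v b c, Face v b c →
    (key v b < key v c ∧ ∀ x, v ≠ x → (U v ∩ U x).Nonempty → key v x ≤ key v b ∨ key v c ≤ key v x) ∨
    (key v c < key v b ∧ ∀ x, v ≠ x → (U v ∩ U x).Nonempty → key v c ≤ key v x ∧ key v x ≤ key v b)
  face_of_mem : ∀ a b c x, a ≠ b → b ≠ c → a ≠ c → x ∈ U a → x ∈ U b → x ∈ U c →
    Face a b c ∨ Face a c b

end Pool.Agent.Helper21.Cut
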