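import Pool.Agent.Helper21.Cut.Words

/-!
# Change of the base letter (MP_86dbc7_gt)
-/

namespace Pool.Agent.Helper21.Cut

variable {S : Type*} {R : Type*} [CommRing R]

/-- the correction terms of the base change -/
def Gc (J : S → S → S → S → ℤ) (lam : List S → R) (x y : S) (i j : ℕ) (W : List S) : R :=
  sp W (fun P Q => (J x y (P.getLastD y) (Q.headD x) : R) * (nu J lam i y P * nu J lam j x Q))

theorem getLastD_append_of_ne {A B : List S} (h : B ≠ []) (x y : S) :
    (A ++ B).getLastD x = B.getLastD y := by
  rcases B.eq_nil_or_concat with rfl | ⟨B', b, rfl⟩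
  · exact absurd rfl h
  · rw [List.concat_eq_append, ← List.append_assoc]; simp

theorem headD_append_of_ne {A B : List S} (h : A ≠ []) (x y : S) :
    (A ++ B).headD x = A.headD y := by
  cases A with
  | nil => exact absurd rfl h
  | cons a A => simp

theorem getLastD_mem {A : List S} (h : A ≠ []) (x : S) : A.getLastD x ∈ A := by
  rcases A.eq_nil_or_concat with rfl | ⟨A', a, rfl⟩
  · exact absurd rfl h
  · simp

theorem headD_mem {A : List S} (h : A ≠ []) (x : S) : A.headD x ∈ A := by
  cases A with
  | nil => exact absurd rfl h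
  | cons a A => simp

theorem getLastD_mem_cons (A : List S) (x : S) : A.getLastD x ∈ x :: A := by
  rcases A.eq_nil_or_concat with rfl | ⟨A', a, rfl⟩ <;> simp

theorem headD_mem_cons (A : List S) (x : S) : A.headD x ∈ x :: A := by
  cases A <;> simp

/-- one more cut of the correction terms -/
theorem cut_Gc (J : S → S → S → S → ℤ) (lam : List S → R)
    (hA : ∀ x y z w, x ≠ z → y ≠ w → J x y z w = - J z w x y)
    (hQ : ∀ x₁ x₂ x₃ y₁ y₂ y₃, x₁ ≠ x₂ → x₂ ≠ x₃ → x₁ ≠ x₃ → y₁ ≠ y₂ → y₂ ≠ y₃ → y₁ ≠ y₃ →
      J x₁ y₁ x₂ y₂ * J x₁ y₂ x₃ y₃ + J x₂ y₂ x₃ y₃ * J x₂ y₃ x₁ y₁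
        + J x₃ y₃ x₁ y₁ * J x₃ y₁ x₂ y₂ = 0)
    (x y : S) (i j : ℕ) (W : List S) (hnd : (x :: y :: W).Nodup) :
    sp W (fun A D => spn D (fun B C =>
      (J (A.getLastD y) (B.headD x) (B.getLastD x) (C.headD x) : R) * lam B *
        Gc J lam x y i j (A ++ C))) =
      Gc J lam x y i (j + 1) W + Gc J lam x y (i + 1) j W := by
  -- the three parts of the left side
  have e1 : ∀ A B C : List S, B ≠ [] →
      (J (A.getLastD y) (B.headD x) (B.getLastD x) (C.headD x) : R) * lam B *
        Gc J lam x y i j (A ++ C) =
      spl A (fun A₁ A₂ => (J (A.getLastD y) (B.headD x) (B.getLastD x) (C.headD x) : R) * lam B *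
        ((J x y (A₁.getLastD y) ((A₂ ++ C).headD x) : R) * (nu J lam i y A₁ * nu J lam j x (A₂ ++ C))))
      + ((J (A.getLastD y) (B.headD x) (B.getLastD x) (C.headD x) : R) * lam B *
        ((J x y (A.getLastD y) (C.headD x) : R) * (nu J lam i y A * nu J lam j x C))
      + spn C (fun C₁ C₂ => (J (A.getLastD y) (B.headD x) (B.getLastD x) (C.headD x) : R) * lam B *
        ((J x y ((A ++ C₁).getLastD y) (C₂.headD x) : R) *
          (nu J lam i y (A ++ C₁) * nu J lam j x C₂)))) := by
    intro A B C hB
    unfold Gc
    rw [sp_append, sp_eq_spn C, mul_add, mul_add, mul_spl, mul_spn]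
    simp
  -- right side, first summand
  have e2 : Gc J lam x y i (j + 1) W =
      sp W (fun A D => spn D (fun B C => (J x y (A.getLastD y) (B.headD x) : R) *
        ((J x (B.headD x) (B.getLastD x) (C.headD x) : R) * lam B) *
          (nu J lam i y A * nu J lam j x C)))
      + sp W (fun A₁ E => spn E (fun A₂ D => spn D (fun B C =>
        (J x y (A₁.getLastD y) (A₂.headD x) : R) *
        ((J (A₂.getLastD x) (B.headD x) (B.getLastD x) (C.headD x) : R) * lam B) *
          (nu J lam i y A₁ * nu J lam j x (A₂ ++ C))))) := by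
    unfold Gc
    rw [← sp_add]
    refine sp_congr fun A D _ => ?_
    rw [nu_succ, mul_sp, mul_sp, sp_eq_spn]
    congr 1
    · simp only [List.getLastD_nil, List.nil_append, mul_spn]
      refine spn_congr fun B C hB hBC => ?_
      rw [← hBC, headD_append_of_ne hB x x]
      ring
    · refine spn_congr fun A₂ D' hA₂ hD => ?_
      rw [mul_spn, mul_spn]
      refine spn_congr fun B C hB hBC => ?_
      rw [← hD, headD_append_of_ne hA₂ x x]
      ring
  -- right side, second summand
  have e3 : Gc J lam x y (i + 1) j W =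
      sp W (fun A D => spn D (fun B C => (J x y (B.getLastD x) (C.headD x) : R) *
        ((J (A.getLastD y) (B.headD x) (B.getLastD x) y : R) * lam B) *
          (nu J lam i y A * nu J lam j x C)))
      + sp W (fun A D => spn D (fun B C => spn C (fun C₁ C₂ =>
        (J x y (C₁.getLastD x) (C₂.headD x) : R) *
        ((J (A.getLastD y) (B.headD x) (B.getLastD x) (C₁.headD x) : R) * lam B) *
          (nu J lam i y (A ++ C₁) * nu J lam j x C₂)))) := by
    unfold Gc
    rw [← sp_add]
    have : ∀ P Q : List S, (J x y (P.getLastD y) (Q.headD x) : R) *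
        (nu J lam (i + 1) y P * nu J lam j x Q) =
        sp P (fun A D => spn D (fun B C => (J x y ((A ++ (B ++ C)).getLastD y) (Q.headD x) : R) *
        ((J (A.getLastD y) (B.headD y) (B.getLastD y) (C.headD y) : R) * lam B) *
          (nu J lam i y (A ++ C) * nu J lam j x Q))) := by
      intro P Q
      rw [nu_succ, mul_comm (sp P _) (nu J lam j x Q), mul_sp, mul_sp]
      refine sp_congr fun A D hAD => ?_
      rw [mul_spn, mul_spn]
      refine spn_congr fun B C hB hBC => ?_
      rw [hBC, hAD]
      ring
    simp only [this]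
    rw [sp_assoc W (fun A D Q => spn D (fun B C =>
      (J x y ((A ++ (B ++ C)).getLastD y) (Q.headD x) : R) *
        ((J (A.getLastD y) (B.headD y) (B.getLastD y) (C.headD y) : R) * lam B) *
          (nu J lam i y (A ++ C) * nu J lam j x Q)))]
    refine sp_congr fun A E _ => ?_
    rw [sp_spn E (fun B C Q => (J x y ((A ++ (B ++ C)).getLastD y) (Q.headD x) : R) *
        ((J (A.getLastD y) (B.headD y) (B.getLastD y) (C.headD y) : R) * lam B) *
          (nu J lam i y (A ++ C) * nu J lam j x Q)), ← spn_add]
    refine spn_congr fun B E' hB _ => ?_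
    rw [sp_eq_spn]
    have hB1 : B.headD y = B.headD x := by cases B with
      | nil => exact absurd rfl hB
      | cons b B => rfl
    have hB2 : B.getLastD y = B.getLastD x := by
      have := getLastD_append_of_ne (A := []) hB y x
      simpa using this
    congr 1
    · rw [List.append_nil, getLastD_append_of_ne hB y x, hB1, hB2]
      simp
    · refine spn_congr fun C Q hC _ => ?_
      have hC1 : C.headD y = C.headD x := by cases C with
        | nil => exact absurd rfl hC
        | cons b B => rfl
      rw [← List.append_assoc, getLastD_append_of_ne hC y x, hB1, hB2, hC1]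
  -- left side
  have e4 : sp W (fun A D => spn D (fun B C =>
      (J (A.getLastD y) (B.headD x) (B.getLastD x) (C.headD x) : R) * lam B *
        Gc J lam x y i j (A ++ C))) =
      sp W (fun A₁ E => spn E (fun A₂ D => spn D (fun B C =>
        (J x y (A₁.getLastD y) (A₂.headD x) : R) *
        ((J (A₂.getLastD x) (B.headD x) (B.getLastD x) (C.headD x) : R) * lam B) *
          (nu J lam i y A₁ * nu J lam j x (A₂ ++ C)))))
      + (sp W (fun A D => spn D (fun B C =>
        (J (A.getLastD y) (B.headD x) (B.getLastD x) (C.headD x) : R) * lam B *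
        ((J x y (A.getLastD y) (C.headD x) : R) * (nu J lam i y A * nu J lam j x C))))
      + sp W (fun A D => spn D (fun B C => spn C (fun C₁ C₂ =>
        (J x y (C₁.getLastD x) (C₂.headD x) : R) *
        ((J (A.getLastD y) (B.headD x) (B.getLastD x) (C₁.headD x) : R) * lam B) *
          (nu J lam i y (A ++ C₁) * nu J lam j x C₂))))) := by
    rw [cut_congr (fun A B C hB _ => e1 A B C hB)]
    simp only [spn_add, sp_add]
    congr 1
    · have : ∀ A D : List S, spn D (fun B C => spl A (fun A₁ A₂ =>
          (J (A.getLastD y) (B.headD x) (B.getLastD x) (C.headD x) : R) * lam B *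
          ((J x y (A₁.getLastD y) ((A₂ ++ C).headD x) : R) *
            (nu J lam i y A₁ * nu J lam j x (A₂ ++ C))))) =
          spl A (fun A₁ A₂ => spn D (fun B C =>
          (J x y (A₁.getLastD y) (A₂.headD x) : R) *
          ((J (A₂.getLastD x) (B.headD x) (B.getLastD x) (C.headD x) : R) * lam B) *
            (nu J lam i y A₁ * nu J lam j x (A₂ ++ C)))) := by
        intro A D
        -- exchange of the two sums
        have hex : ∀ (A D : List S) (f : List S → List S → List S → List S → R),
            spn D (fun B C => spl A (fun A₁ A₂ => f B C A₁ A₂)) =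
            spl A (fun A₁ A₂ => spn D (fun B C => f B C A₁ A₂)) := by
          intro A D
          induction A with
          | nil => intro f; simp [spn_zero]
          | cons a A ih =>
            intro f
            simp only [spl_cons, spn_add]
            rw [ih (fun B C A₁ A₂ => f B C (a :: A₁) A₂)]
        rw [hex]
        refine spl_congr fun A₁ A₂ hA₂ hA12 => ?_
        refine spn_congr fun B C hB _ => ?_
        rw [← hA12, getLastD_append_of_ne hA₂ y x, headD_append_of_ne hA₂ x x]
        ring
      simp only [this]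
      rw [sp_spl W (fun A₁ A₂ D => spn D (fun B C =>
          (J x y (A₁.getLastD y) (A₂.headD x) : R) *
          ((J (A₂.getLastD x) (B.headD x) (B.getLastD x) (C.headD x) : R) * lam B) *
            (nu J lam i y A₁ * nu J lam j x (A₂ ++ C))))]
    · congr 1
      refine cut_congr fun A B C hB _ => ?_
      refine spn_congr fun C₁ C₂ hC hC12 => ?_
      rw [getLastD_append_of_ne hC y x, ← hC12, headD_append_of_ne hC x x]
      ring
  rw [e2, e3, e4]
  -- the middle terms
  have hmid : sp W (fun A D => spn D (fun B C =>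
        (J (A.getLastD y) (B.headD x) (B.getLastD x) (C.headD x) : R) * lam B *
        ((J x y (A.getLastD y) (C.headD x) : R) * (nu J lam i y A * nu J lam j x C)))) =
      sp W (fun A D => spn D (fun B C => (J x y (A.getLastD y) (B.headD x) : R) *
        ((J x (B.headD x) (B.getLastD x) (C.headD x) : R) * lam B) *
          (nu J lam i y A * nu J lam j x C))) +
      sp W (fun A D => spn D (fun B C => (J x y (B.getLastD x) (C.headD x) : R) *
        ((J (A.getLastD y) (B.headD x) (B.getLastD x) y : R) * lam B) *
          (nu J lam i y A * nu J lam j x C))) := by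
    rw [← sp_add]
    simp only [← spn_add]
    refine cut_congr fun A B C hB hW => ?_
    set a := A.getLastD y with ha
    set b₁ := B.headD x with hb₁
    set b₂ := B.getLastD x with hb₂
    set c := C.headD x with hc
    rw [← hW] at hnd
    simp only [List.nodup_cons, List.mem_cons, List.mem_append, not_or, List.nodup_append] at hnd
    obtain ⟨⟨hxy, hxA, hxB, hxC⟩, ⟨hyA, hyB, hyC⟩, hAn, ⟨hBn, hCn, hBC⟩, hABC⟩ := hnd
    have ha' : a = y ∨ a ∈ A := by
      have := getLastD_mem_cons A y; simpa [ha] using this
    have hb₁' : b₁ ∈ B := headD_mem hB x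
    have hb₂' : b₂ ∈ B := getLastD_mem hB x
    have hc' : c = x ∨ c ∈ C := by
      have := headD_mem_cons C x; simpa [hc] using this
    have n1 : x ≠ a := by
      rcases ha' with h | h
      · rw [h]; exact hxy
      · exact fun h' => hxA (h' ▸ h)
    have n2 : a ≠ b₂ := by
      rcases ha' with h | h
      · rw [h]; exact fun h' => hyB (h' ▸ hb₂')
      · exact fun h' => hABC a h b₂ (Or.inl hb₂') h'
    have n3 : x ≠ b₂ := fun h' => hxB (h' ▸ hb₂')
    have m1 : y ≠ b₁ := fun h' => hyB (h' ▸ hb₁')
    have m2 : b₁ ≠ c := by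
      rcases hc' with h | h
      · rw [h]; exact fun h' => hxB (h' ▸ hb₁')
      · exact fun h' => hBC b₁ hb₁' c h h'
    have m3 : y ≠ c := by
      rcases hc' with h | h
      · rw [h]; exact fun h' => hxy h'.symm
      · exact fun h' => hyC (h' ▸ h)
    have q := hQ x a b₂ y b₁ c n1 n2 n3 m1 m2 m3
    rw [hA a c x y n1.symm m3.symm, hA b₂ c x y n3.symm m3.symm,
      hA b₂ y a b₁ n2.symm m1] at q
    have q' : J a b₁ b₂ c * J x y a c = J x y a b₁ * J x b₁ b₂ c + J x y b₂ c * J a b₁ b₂ y := by
      linear_combination -q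
    have q'' : ((J a b₁ b₂ c : ℤ) : R) * J x y a c = J x y a b₁ * J x b₁ b₂ c +
        J x y b₂ c * J a b₁ b₂ y := by
      have := congrArg (Int.cast : ℤ → R) q'
      push_cast at this
      exact this
    linear_combination (lam B * (nu J lam i y A * nu J lam j x C)) * q''
  rw [hmid]
  ring


/-- the correction of the base change -/
def Dc (J : S → S → S → S → ℤ) (lam : List S → R) (x y : S) (k : ℕ) (W : List S) : R :=
  ∑ i ∈ Finset.range k, ((k + 1).choose (i + 1) : R) * Gc J lam x y i (k - 1 - i) W

theorem base_change_aux (J : S → S → S → S → ℤ) (lam : List S → R)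
    (hA : ∀ x y z w, x ≠ z → y ≠ w → J x y z w = - J z w x y)
    (hQ : ∀ x₁ x₂ x₃ y₁ y₂ y₃, x₁ ≠ x₂ → x₂ ≠ x₃ → x₁ ≠ x₃ → y₁ ≠ y₂ → y₂ ≠ y₃ → y₁ ≠ y₃ →
      J x₁ y₁ x₂ y₂ * J x₁ y₂ x₃ y₃ + J x₂ y₂ x₃ y₃ * J x₂ y₃ x₁ y₁
        + J x₃ y₃ x₁ y₁ * J x₃ y₁ x₂ y₂ = 0)
    (hrot : ∀ A B, lam (A ++ B) = lam (B ++ A))
    (k : ℕ) (x y : S) (W : List S) (hnd : (x :: y :: W).Nodup) :
    nu J lam k x (y :: W) - nu J lam k y (W ++ [x]) = Dc J lam x y k W := by
  induction k generalizing W with
  | zero =>
    simp only [nu_zero, Dc, Finset.range_zero, Finset.sum_empty]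
    have := hrot [x] (y :: W)
    simp only [List.nil_append, List.cons_append] at this
    rw [this, sub_self]
  | succ k ih =>
    have h1 : nu J lam (k + 1) x (y :: W) = Gc J lam x y 0 k W +
        sp W (fun A D => spn D (fun B C =>
          (J (A.getLastD y) (B.headD x) (B.getLastD x) (C.headD x) : R) * lam B *
            nu J lam k x (y :: (A ++ C)))) := by
      rw [nu_succ, sp_cons, spn_cons]
      congr 1
      · unfold Gc
        refine sp_congr fun B C _ => ?_
        simp only [List.getLastD_nil, List.headD_cons, List.getLastD_cons, List.nil_append, nu_zero]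
        ring
      · refine cut_congr fun A B C hB _ => ?_
        rw [List.getLastD_cons]; rfl
    have h2 : nu J lam (k + 1) y (W ++ [x]) = - Gc J lam x y k 0 W +
        sp W (fun A D => spn D (fun B C =>
          (J (A.getLastD y) (B.headD x) (B.getLastD x) (C.headD x) : R) * lam B *
            nu J lam k y ((A ++ C) ++ [x]))) := by
      rw [nu_succ, sp_concat, spn_nil, add_zero]
      simp only [spn_concat, sp_add]
      rw [add_comm]
      congr 1
      · unfold Gc
        rw [← sp_neg]
        refine sp_congr fun A B hAB => ?_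
        rw [List.append_nil, List.headD_nil]
        have e1 : (B ++ [x]).headD y = B.headD x := by cases B <;> simp
        have e2 : (B ++ [x]).getLastD y = x := by simp
        rw [e1, e2]
        have n1 : A.getLastD y ≠ x := by
          have := getLastD_mem_cons A y
          intro h
          rw [h] at this
          rw [← hAB] at hnd
          simp only [List.nodup_cons, List.mem_cons, List.mem_append, not_or] at hnd
          simp only [List.mem_cons] at this
          rcases this with h | h
          · exact hnd.1.1 h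
          · exact hnd.1.2.1 h
        have n2 : B.headD x ≠ y := by
          have := headD_mem_cons B x
          intro h
          rw [h] at this
          rw [← hAB] at hnd
          simp only [List.nodup_cons, List.mem_cons, List.mem_append, not_or] at hnd
          simp only [List.mem_cons] at this
          rcases this with h | h
          · exact hnd.1.1 h.symm
          · exact hnd.2.1.2 h
        rw [hA _ _ _ _ n1 n2, nu_zero]
        have e3 : lam (B ++ [x]) = lam (x :: B) := by rw [hrot]; rfl
        rw [e3]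
        push_cast
        ring
      · refine cut_congr fun A B C hB _ => ?_
        have hB1 : B.headD y = B.headD x := by cases B with
          | nil => exact absurd rfl hB
          | cons b B => rfl
        have hB2 : B.getLastD y = B.getLastD x := by
          have := getLastD_append_of_ne (A := []) hB y x
          simpa using this
        have e1 : (C ++ [x]).headD y = C.headD x := by cases C <;> simp
        rw [hB1, hB2, e1, List.append_assoc]
    have h3 : sp W (fun A D => spn D (fun B C =>
          (J (A.getLastD y) (B.headD x) (B.getLastD x) (C.headD x) : R) * lam B *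
            nu J lam k x (y :: (A ++ C)))) -
        sp W (fun A D => spn D (fun B C =>
          (J (A.getLastD y) (B.headD x) (B.getLastD x) (C.headD x) : R) * lam B *
            nu J lam k y ((A ++ C) ++ [x]))) =
        ∑ i ∈ Finset.range k, ((k + 1).choose (i + 1) : R) *
          (Gc J lam x y i (k - i) W + Gc J lam x y (i + 1) (k - 1 - i) W) := by
      rw [← sp_sub]
      simp only [← spn_sub]
      have : ∀ A B C : List S, B ≠ [] → A ++ (B ++ C) = W →
          (J (A.getLastD y) (B.headD x) (B.getLastD x) (C.headD x) : R) * lam B *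
            nu J lam k x (y :: (A ++ C)) -
          (J (A.getLastD y) (B.headD x) (B.getLastD x) (C.headD x) : R) * lam B *
            nu J lam k y ((A ++ C) ++ [x]) =
          ∑ i ∈ Finset.range k, ((k + 1).choose (i + 1) : R) *
            ((J (A.getLastD y) (B.headD x) (B.getLastD x) (C.headD x) : R) * lam B *
              Gc J lam x y i (k - 1 - i) (A ++ C)) := by
        intro A B C hB hW
        have hnd' : (x :: y :: (A ++ C)).Nodup := by
          refine hnd.sublist ?_
          rw [← hW]
          refine List.Sublist.cons_cons _ (List.Sublist.cons_cons _ ?_)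
          exact (List.Sublist.refl A).append (List.sublist_append_right B C)
        rw [← mul_sub, ih (A ++ C) hnd', Dc, Finset.mul_sum]
        refine Finset.sum_congr rfl fun i _ => ?_
        ring
      rw [cut_congr this]
      simp only [spn_sum, sp_sum]
      refine Finset.sum_congr rfl fun i hi => ?_
      rw [Finset.mem_range] at hi
      simp only [← mul_spn, ← mul_sp]
      rw [cut_Gc J lam hA hQ x y i (k - 1 - i) W hnd]
      congr 3
      omega
    rw [h1, h2]
    have h4 : ∀ a b c d : R, (a + b) - (-c + d) = a + c + (b - d) := by intros; ring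
    rw [h4, h3]
    simp only [mul_add, Finset.sum_add_distrib]
    unfold Dc
    have h5 : ∀ i ∈ Finset.range (k + 1), ((k + 1 + 1).choose (i + 1) : R) *
        Gc J lam x y i (k + 1 - 1 - i) W =
        ((k + 1).choose i : R) * Gc J lam x y i (k - i) W +
        ((k + 1).choose (i + 1) : R) * Gc J lam x y i (k - i) W := by
      intro i _
      rw [Nat.choose_succ_succ (k + 1) i]
      push_cast
      simp only [Nat.succ_eq_add_one]
      ring
    rw [Finset.sum_congr rfl h5, Finset.sum_add_distrib, Finset.sum_range_succ' (fun i =>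
      ((k + 1).choose i : R) * Gc J lam x y i (k - i) W), Finset.sum_range_succ (fun i =>
      ((k + 1).choose (i + 1) : R) * Gc J lam x y i (k - i) W)]
    simp only [Nat.choose_zero_right, Nat.cast_one, one_mul, Nat.sub_zero, Nat.choose_self,
      Nat.sub_self]
    have h6 : ∀ i ∈ Finset.range k, ((k + 1).choose (i + 1) : R) *
        Gc J lam x y (i + 1) (k - (i + 1)) W =
        ((k + 1).choose (i + 1) : R) * Gc J lam x y (i + 1) (k - 1 - i) W := by
      intro i _
      rw [show k - (i + 1) = k - 1 - i by omega]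
    rw [Finset.sum_congr rfl h6]
    ring

theorem base_change (J : S → S → S → S → ℤ) (lam : List S → R)
    (hA : ∀ x y z w, x ≠ z → y ≠ w → J x y z w = - J z w x y)
    (hQ : ∀ x₁ x₂ x₃ y₁ y₂ y₃, x₁ ≠ x₂ → x₂ ≠ x₃ → x₁ ≠ x₃ → y₁ ≠ y₂ → y₂ ≠ y₃ → y₁ ≠ y₃ →
      J x₁ y₁ x₂ y₂ * J x₁ y₂ x₃ y₃ + J x₂ y₂ x₃ y₃ * J x₂ y₃ x₁ y₁
        + J x₃ y₃ x₁ y₁ * J x₃ y₁ x₂ y₂ = 0)
    (hrot : ∀ A B, lam (A ++ B) = lam (B ++ A))
    (k : ℕ) (x y : S) (W : List S) (hnd : (x :: y :: W).Nodup) :
    nu J lam (k + 1) x (y :: W) = nu J lam (k + 1) y (W ++ [x]) +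
      sp W (fun A B => (J x y (A.getLastD y) (B.headD x) : R) *
        ∑ i ∈ Finset.range (k + 1), ((k + 2).choose (i + 1) : R) * nu J lam i y A *
          nu J lam (k - i) x B) := by
  have h := base_change_aux J lam hA hQ hrot (k + 1) x y W hnd
  rw [sub_eq_iff_eq_add] at h
  rw [h, add_comm]
  congr 1
  unfold Dc Gc
  simp only [mul_sp]
  rw [← sp_sum]
  refine sp_congr fun A B _ => ?_
  rw [Finset.mul_sum]
  refine Finset.sum_congr rfl fun i _ => ?_
  rw [Nat.add_sub_cancel]
  ring

theorem base_change_prime {p : ℕ} (hp : p.Prime) [CharP R p]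
    (J : S → S → S → S → ℤ) (lam : List S → R)
    (hA : ∀ x y z w, x ≠ z → y ≠ w → J x y z w = - J z w x y)
    (hQ : ∀ x₁ x₂ x₃ y₁ y₂ y₃, x₁ ≠ x₂ → x₂ ≠ x₃ → x₁ ≠ x₃ → y₁ ≠ y₂ → y₂ ≠ y₃ → y₁ ≠ y₃ →
      J x₁ y₁ x₂ y₂ * J x₁ y₂ x₃ y₃ + J x₂ y₂ x₃ y₃ * J x₂ y₃ x₁ y₁
        + J x₃ y₃ x₁ y₁ * J x₃ y₁ x₂ y₂ = 0)
    (hrot : ∀ A B, lam (A ++ B) = lam (B ++ A))
    (x y : S) (W : List S) (hnd : (x :: y :: W).Nodup) :
    nu J lam (p - 1) x (y :: W) = nu J lam (p - 1) y (W ++ [x]) := by
  have h := base_change_aux J lam hA hQ hrot (p - 1) x y W hnd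
  rw [sub_eq_iff_eq_add] at h
  rw [h]
  have : Dc J lam x y (p - 1) W = 0 := by
    unfold Dc
    refine Finset.sum_eq_zero fun i hi => ?_
    rw [Finset.mem_range] at hi
    have hp1 := hp.one_lt
    have : (p - 1 + 1) = p := by omega
    rw [this]
    have hd : p ∣ p.choose (i + 1) := hp.dvd_choose_self (by omega) (by omega)
    rw [(CharP.cast_eq_zero_iff R p _).2 hd, zero_mul]
  rw [this, zero_add]

end Pool.Agent.Helper21.Cut
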