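import Pool.Agent.Helper21.Cut.Defs

/-!
# Cutting words (MP_86dbc7_gt): more definitions
-/

namespace Pool.Agent.Helper21.Cut

variable {S R : Type*}

/-- the closed word is a closed walk -/
def ValidC (adj : S → S → Prop) : List S → Prop
  | [] => True
  | a :: l => List.IsChain adj (a :: (l ++ [a]))

/-- variant of `nu` with a separate label `F` for the last loop (the one containing the base) -/
def nuF [CommRing R] (J : S → S → S → S → ℤ) (lam F : List S → R) : ℕ → S → List S → R
  | 0, b, W => F (b :: W)
  | k + 1, b, W => sp W fun A D => spn D fun B C =>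
      (J (A.getLastD b) (B.headD b) (B.getLastD b) (C.headD b) : R) * lam B *
        nuF J lam F k b (A ++ C)

section power

variable {V X : Type*} {n : ℕ}

/-- the letter of the spiral `γ ^ p` of type `x.1` in the pass number `x.2` -/
def gl (g : Fin n → Letter V X) (p : ℕ) (x : Fin n × ℕ) : Letter V X :=
  { g x.1 with y := (p : ℤ) * (x.1 : ℕ) + x.2 + 1 }

/-- crossing numbers for the spiral `γ ^ p` -/
noncomputable def Jg (key : V → V → ℝ) (g : Fin n → Letter V X) (p : ℕ) (x y z w : Fin n × ℕ) : ℤ :=
  Jl key (gl g p x) (gl g p y) (gl g p z) (gl g p w)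

/-- the letter number `q` (mod `n * p`) of `γ ^ p` -/
def ltr (hn : 0 < n) (p : ℕ) (q : ℕ) : Fin n × ℕ := (⟨q % n, Nat.mod_lt _ hn⟩, (q / n) % p)

end power

end Pool.Agent.Helper21.Cut
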