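import Pool.Agent.Helper21.Cut.Reduce

/-!
# The discrete theorem (MP_86dbc7_gt)
-/

namespace Pool.Agent.Helper21.Cut

open Pool.Agent.Helper57.Cut

section

variable {V X : Type*} [PseudoMetricSpace X] {δ : ℝ}

/-- two rows of sample points, the first `k` sample points of the second row being used -/
def mixRow {T : Type*} (m : ℕ) (z z' : ℕ → T) (k : ℕ) (i : ℕ) : T := if i % m < k then z' i else z i

/-- the choice of the sets of the cover along a row -/
theorem exists_choice (C : Cover V X δ) (m : ℕ) (z z' : ℕ → X)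
    (hz : ∀ i, z (i + m) = z i) (hz' : ∀ i, z' (i + m) = z' i)
    (hcell : ∀ i, ∃ v, z i ∈ C.U v ∧ z (i+1) ∈ C.U v ∧ z (i+2) ∈ C.U v ∧
       z' i ∈ C.U v ∧ z' (i+1) ∈ C.U v ∧ z' (i+2) ∈ C.U v) :
    ∃ v : ℕ → V, ∀ k, Choice C m (mixRow m z z' k) v := by
  choose u hu using hcell
  have hper : ∀ (f : ℕ → X), (∀ i, f (i + m) = f i) → ∀ i, f i = f (i % m) ∧
      f (i + 1) = f (i % m + 1) := by
    intro f hf
    have h2 : ∀ n r, f (r + m * n) = f r := by
      intro n
      induction n with
      | zero => intro r; simp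
      | succ n ih => intro r; rw [Nat.mul_succ, ← add_assoc, hf, ih]
    intro i
    have h3 := Nat.mod_add_div i m
    constructor
    · conv_lhs => rw [← h3]
      exact h2 _ _
    · conv_lhs => rw [← h3]
      rw [show i % m + m * (i / m) + 1 = (i % m + 1) + m * (i / m) by ring]
      exact h2 _ _
  refine ⟨fun i => u (i % m), fun k => ⟨fun i => ?_, fun i => ?_, fun i => ?_, fun i => ?_⟩⟩
  · simp only [mixRow, Nat.add_mod_right, hz, hz']
  · simp only [Nat.add_mod_right]
  · obtain ⟨h1, h2, h3, h4, h5, h6⟩ := hu (i % m)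
    simp only [mixRow]
    split
    · rw [(hper z' hz' i).1]; exact h4
    · rw [(hper z hz i).1]; exact h1
  · obtain ⟨h1, h2, h3, h4, h5, h6⟩ := hu (i % m)
    simp only [mixRow]
    split
    · rw [(hper z' hz' i).2]; exact h5
    · rw [(hper z hz i).2]; exact h2

theorem stepsFrom_periodic (z : ℕ → X) (v : ℕ → V) (n : ℕ) (hn : 0 < n)
    (hz : ∀ i, z (i + n) = z i) (hv : ∀ i, v (i + n) = v i) (q : ℕ) :
    stepsFrom (v (n - 1)) ((List.range (q * n)).map fun j => (z j, v j)) =
      (List.replicate q (stepsFrom (v (n - 1)) ((List.range n).map fun j => (z j, v j)))).flatten := by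
  induction q with
  | zero => simp [stepsFrom]
  | succ q ih =>
    have e1 : (List.range ((q + 1) * n)).map (fun j => (z j, v j)) =
        (List.range n).map (fun j => (z j, v j)) ++
          (List.range (q * n)).map (fun j => (z j, v j)) := by
      rw [show (q + 1) * n = n + q * n by ring, List.range_add, List.map_append, List.map_map]
      congr 1
      refine List.map_congr_left fun j _ => ?_
      simp only [Function.comp]
      rw [add_comm n j, hz, hv]
    have e2 : endv (v (n - 1)) ((List.range n).map (fun j => (z j, v j))) = v (n - 1) := by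
      obtain ⟨k, rfl⟩ : ∃ k, n = k + 1 := ⟨n - 1, by omega⟩
      have := path_endv (v (k + 1 - 1)) k z v 0
      simp only [zero_add] at this
      rw [this]
      simp
    rw [e1, stepsFrom_append, e2, ih, List.replicate_succ, List.flatten_cons]

theorem NW_nil {p : ℕ} (C : Cover V X δ) (lab : List X → ZMod p) :
    NW C lab ([] : List (Dart V X)) = 0 := by
  unfold NW NWf
  rfl

theorem NR_const {p : ℕ} (C : Cover V X δ) (lab : List X → ZMod p) (m : ℕ) (z : ℕ → X)
    (v : ℕ → V) (hv : ∀ i, v i = v 0) : NR C lab m z v 0 = 0 := by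
  unfold NR
  have key : ∀ k, stepsFrom (v 0) ((List.range k).map fun j => (z (0 + j), v (0 + j))) = [] ∧
      endv (v 0) ((List.range k).map fun j => (z (0 + j), v (0 + j))) = v 0 := by
    intro k
    induction k with
    | zero => exact ⟨rfl, rfl⟩
    | succ k ih =>
      rw [List.range_succ, List.map_append, stepsFrom_append, endv_append, ih.1, ih.2]
      simp only [List.map_cons, List.map_nil, stepsFrom, endv]
      rw [hv (0 + k), step_self]
      simp
  rw [hv (0 + m - 1), (key m).1, NW_nil]

/-- hypothesis on powers -/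
def PowerHyp {p : ℕ} [Fact p.Prime] (C : Cover V X δ) (Lw : ℝ) (lab : List X → ZMod p) : Prop :=
  ∀ w : List (Dart V X), w ≠ [] → Walk C w → plen (zs (List.replicate p w).flatten) ≤ Lw →
    NW C lab (List.replicate p w).flatten = lab (zs w) ^ p

theorem discrete_aux {p : ℕ} [Fact p.Prime] (hδ : 0 < δ) (C : Cover V X δ)
    (n T : ℕ) (hn : 0 < n) (z : ℕ → ℕ → X)
    (hper : ∀ t i, z t (i + p * n) = z t i) (hpow : ∀ i, z 0 (i + n) = z 0 i)
    (hconst : ∀ i, z T i = z T 0)
    (hcell : ∀ t < T, ∀ i, ∃ v, z t i ∈ C.U v ∧ z t (i+1) ∈ C.U v ∧ z t (i+2) ∈ C.U v ∧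
       z (t+1) i ∈ C.U v ∧ z (t+1) (i+1) ∈ C.U v ∧ z (t+1) (i+2) ∈ C.U v)
    (L ρ : ℝ) (hρ : 40 * δ ≤ ρ)
    (hlen : ∀ t < T, ∀ j, plen ((List.range (p*n)).map fun i => if i < j then z (t+1) i else z t i) ≤ L)
    (hP : LabOK δ ρ (L - ρ + 40 * δ) (labC p δ (L - ρ + 40 * δ) ((List.range n).map (z 0))) →
      PowerHyp C L (labC p δ (L - ρ + 40 * δ) ((List.range n).map (z 0)))) :
    ∃ l, Conn δ (L - ρ + 40 * δ) ((List.range n).map (z 0)) l ∧ plen l < ρ := by
  by_contra hcon
  push_neg at hcon
  set Λ : ℝ := L - ρ + 40 * δ with hΛdef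
  set g : List X := (List.range n).map (z 0) with hgdef
  have hp : p.Prime := Fact.out
  have hp2 : 2 ≤ p := hp.two_le
  have hgne : g ≠ [] := by rw [hgdef]; simp; omega
  have hg1 : ρ ≤ plen g := hcon g (Relation.EqvGen.refl _)
  -- there is at least one step
  have hT : 0 < T := by
    rcases Nat.eq_zero_or_pos T with h0 | h0
    · exfalso
      subst h0
      have e : g = List.replicate n (z 0 0) := by
        rw [hgdef, List.eq_replicate_iff]
        refine ⟨by simp, fun b hb => ?_⟩
        simp only [List.mem_map] at hb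
        obtain ⟨i, _, rfl⟩ := hb
        exact hconst i
      rw [e, plen_replicate] at hg1
      linarith
    · exact h0
  have hmn : 2 ≤ p * n := by nlinarith
  -- the length of the rows
  have hlen0 : plen ((List.range (p * n)).map (z 0)) ≤ L := by
    have := hlen 0 hT 0
    simpa using this
  have hgΛ : plen g < Λ := by
    obtain ⟨q, rfl⟩ : ∃ q, p = q + 2 := ⟨p - 2, by omega⟩
    have := plen_multiple (z 0) n q hn hpow
    rw [← hgdef] at this
    rw [hΛdef]; linarith
  -- the label
  set lab : List X → ZMod p := labC p δ Λ g with hlabdef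
  have hlab : LabOK δ ρ Λ lab := labOK_conn p g fun l hl _ => hcon l hl
  have hpower := hP hlab
  have hρ' : 4 * δ < ρ := by linarith
  have hΛ' : L - ρ + 8 * δ < Λ := by rw [hΛdef]; linarith
  -- one step
  have hstep : ∀ t < T, ∃ v : ℕ → V, Choice C (p * n) (z t) v ∧ Choice C (p * n) (z (t + 1)) v ∧
      NR C lab (p * n) (z t) v 0 = NR C lab (p * n) (z (t + 1)) v 0 ∧
      plen ((List.range (p * n)).map (z t)) ≤ L ∧
      plen ((List.range (p * n)).map (z (t + 1))) ≤ L := by
    intro t ht
    obtain ⟨v, hv⟩ := exists_choice C (p * n) (z t) (z (t + 1)) (hper t) (hper (t + 1)) (hcell t ht)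
    have hmod : ∀ i, i % (p * n) < p * n := fun i => Nat.mod_lt _ (by omega)
    have e0 : mixRow (p * n) (z t) (z (t + 1)) 0 = z t := by
      funext i; simp [mixRow]
    have em : mixRow (p * n) (z t) (z (t + 1)) (p * n) = z (t + 1) := by
      funext i; simp only [mixRow]; rw [if_pos (hmod i)]
    have hl : ∀ k, plen ((List.range (p * n)).map (mixRow (p * n) (z t) (z (t + 1)) k)) ≤ L := by
      intro k
      have := hlen t ht k
      have e : (List.range (p * n)).map (mixRow (p * n) (z t) (z (t + 1)) k) =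
          (List.range (p*n)).map fun i => if i < k then z (t+1) i else z t i := by
        refine List.map_congr_left fun i hi => ?_
        rw [List.mem_range] at hi
        simp only [mixRow, Nat.mod_eq_of_lt hi]
      rw [e]; exact this
    have hkey : ∀ k ≤ p * n, NR C lab (p * n) (z t) v 0 =
        NR C lab (p * n) (mixRow (p * n) (z t) (z (t + 1)) k) v 0 := by
      intro k
      induction k with
      | zero => intro _; rw [e0]
      | succ k ih =>
        intro hk
        rw [ih (by omega)]
        obtain ⟨u, h1, h2, h3, h4, h5, h6⟩ := hcell t ht (k + p * n - 1)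
        have s1 : k + p * n - 1 + 1 = k + p * n := by omega
        have s2 : k + p * n - 1 + 2 = (k + 1) + p * n := by omega
        rw [s1] at h2 h5
        rw [s2] at h3 h6
        rw [hper] at h2 h5
        rw [hper] at h3 h6
        refine NR_move C hδ.le hlab hρ' hΛ' hmn (hv k) (hv (k + 1)) (hl k) (hl (k + 1)) k ?_ u
          ?_ ?_ ?_ ?_
        · intro i hi
          rw [Nat.mod_eq_of_lt (by omega : k < p * n)] at hi
          simp only [mixRow]
          by_cases h : i % (p * n) < k
          · rw [if_pos h, if_pos (by omega)]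
          · rw [if_neg h, if_neg (by omega)]
        · simp only [mixRow]; split
          · exact h4
          · exact h1
        · simp only [mixRow]; split
          · exact h5
          · exact h2
        · simp only [mixRow]; split
          · exact h5
          · exact h2
        · simp only [mixRow]; split
          · exact h6
          · exact h3
    refine ⟨v, ?_, ?_, ?_, ?_, ?_⟩
    · have := hv 0; rwa [e0] at this
    · have := hv (p * n); rwa [em] at this
    · have := hkey (p * n) le_rfl; rwa [em] at this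
    · have := hl 0; rwa [e0] at this
    · have := hl (p * n); rwa [em] at this
  -- all rows
  have hall : ∀ t ≤ T, ∀ v w : ℕ → V, Choice C (p * n) (z 0) v → Choice C (p * n) (z t) w →
      NR C lab (p * n) (z 0) v 0 = NR C lab (p * n) (z t) w 0 := by
    intro t
    induction t with
    | zero =>
      intro _ v w hv hw
      exact NR_choice C hδ.le hlab hρ' hΛ' hmn hv hw hlen0
    | succ t ih =>
      intro ht v w hv hw
      obtain ⟨v', hv1, hv2, h3, h4, h5⟩ := hstep t (by omega)
      rw [ih (by omega) v v' hv hv1, h3]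
      exact NR_choice C hδ.le hlab hρ' hΛ' hmn hv2 hw h5
  -- the last row
  have hlast : ∃ w : ℕ → V, Choice C (p * n) (z T) w ∧ NR C lab (p * n) (z T) w 0 = 0 := by
    obtain ⟨t, rfl⟩ : ∃ t, T = t + 1 := ⟨T - 1, by omega⟩
    obtain ⟨v, h1, h2, h3, h4, h5, h6⟩ := hcell t (by omega) 0
    refine ⟨fun _ => v, ⟨hper _, fun _ => rfl, fun i => ?_, fun i => ?_⟩, NR_const C lab _ _ _
      fun _ => rfl⟩
    · rw [hconst]; exact h4
    · rw [hconst]; exact h4
  obtain ⟨w, hw1, hw2⟩ := hlast
  -- the first row
  obtain ⟨v₁, hv₁⟩ : ∃ v : ℕ → V, Choice C n (z 0) v := by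
    have : ∀ i, ∃ v, z 0 i ∈ C.U v ∧ z 0 (i+1) ∈ C.U v ∧ z 0 (i+2) ∈ C.U v ∧
        z 0 i ∈ C.U v ∧ z 0 (i+1) ∈ C.U v ∧ z 0 (i+2) ∈ C.U v := by
      intro i
      obtain ⟨v, h1, h2, h3, _, _, _⟩ := hcell 0 hT i
      exact ⟨v, h1, h2, h3, h1, h2, h3⟩
    obtain ⟨v, hv⟩ := exists_choice C n (z 0) (z 0) hpow hpow this
    refine ⟨v, ?_⟩
    have := hv 0
    have e0 : mixRow n (z 0) (z 0) 0 = z 0 := by funext i; simp [mixRow]
    rwa [e0] at this
  have hpowm : ∀ q i, v₁ (i + q * n) = v₁ i := by
    intro q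
    induction q with
    | zero => intro i; simp
    | succ q ih =>
      intro i
      rw [show i + (q + 1) * n = (i + q * n) + n by ring, hv₁.perv, ih]
  have hv₁m : Choice C (p * n) (z 0) v₁ := ⟨hper 0, hpowm p, hv₁.left, hv₁.right⟩
  have hN0 : NR C lab (p * n) (z 0) v₁ 0 = 0 := by rw [hall T le_rfl v₁ w hv₁m hw1, hw2]
  set Q : List (X × V) := (List.range n).map fun j => (z 0 j, v₁ j) with hQdef
  have hQfst : Q.map Prod.fst = g := by
    have := path_fst n (z 0) v₁ 0
    simp only [zero_add] at this
    rw [hQdef, this]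
  have hQne : Q ≠ [] := by rw [hQdef]; simp; omega
  have hz0 : z 0 0 ∈ C.U (v₁ (n - 1)) := by
    have := hv₁.right (n - 1)
    rw [show n - 1 + 1 = 0 + n by omega, hpow] at this
    exact this
  have hclosed : ClosedOk C (v₁ (n - 1)) Q := by
    refine ⟨?_, ?_⟩
    · have := path_ok hv₁ (v₁ (n - 1)) 0 hz0 n
      simpa only [zero_add] using this
    · obtain ⟨k, hk⟩ : ∃ k, n = k + 1 := ⟨n - 1, by omega⟩
      have := path_endv (v₁ (n - 1)) k (z 0) v₁ 0
      rw [← hk] at this
      simp only [zero_add] at this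
      rw [hQdef, this]
      congr 1; omega
  set ww := stepsFrom (v₁ (n - 1)) Q with hwwdef
  have hNR : NR C lab (p * n) (z 0) v₁ 0 = NW C lab (List.replicate p ww).flatten := by
    unfold NR
    have e1 : v₁ (0 + p * n - 1) = v₁ (n - 1) := by
      obtain ⟨q, rfl⟩ : ∃ q, p = q + 1 := ⟨p - 1, by omega⟩
      rw [← hpowm q (n - 1)]
      congr 1
      have : (q + 1) * n = q * n + n := by ring
      rw [this]; omega
    rw [e1, hwwdef, hQdef, ← stepsFrom_periodic (z 0) v₁ n hn hpow hv₁.perv p]
    simp only [zero_add]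
  by_cases hww : ww = []
  · obtain ⟨x, hx⟩ := conn_point (Λ := Λ) (v₁ (n - 1)) Q hclosed hQne hww (by rw [hQfst]; exact hgΛ)
    rw [hQfst] at hx
    have := hcon _ hx
    have h0 : plen [x] = 0 := by simp [plen, walkLen]
    rw [h0] at this
    linarith
  · obtain ⟨hc, hg⟩ := conn_zs (Λ := Λ) (v₁ (n - 1)) Q hclosed hww (by rw [hQfst]; exact hgΛ)
    rw [hQfst] at hc
    have hlab1 : lab (zs ww) = 1 := by
      rw [hlabdef]; unfold labC; rw [if_pos ⟨hc, hg⟩]
    have hwalk : Walk C ww := by
      have := OkFrom.ow hclosed.1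
      rw [hclosed.2] at this
      exact this.walk
    have hlenp : plen (zs (List.replicate p ww).flatten) ≤ L := by
      refine (plen_le_of_sublist ?_).trans hlen0
      rw [hwwdef, hQdef, ← stepsFrom_periodic (z 0) v₁ n hn hpow hv₁.perv p]
      have := zs_stepsFrom_sublist (v₁ (n - 1)) ((List.range (p * n)).map fun j => (z 0 j, v₁ j))
      have e := path_fst (p * n) (z 0) v₁ 0
      simp only [zero_add] at e
      rwa [e] at this
    have := hpower ww hww hwalk hlenp
    rw [hlab1, one_pow, ← hNR, hN0] at this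
    exact zero_ne_one this

end

end Pool.Agent.Helper21.Cut
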