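import Pool.Agent.Helper21.Cut.Discrete
import Pool.Agent.Helper3.Cut.NWPower

/-!
# The discrete theorem (MP_86dbc7_gt), final form
-/

namespace Pool.Agent.Helper21.Cut

/-- If a `p`-fold closed polygon can be contracted through short polygons, then the simple polygon is
connected to a very short polygon through polygons of length less than `L - ρ + 40 δ`. -/
theorem discrete {V X : Type*} [PseudoMetricSpace X] {δ : ℝ} (hδ : 0 < δ) (C : Cover V X δ)
    (p n T : ℕ) (hp : p.Prime) (hn : 0 < n) (z : ℕ → ℕ → X)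
    (hper : ∀ t i, z t (i + p * n) = z t i) (hpow : ∀ i, z 0 (i + n) = z 0 i)
    (hconst : ∀ i, z T i = z T 0)
    (hcell : ∀ t < T, ∀ i, ∃ v, z t i ∈ C.U v ∧ z t (i+1) ∈ C.U v ∧ z t (i+2) ∈ C.U v ∧
       z (t+1) i ∈ C.U v ∧ z (t+1) (i+1) ∈ C.U v ∧ z (t+1) (i+2) ∈ C.U v)
    (L ρ : ℝ) (hρ : 40 * δ ≤ ρ)
    (hlen : ∀ t < T, ∀ j, plen ((List.range (p*n)).map fun i => if i < j then z (t+1) i else z t i) ≤ L) :
    ∃ l, Conn δ (L - ρ + 40 * δ) ((List.range n).map (z 0)) l ∧ plen l < ρ := by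
  haveI : Fact p.Prime := ⟨hp⟩
  refine discrete_aux hδ C n T hn z hper hpow hconst hcell L ρ hρ hlen ?_
  intro hlab w hne hw hl
  exact Pool.Agent.Helper3.Cut.NW_power C hδ.le hlab (by linarith) (by linarith) w hne hw hl

end Pool.Agent.Helper21.Cut
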