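import Pool.Agent.Helper21.Cut.SwapStep

/-!
# Independence of the lateral positions (MP_86dbc7_gt)
-/

namespace Pool.Agent.Helper21.Cut

variable {V X : Type*} [PseudoMetricSpace X] {δ : ℝ}

theorem nuC_order {S R : Type*} [CommRing R] (C : Cover V X δ) (D : S → Dart V X)
    (hD : ∀ i, Adm C (D i)) (y y' : S → ℤ) (hy : ∀ i, 0 < y i) (hy' : ∀ i, 0 < y' i)
    (ho : ∀ i j, y i < y j ↔ y' i < y' j) (lam : List S → R) (k : ℕ) (W : List S) :
    nuC (JS C D y) lam k W = nuC (JS C D y') lam k W := by
  have : JS C D y = JS C D y' := by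
    funext i j k l
    exact JS_congr C D D hD y y' hy hy' id i j k l ⟨rfl, rfl⟩ ⟨rfl, rfl⟩
        ⟨rfl, rfl⟩ ⟨rfl, rfl⟩ (fun _ _ => ⟨ho _ _, ho _ _⟩) (fun _ _ => ⟨ho _ _, ho _ _⟩)
  rw [this]

theorem exists_perm_order {n : ℕ} (y : Fin n → ℤ) (hinj : Function.Injective y) :
    ∃ π : Equiv.Perm (Fin n), ∀ i j, y i < y j ↔ π i < π j := by
  have hs : StrictMono (y ∘ Tuple.sort y) :=
    (Tuple.monotone_sort y).strictMono_of_injective (hinj.comp (Tuple.sort y).injective)
  refine ⟨(Tuple.sort y).symm, fun i j => ?_⟩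
  rw [← hs.lt_iff_lt]
  simp

variable {p : ℕ} [Fact p.Prime] (C : Cover V X δ) (hδ : 0 ≤ δ) {ρ Λ Lw : ℝ}
    {lab : List X → ZMod p} (hlab : LabOK δ ρ Λ lab) (hρ : 4 * δ ≤ ρ) (hΛ : Lw - ρ + 8 * δ < Λ)

include hδ hlab hρ hΛ in
theorem nuC_perm {n : ℕ} (D : Fin (n + 1) → Dart V X) (hD : ∀ i, Adm C (D i))
    (W : List (Fin (n + 1))) (hnd : W.Nodup) (hW : ValidC (adjS D) W)
    (hlen : plen (dec D W) ≤ Lw) (π : Equiv.Perm (Fin (n + 1))) :
    nuC (JS C D (fun i => ((π i : ℕ) : ℤ) + 1)) (fun B => lab (dec D B)) (p - 1) W =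
      nuC (JS C D (fun i => ((i : ℕ) : ℤ) + 1)) (fun B => lab (dec D B)) (p - 1) W := by
  refine Submonoid.induction_of_closure_eq_top_left
    (motive := fun π : Equiv.Perm (Fin (n + 1)) =>
      nuC (JS C D (fun i => ((π i : ℕ) : ℤ) + 1)) (fun B => lab (dec D B)) (p - 1) W =
      nuC (JS C D (fun i => ((i : ℕ) : ℤ) + 1)) (fun B => lab (dec D B)) (p - 1) W)
    (Equiv.Perm.mclosure_swap_castSucc_succ n) π rfl ?_
  rintro _ ⟨k, rfl⟩ π ih
  rw [← ih]
  have hinj : Function.Injective (fun i => ((π i : ℕ) : ℤ) + 1) := by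
    intro i j h
    simp only [add_left_inj, Nat.cast_inj] at h
    exact π.injective (Fin.ext h)
  have h := nuC_swap C hδ hlab hρ hΛ D hD (fun i => ((π i : ℕ) : ℤ) + 1)
    (fun i => by positivity) hinj (π.symm k.castSucc) (π.symm k.succ)
    (by simp) (by
      intro w ⟨h1, h2⟩
      simp only [Equiv.apply_symm_apply, Fin.val_castSucc, Fin.val_succ] at h1 h2
      omega) W hnd hW hlen
  rw [← h]
  congr 2
  funext i
  have e : (Equiv.swap k.castSucc k.succ * π) i =
      π (Equiv.swap (π.symm k.castSucc) (π.symm k.succ) i) := by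
    rw [Equiv.Perm.mul_apply]
    rw [← Equiv.symm_apply_eq]
    by_cases h1 : π i = k.castSucc
    · have : i = π.symm k.castSucc := by rw [← h1]; simp
      rw [h1, Equiv.swap_apply_left, this, Equiv.swap_apply_left]
    · by_cases h2 : π i = k.succ
      · have : i = π.symm k.succ := by rw [← h2]; simp
        rw [h2, Equiv.swap_apply_right, this, Equiv.swap_apply_right]
      · rw [Equiv.swap_apply_of_ne_of_ne h1 h2, Equiv.swap_apply_of_ne_of_ne]
        · simp
        · intro h; exact h1 (by rw [h]; simp)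
        · intro h; exact h2 (by rw [h]; simp)
  rw [e]

include hδ hlab hρ hΛ in
theorem nuC_pos {n : ℕ} (D : Fin n → Dart V X) (hD : ∀ i, Adm C (D i))
    (W : List (Fin n)) (hnd : W.Nodup) (hW : ValidC (adjS D) W)
    (hlen : plen (dec D W) ≤ Lw) (y : Fin n → ℤ) (hpos : ∀ i, 0 < y i)
    (hinj : Function.Injective y) :
    nuC (JS C D y) (fun B => lab (dec D B)) (p - 1) W =
      nuC (JS C D (fun i => ((i : ℕ) : ℤ) + 1)) (fun B => lab (dec D B)) (p - 1) W := by
  cases n with
  | zero =>
    cases W with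
    | nil => rfl
    | cons a W => exact a.elim0
  | succ n =>
    obtain ⟨π, hπ⟩ := exists_perm_order y hinj
    rw [← nuC_perm C hδ hlab hρ hΛ D hD W hnd hW hlen π]
    refine nuC_order C D hD _ _ hpos (fun i => by positivity) (fun i j => ?_) _ _ _
    rw [hπ i j, Fin.lt_def]
    simp

/-- the invariant of a closed walk given by a function on `Fin n` -/
noncomputable def NWf (C : Cover V X δ) (lab : List X → ZMod p) (n : ℕ) (g : Fin n → Dart V X) :
    ZMod p :=
  nuC (JS C g (fun i => ((i : ℕ) : ℤ) + 1)) (fun B => lab (dec g B)) (p - 1) (List.finRange n)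

/-- the invariant of a closed walk -/
noncomputable def NW (C : Cover V X δ) (lab : List X → ZMod p) (w : List (Dart V X)) : ZMod p :=
  NWf C lab w.length (fun i => w.get i)

theorem NWf_cast (C : Cover V X δ) (lab : List X → ZMod p) {n m : ℕ} (h : n = m)
    (g : Fin n → Dart V X) (g' : Fin m → Dart V X) (hg : ∀ i, g i = g' (Fin.cast h i)) :
    NWf C lab n g = NWf C lab m g' := by
  subst h
  congr 1
  funext i
  exact hg i

theorem validC_map {S S' : Type*} {adj : S' → S' → Prop} (f : S → S') (W : List S) :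
    ValidC adj (W.map f) ↔ ValidC (fun a b => adj (f a) (f b)) W := by
  cases W with
  | nil => exact Iff.rfl
  | cons a W =>
    change List.IsChain adj (f a :: (W.map f ++ [f a])) ↔
      List.IsChain (fun a b => adj (f a) (f b)) (a :: (W ++ [a]))
    have e : f a :: (W.map f ++ [f a]) = (a :: (W ++ [a])).map f := by simp
    rw [e, List.isChain_map]

/-- a closed walk in the nerve of the cover -/
structure Walk (C : Cover V X δ) (w : List (Dart V X)) : Prop where
  valid : ValidC (fun a b => a.v = b.u) w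
  adm : ∀ d ∈ w, Adm C d

/-- decorations of a walk -/
def zs (w : List (Dart V X)) : List X := w.map Dart.z

include hδ hlab hρ hΛ in
/-- the invariant can be computed with arbitrary positions -/
theorem nuC_eq_NW {S : Type*} (D : S → Dart V X) (y : S → ℤ) (W : List S) (hnd : W.Nodup)
    (hpos : ∀ i ∈ W, 0 < y i) (hinj : ∀ i ∈ W, ∀ j ∈ W, y i = y j → i = j)
    (hw : Walk C (W.map D)) (hlen : plen (zs (W.map D)) ≤ Lw) :
    nuC (JS C D y) (fun B => lab (dec D B)) (p - 1) W = NW C lab (W.map D) := by
  have h1 : nuC (JS C D y) (fun B => lab (dec D B)) (p - 1) W =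
      nuC (JS C (fun i => D (W.get i)) (fun i => y (W.get i)))
        (fun B => lab (dec (fun i => D (W.get i)) B)) (p - 1) (List.finRange W.length) := by
    have hmap : (List.finRange W.length).map W.get = W := by
      simp
    have key : ∀ U : List (Fin W.length), nuC (JS C D y) (fun B => lab (dec D B)) (p - 1)
        (U.map W.get) = nuC (JS C (fun i => D (W.get i)) (fun i => y (W.get i)))
        (fun B => lab (dec (fun i => D (W.get i)) B)) (p - 1) U := by
      intro U
      cases U with
      | nil => rfl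
      | cons a U =>
        simp only [List.map_cons, nuC]
        rw [nu_map]
        congr 1
        funext B
        simp [dec, Function.comp_def]
    have := key (List.finRange W.length)
    rwa [hmap] at this
  rw [h1]
  have hinj' : Function.Injective (fun i => y (W.get i)) := by
    intro i j h
    have := hinj _ (W.get_mem i) _ (W.get_mem j) h
    exact (List.nodup_iff_injective_get.1 hnd) this
  have hmap2 : (List.finRange W.length).map (fun i => D (W.get i)) = W.map D := by
    have : (List.finRange W.length).map W.get = W := by simp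
    conv_rhs => rw [← this]
    rw [List.map_map]; rfl
  have hval : ValidC (adjS fun i => D (W.get i)) (List.finRange W.length) := by
    have := hw.valid
    rw [← hmap2, validC_map] at this
    exact this
  have hlen' : plen (dec (fun i => D (W.get i)) (List.finRange W.length)) ≤ Lw := by
    have : dec (fun i => D (W.get i)) (List.finRange W.length) = zs (W.map D) := by
      rw [← hmap2]; simp [dec, zs]
    rw [this]; exact hlen
  rw [nuC_pos C hδ hlab hρ hΛ (fun i => D (W.get i)) (fun i => hw.adm _ (by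
      exact List.mem_map_of_mem (W.get_mem i))) _ (List.nodup_finRange _) hval hlen' _
      (fun i => hpos _ (W.get_mem i)) hinj']
  unfold NW
  refine NWf_cast C lab (by simp) _ _ (fun i => ?_)
  simp

include hδ hlab hρ hΛ in
theorem NW_rot (A B : List (Dart V X)) (hw : Walk C (A ++ B)) (hlen : plen (zs (A ++ B)) ≤ Lw) :
    NW C lab (A ++ B) = NW C lab (B ++ A) := by
  set w := A ++ B with hwdef
  have hmap : (List.finRange w.length).map w.get = A ++ B := by simp [← hwdef]
  obtain ⟨A', B', hAB, hA, hB⟩ := List.map_eq_append_iff.1 hmap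
  have hnd : (A' ++ B').Nodup := by rw [← hAB]; exact List.nodup_finRange _
  have hnd' : (B' ++ A').Nodup := by
    rw [List.nodup_append_comm]; exact hnd
  have hpos : ∀ i : Fin w.length, (0 : ℤ) < ((i : ℕ) : ℤ) + 1 := fun i => by positivity
  have hinj : Function.Injective (fun i : Fin w.length => ((i : ℕ) : ℤ) + 1) := by
    intro i j h
    simp only [add_left_inj, Nat.cast_inj] at h
    exact Fin.ext h
  have e1 : (A' ++ B').map w.get = w := by rw [← hAB]; simp
  have e2 : (B' ++ A').map w.get = B ++ A := by rw [List.map_append, hA, hB]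
  have i1 := nuC_eq_NW C hδ hlab hρ hΛ w.get (fun i => ((i : ℕ) : ℤ) + 1) (A' ++ B') hnd
    (fun i _ => hpos i) (fun i _ j _ h => hinj h) (by rw [e1]; exact hw) (by rw [e1]; exact hlen)
  have hw' : Walk C (B ++ A) := by
    refine ⟨validC_rot (hwdef ▸ hw.valid), fun d hd => hw.adm d ?_⟩
    rw [hwdef]
    simp only [List.mem_append] at hd ⊢
    tauto
  have hlen' : plen (zs (B ++ A)) ≤ Lw := by
    have : plen (zs (B ++ A)) = plen (zs w) := by
      rw [hwdef]; unfold zs; rw [List.map_append, List.map_append, plen_rot]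
    rw [this]; exact hlen
  have i2 := nuC_eq_NW C hδ hlab hρ hΛ w.get (fun i => ((i : ℕ) : ℤ) + 1) (B' ++ A') hnd'
    (fun i _ => hpos i) (fun i _ j _ h => hinj h) (by rw [e2]; exact hw') (by rw [e2]; exact hlen')
  rw [e1] at i1
  rw [e2] at i2
  rw [← i1, ← i2]
  exact nuC_JS_rot C hlab w.get _ hpos hinj A' B' hnd

end Pool.Agent.Helper21.Cut
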