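import Pool.Agent.Helper21.Cut.Indep
import Pool.Agent.Helper11.CutIns.Insert

/-!
# Insertion of backtracks and faces (MP_86dbc7_gt)
-/

namespace Pool.Agent.Helper21.Cut

section points

variable {X : Type*} [PseudoMetricSpace X] {δ : ℝ}

theorem lab_insert_rep {R : Type*} [Zero R] {ρ Λ : ℝ} {lab : List X → R}
    (hlab : LabOK δ ρ Λ lab) (hδ : 0 ≤ δ) (z e : X) (l : List X) (hm : Mesh δ (e :: l)) (h1 : dist z e ≤ δ)
    (h2 : dist ((e :: l).getLastD e) z ≤ δ) (hlen : plen (e :: l) + 2 * δ < Λ) (m : ℕ) :
    lab (List.replicate m z ++ e :: l) = lab (e :: l) ∧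
      plen (List.replicate m z ++ e :: l) ≤ plen (e :: l) + 2 * δ ∧
      Mesh δ (List.replicate m z ++ e :: l) := by
  induction m with
  | zero => exact ⟨rfl, by simpa using hδ, hm⟩
  | succ m ih =>
    obtain ⟨i1, i2, i3⟩ := ih
    rw [List.replicate_succ, List.cons_append]
    cases m with
    | zero =>
      simp only [List.replicate_zero, List.nil_append] at *
      have hp : plen (z :: e :: l) ≤ plen (e :: l) + 2 * δ := by
        rw [plen_cons_cons]
        have := dist_nonneg (x := (e :: l).getLastD e) (y := e)
        linarith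
      have hm' := mesh_cons_cons hm h1 h2
      exact ⟨hlab.ins z e l hm hm' (by linarith) (by linarith), hp, hm'⟩
    | succ m =>
      rw [List.replicate_succ, List.cons_append] at *
      have hlast : (z :: (List.replicate m z ++ e :: l)).getLastD z = (e :: l).getLastD e := by
        have := getLastD_append_of_ne (A := z :: List.replicate m z) (B := e :: l) (by simp) z e
        simpa using this
      have hp : plen (z :: z :: (List.replicate m z ++ e :: l)) =
          plen (z :: (List.replicate m z ++ e :: l)) := by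
        rw [plen_cons_cons, dist_self]
        ring
      have hm' : Mesh δ (z :: z :: (List.replicate m z ++ e :: l)) := by
        refine mesh_cons_cons i3 (by simpa using hδ) ?_
        rw [hlast]; exact h2
      refine ⟨?_, by rw [hp]; exact i2, hm'⟩
      rw [hlab.ins z z _ i3 hm' (by linarith) (by rw [hp]; linarith), i1]

end points

section low

variable {S R : Type*} [CommRing R]

theorem last_mem (a : S) (l : List S) : l.getLastD a ∈ (a :: l).getLast? := by
  rcases l.eq_nil_or_concat with rfl | ⟨l', x, rfl⟩
  · simp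
  · rw [List.concat_eq_append, ← List.cons_append, List.getLast?_concat]; simp

theorem eq_of_mem_last {a x : S} {l : List S} (h : x ∈ (a :: l).getLast?) : l.getLastD a = x := by
  have := last_mem a l
  rw [Option.mem_def] at this h
  rw [this] at h
  exact Option.some.inj h

theorem validC_cut {adj : S → S → Prop} {b : S} {A B E : List S} (hB : B ≠ [])
    (h : ValidC adj (b :: (A ++ (B ++ E)))) (h1 : adj (A.getLastD b) (E.headD b))
    (h2 : adj (B.getLastD b) (B.headD b)) : ValidC adj B ∧ ValidC adj (b :: (A ++ E)) := by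
  rw [validC_iff _ (by simp) b] at h
  rw [validC_iff B hB b, validC_iff _ (by simp) b]
  obtain ⟨hc, hl⟩ := h
  rw [← List.cons_append, List.isChain_append, List.isChain_append] at hc
  obtain ⟨c1, ⟨c2, c3, c4⟩, c5⟩ := hc
  refine ⟨⟨c2, h2⟩, ?_, ?_⟩
  · rw [← List.cons_append, List.isChain_append]
    refine ⟨c1, c3, ?_⟩
    intro x hx y hy
    have e1 : A.getLastD b = x := eq_of_mem_last hx
    have e2 : E.headD b = y := by
      cases E with
      | nil => simp at hy
      | cons e E => simpa using hy
    rw [← e1, ← e2]; exact h1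
  · rw [List.headD_cons]
    by_cases hE : E = []
    · subst hE
      simp only [List.append_nil, List.headD_nil] at *
      rw [List.getLastD_cons]; exact h1
    · rw [← List.cons_append, getLastD_append_of_ne hE b b]
      rw [← List.cons_append, getLastD_append_of_ne (by simp [hE]) b b,
        getLastD_append_of_ne hE b b] at hl
      exact hl

theorem nu_low (J : S → S → S → S → ℤ) (adj : S → S → Prop) (lam : List S → R)
    (len : List S → ℝ) (ρ : ℝ) (hρ : 0 ≤ ρ)
    (hJ : ∀ a b c d, J a b c d ≠ 0 → adj a b ∧ adj c d ∧ adj a d ∧ adj c b)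
    (hlow : ∀ B, lam B ≠ 0 → ρ ≤ len B)
    (hcut : ∀ b A B C, B ≠ [] → ValidC adj (b :: (A ++ (B ++ C))) →
      J (A.getLastD b) (B.headD b) (B.getLastD b) (C.headD b) ≠ 0 →
      len B + len (b :: (A ++ C)) ≤ len (b :: (A ++ (B ++ C))))
    (k : ℕ) (b : S) (W : List S) (hW : ValidC adj (b :: W)) (h : nu J lam k b W ≠ 0) :
    ρ ≤ len (b :: W) := by
  induction k generalizing W with
  | zero => exact hlow _ h
  | succ k ih =>
    rw [nu_succ] at h
    obtain ⟨A, B, E, hB, hABE, hne⟩ := exists_of_cut_ne_zero h
    have h1 := left_ne_zero_of_mul (left_ne_zero_of_mul hne)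
    have h2 := right_ne_zero_of_mul (left_ne_zero_of_mul hne)
    have h3 := right_ne_zero_of_mul hne
    have hJ0 : J (A.getLastD b) (B.headD b) (B.getLastD b) (E.headD b) ≠ 0 := by
      intro h0; rw [h0] at h1; simp at h1
    obtain ⟨_, _, j3, j4⟩ := hJ _ _ _ _ hJ0
    have hval := validC_cut hB (hABE ▸ hW) j3 j4
    have := ih (A ++ E) hval.2 h3
    have hc := hcut b A B E hB (hABE ▸ hW) hJ0
    have hl := hlow _ h2
    rw [hABE] at hc
    linarith

end low

section gaps

variable {S : Type*} {V X : Type*} [PseudoMetricSpace X] {δ : ℝ}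

/-- a passage which turns back at the innermost positions crosses nothing -/
theorem gap_backtrack (C : Cover V X δ) (D : S → Dart V X) (y : S → ℤ)
    (hpos : ∀ i, 0 < y i) (s s' : S) (h1 : (D s).v = (D s').u) (h2 : (D s).u = (D s').v)
    (hc : ∀ c, c ≠ s → (D c).v = (D s).v → y s < y c)
    (hd : ∀ d, d ≠ s' → (D d).u = (D s).v → y s' < y d) (c d : S) (hcs : c ≠ s) (hds : d ≠ s') :
    JS C D y s s' c d = 0 := by
  unfold JS
  by_cases hv : (D s).v = (D s').u ∧ (D s).v = (D c).v ∧ (D s).v = (D d).u
  · rw [Jl_of_vertex C.key hv]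
    have hst : ((D s).at (y s)).pin C.key < ((D s').at (y s')).pout C.key := by
      rw [pin_lt_pout C.key (hpos _) (hpos _)]
      simp [Dart.at, h1, h2]
    have e1 : ¬ (((D s).at (y s)).pin C.key < ((D c).at (y c)).pin C.key ∧
        ((D c).at (y c)).pin C.key < ((D s').at (y s')).pout C.key) := by
      rintro ⟨a1, a2⟩
      rw [pin_lt_pin] at a1
      rw [pin_lt_pout C.key (hpos _) (hpos _)] at a2
      simp only [Dart.at] at a1 a2
      rw [← hv.2.1] at a1 a2
      rw [← h1, ← h2] at a2
      rcases a1 with a1 | ⟨_, a1⟩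
      · linarith
      · have := hc c hcs hv.2.1.symm
        linarith
    have e2 : ¬ (((D s).at (y s)).pin C.key < ((D d).at (y d)).pout C.key ∧
        ((D d).at (y d)).pout C.key < ((D s').at (y s')).pout C.key) := by
      rintro ⟨a1, a2⟩
      rw [pin_lt_pout C.key (hpos _) (hpos _)] at a1
      rw [pout_lt_pout] at a2
      simp only [Dart.at] at a1 a2
      rw [← hv.2.2] at a1 a2
      rw [← h1, ← h2] at a2
      rcases a2 with a2 | ⟨_, a2⟩
      · linarith
      · have := hd d hds hv.2.2.symm
        linarith
    simp only [lk, side, if_pos hst, if_neg e1, if_neg e2, sub_self]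
  · exact Jl_of_not_vertex C.key hv

/-- a passage along the corner of a face at the outermost positions crosses nothing -/
theorem gap_face (C : Cover V X δ) (D : S → Dart V X) (hD : ∀ i, Adm C (D i)) (y : S → ℤ)
    (hpos : ∀ i, 0 < y i) (s s' : S) (h1 : (D s).v = (D s').u)
    (hF : C.Face (D s).u (D s).v (D s').v)
    (hc : ∀ c, c ≠ s → (D c).v = (D s).v → y c < y s)
    (hd : ∀ d, d ≠ s' → (D d).u = (D s).v → y d < y s') (c d : S) (hcs : c ≠ s) (hds : d ≠ s') :
    JS C D y s s' c d = 0 := by
  unfold JS
  by_cases hv : (D s).v = (D s').u ∧ (D s).v = (D c).v ∧ (D s).v = (D d).u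
  · rw [Jl_of_vertex C.key hv]
    have hn := C.face_next _ _ _ (C.face_rot _ _ _ hF)
    have hcy := hc c hcs hv.2.1.symm
    have hdy := hd d hds hv.2.2.symm
    have pc := hpos c
    have pd := hpos d
    have ps := hpos s
    have ps' := hpos s'
    have hnc : (D s).v ≠ (D c).u ∧ (C.U (D s).v ∩ C.U (D c).u).Nonempty := by
      rw [hv.2.1]; exact ⟨(hD c).ne.symm, _, (hD c).mv, (hD c).mu⟩
    have hnd : (D s).v ≠ (D d).v ∧ (C.U (D s).v ∩ C.U (D d).v).Nonempty := by
      rw [hv.2.2]; exact ⟨(hD d).ne, _, (hD d).mu, (hD d).mv⟩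
    rcases hn with ⟨hlt, hn⟩ | ⟨hlt, hn⟩
    · have hst : ¬ ((D s).at (y s)).pin C.key < ((D s').at (y s')).pout C.key := by
        rw [pin_lt_pout C.key (hpos _) (hpos _)]
        simp only [Dart.at]
        rw [← h1]; exact not_le.2 hlt
      have e1 : ¬ (((D s').at (y s')).pout C.key < ((D c).at (y c)).pin C.key ∧
          ((D c).at (y c)).pin C.key < ((D s).at (y s)).pin C.key) := by
        rintro ⟨a1, a2⟩
        rw [pout_lt_pin C.key (hpos _) (hpos _)] at a1
        rw [pin_lt_pin] at a2
        simp only [Dart.at] at a1 a2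
        rw [← hv.2.1] at a1 a2
        rw [← h1] at a1
        rcases hn _ hnc.1 hnc.2 with h | h
        · linarith
        · rcases a2 with a2 | ⟨_, a2⟩
          · linarith
          · linarith
      have e2 : ¬ (((D s').at (y s')).pout C.key < ((D d).at (y d)).pout C.key ∧
          ((D d).at (y d)).pout C.key < ((D s).at (y s)).pin C.key) := by
        rintro ⟨a1, a2⟩
        rw [pout_lt_pout] at a1
        rw [pout_lt_pin C.key (hpos _) (hpos _)] at a2
        simp only [Dart.at] at a1 a2
        rw [← hv.2.2] at a1 a2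
        rw [← h1] at a1
        rcases hn _ hnd.1 hnd.2 with h | h
        · rcases a1 with a1 | ⟨_, a1⟩
          · linarith
          · linarith
        · linarith
      simp only [lk, side, if_neg hst, if_neg e1, if_neg e2, sub_self]
    · have hst : ((D s).at (y s)).pin C.key < ((D s').at (y s')).pout C.key := by
        rw [pin_lt_pout C.key (hpos _) (hpos _)]
        simp only [Dart.at]
        rw [← h1]; exact hlt.le
      have e1 : (((D s).at (y s)).pin C.key < ((D c).at (y c)).pin C.key ∧
          ((D c).at (y c)).pin C.key < ((D s').at (y s')).pout C.key) := by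
        rw [pin_lt_pin, pin_lt_pout C.key (hpos _) (hpos _)]
        simp only [Dart.at]
        rw [← hv.2.1, ← h1]
        obtain ⟨g1, g2⟩ := hn _ hnc.1 hnc.2
        refine ⟨?_, g2⟩
        rcases g1.lt_or_eq with g | g
        · exact Or.inl g
        · exact Or.inr ⟨g, hcy⟩
      have e2 : (((D s).at (y s)).pin C.key < ((D d).at (y d)).pout C.key ∧
          ((D d).at (y d)).pout C.key < ((D s').at (y s')).pout C.key) := by
        rw [pin_lt_pout C.key (hpos _) (hpos _), pout_lt_pout]
        simp only [Dart.at]
        rw [← hv.2.2, ← h1]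
        obtain ⟨g1, g2⟩ := hn _ hnd.1 hnd.2
        refine ⟨g1, ?_⟩
        rcases g2.lt_or_eq with g | g
        · exact Or.inl g
        · exact Or.inr ⟨g, hdy⟩
      simp only [lk, side, if_pos hst, if_pos e1, if_pos e2, sub_self]
  · exact Jl_of_not_vertex C.key hv

end gaps

section step

variable {S : Type*} {V X : Type*} [PseudoMetricSpace X] {δ : ℝ}
variable {p : ℕ} [Fact p.Prime] (C : Cover V X δ) (hδ : 0 ≤ δ) {ρ Λ Lw : ℝ}
    {lab : List X → ZMod p} (hlab : LabOK δ ρ Λ lab) (hρ : 4 * δ < ρ) (hΛ : Lw - ρ + 8 * δ < Λ)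

include hδ hlab hρ hΛ in
/-- insertion of a closed loop `t :: T` which crosses nothing, all of whose points are equal -/
theorem nuC_insert (D : S → Dart V X) (hD : ∀ i, Adm C (D i)) (y : S → ℤ)
    (hpos : ∀ i, 0 < y i) (hinj : Function.Injective y) (t : S) (T : List S)
    (hT : ValidC (adjS D) (t :: T)) (z : X) (hz : dec D (t :: T) = List.replicate (T.length + 1) z)
    (hgap : ∀ T₁ T₂ s s', (t :: T) ++ [t] = T₁ ++ s :: s' :: T₂ →
      ∀ c d, c ≠ s → d ≠ s' → JS C D y s s' c d = 0)
    (b : S) (W : List S) (hnd : (b :: (W ++ (t :: T))).Nodup)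
    (hW : ValidC (adjS D) (b :: (W ++ (t :: T))))
    (hlen : plen (dec D (b :: (W ++ (t :: T)))) ≤ Lw) :
    nuC (JS C D y) (fun B => lab (dec D B)) (p - 1) (b :: (W ++ (t :: T))) =
      nuC (JS C D y) (fun B => lab (dec D B)) (p - 1) (b :: W) := by
  have hp := (Fact.out : p.Prime).two_le
  have hzt : (D t).z = z := by
    have : dec D (t :: T) = (D t).z :: dec D T := rfl
    rw [this, List.replicate_succ] at hz
    exact (List.cons.inj hz).1
  have hTlast : adjS D (T.getLastD t) t := by
    have := ((validC_iff (t :: T) (by simp) t).1 hT).2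
    rwa [List.getLastD_cons, List.headD_cons] at this
  -- the effect of the insertion on lengths and labels
  have hins : ∀ E : List S, E ≠ [] → ValidC (adjS D) ((t :: T) ++ E) →
      plen (dec D ((t :: T) ++ E)) ≤ plen (dec D E) + 2 * δ ∧
      (plen (dec D E) + 2 * δ < Λ → lab (dec D ((t :: T) ++ E)) = lab (dec D E)) := by
    intro E hE hval
    cases E with
    | nil => exact absurd rfl hE
    | cons e E =>
      have hv := (validC_iff ((t :: T) ++ e :: E) (by simp) t).1 hval
      obtain ⟨hv1, hv2⟩ := hv
      rw [List.isChain_append] at hv1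
      rw [getLastD_append_of_ne (by simp) t t] at hv2
      simp only [List.cons_append, List.headD_cons] at hv2
      have hTe : adjS D (T.getLastD t) e := by
        exact hv1.2.2 _ (last_mem t T) e (by simp)
      have hq : (D e).u = (D t).u := by
        unfold adjS at hTe hTlast
        rw [← hTe, hTlast]
      have hEl : adjS D ((e :: E).getLastD t) t := hv2
      have hEmesh : Mesh δ (dec D (e :: E)) := by
        refine mesh_dec C D hD _ ?_
        rw [validC_iff _ (by simp) t]
        refine ⟨hv1.2.1, ?_⟩
        unfold adjS at hEl ⊢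
        rw [List.headD_cons, hq, hEl]
      have d1 : dist z (D e).z ≤ δ := by
        rw [← hzt]
        exact C.diam _ _ (hD t).mu _ (hq ▸ (hD e).mu)
      have d2 : dist ((dec D (e :: E)).getLastD (D e).z) z ≤ δ := by
        have : (dec D (e :: E)).getLastD (D e).z = (D ((e :: E).getLastD t)).z := by
          have h1 : (dec D (e :: E)).getLastD (D e).z = (dec D (e :: E)).getLastD (D t).z := by
            rw [dec_cons, List.getLastD_cons, List.getLastD_cons]
          rw [h1, dec_getLastD]
        rw [this, ← hzt]
        unfold adjS at hEl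
        exact C.diam _ _ (hEl ▸ (hD _).mv) _ (hD t).mu
      rw [dec_append, hz]
      have hpl : plen (List.replicate (T.length + 1) z ++ dec D (e :: E)) ≤
          plen (dec D (e :: E)) + 2 * δ := by
        -- use the lemma with a label `0`
        have h0 : LabOK δ 0 (plen (dec D (e :: E)) + 2 * δ + 1) (fun _ : List X => (0 : ZMod p)) :=
          ⟨fun _ _ => rfl, fun _ h => absurd rfl h, fun _ _ _ _ _ _ _ => rfl⟩
        exact (lab_insert_rep h0 hδ z (D e).z (dec D E) hEmesh d1 d2 (by
          have : dec D (e :: E) = (D e).z :: dec D E := rfl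
          rw [← this]; linarith) (T.length + 1)).2.1
      refine ⟨hpl, fun hlt => ?_⟩
      exact (lab_insert_rep hlab hδ z (D e).z (dec D E) hEmesh d1 d2 hlt (T.length + 1)).1
  have hlamrot : ∀ A E : List S, lab (dec D (A ++ (t :: T) ++ E)) = lab (dec D ((t :: T) ++ (E ++ A))) := by
    intro A E
    rw [List.append_assoc, dec_rot hlab D A, List.append_assoc]
  have hlenrot : ∀ A E : List S, plen (dec D (A ++ E)) = plen (dec D (E ++ A)) := by
    intro A E
    rw [dec_append, dec_append, plen_rot]
  have hlenrot' : ∀ A E : List S, plen (dec D (A ++ (t :: T) ++ E)) =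
      plen (dec D ((t :: T) ++ (E ++ A))) := by
    intro A E
    rw [List.append_assoc, hlenrot A, List.append_assoc]
  have hgap' : ∀ T₁ T₂ s s', (t :: T) ++ [t] = T₁ ++ s :: s' :: T₂ →
      ∀ c d, c ≠ s → d ≠ s' → JS C D y s s' c d = 0 ∧ JS C D y c d s s' = 0 := by
    intro T₁ T₂ s s' h c d hc hd
    have h0 := hgap T₁ T₂ s s' h c d hc hd
    refine ⟨h0, ?_⟩
    rw [JS_antisymm C D y hpos hinj c d s s' hc hd, h0, neg_zero]
  have hg0 : ∀ c d, c ≠ T.getLastD t → d ≠ t → JS C D y (T.getLastD t) t c d = 0 := by
    rcases T.eq_nil_or_concat with h | ⟨T', x, h⟩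
    · subst h
      exact hgap [] [] t t rfl
    · subst h
      intro c d hc hd
      refine hgap (t :: T') [] _ t ?_ c d hc hd
      simp
  have hmain := Pool.Agent.Helper11.CutIns.nu_insert (JS C D y) (adjS D)
    (fun B => lab (dec D B)) (fun B => plen (dec D B) - 2 * δ) (ρ - 4 * δ) (2 * δ) (Lw - 2 * δ)
    (by linarith) (by linarith) (adjS_adj D) (fun a b c d h => JS_ne_zero h)
    (fun B hB => by have := hlab.low _ hB; linarith)
    (fun b A B E hB _ hJ => cut_len C D hD _ b A B E hB hJ)
    t T hT hgap' ?_ ?_ ?_ ?_ (p - 1) b W []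
  · simp only [List.append_nil] at hmain
    have hvalid : ValidC (adjS D) ((t :: T) ++ (b :: W)) := validC_rot hW
    have hb := hins (b :: W) (by simp) hvalid
    have hle : plen (dec D (b :: W)) ≤ plen (dec D (b :: (W ++ (t :: T)))) := by
      have : plen (dec D (b :: (W ++ (t :: T)))) = plen (dec D ((t :: T) ++ (b :: W))) := by
        rw [← List.cons_append, hlenrot]
      rw [this, dec_append]
      exact plen_le_append _ _
    exact hmain hnd hW (by linarith) (by linarith) (fun h => by omega)
  · intro a c x y' ha hc hx1 hx2 hy1 hy2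
    have hv : ((D a).at (y a)).v = ((D t).at (y t)).u ∧
        ((D a).at (y a)).v = ((D (T.getLastD t)).at (y (T.getLastD t))).v ∧
        ((D a).at (y a)).v = ((D c).at (y c)).u := by
      unfold adjS at ha hc hTlast
      exact ⟨ha, ha.trans hTlast.symm, (ha.trans hTlast.symm).trans hc⟩
    have hne : ∀ {i j : S}, i ≠ j → y i ≠ y j := fun h h' => h (hinj h')
    have sw := Jl_switch C.key ((D a).at (y a)) ((D t).at (y t))
      ((D (T.getLastD t)).at (y (T.getLastD t))) ((D c).at (y c)) ((D x).at (y x))
      ((D y').at (y y')) hv (hne hx1.symm) (hne hy1.symm) (hne hx2.symm) (hne hy2.symm)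
      (hpos _) (hpos _) (hpos _) (hpos _) (hpos _) (hpos _)
    have hz0 := hg0 x y' hx2 hy1
    unfold JS at hz0
    rw [hz0, add_zero] at sw
    have sw' : JS C D y a t x y' + JS C D y (T.getLastD t) c x y' = JS C D y a c x y' := sw
    refine ⟨sw', ?_⟩
    rw [JS_antisymm C D y hpos hinj x y' a t hx1 hy1,
      JS_antisymm C D y hpos hinj x y' (T.getLastD t) c hx2 hy2,
      JS_antisymm C D y hpos hinj x y' a c hx1 hy2, ← sw']
    ring
  · show lab (dec D (t :: T)) = 0
    by_contra h
    have h1 := hlab.low _ h
    have h2 : plen (dec D (t :: T)) = 0 := by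
      rw [hz]
      have h0 : ∀ m : ℕ, inner (List.replicate (m + 1) z) = 0 := by
        intro m
        induction m with
        | zero => rfl
        | succ m ih =>
          rw [List.replicate_succ, List.replicate_succ, inner_cons_cons, dist_self, zero_add,
            ← List.replicate_succ, ih]
      rw [plen_eq _ (by simp) z, h0, List.replicate_succ]
      have : (z :: List.replicate T.length z).getLastD z = z := by
        have hm : (z :: List.replicate T.length z).getLastD z ∈ z :: List.replicate T.length z :=
          getLastD_mem (by simp) z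
        simp only [List.mem_cons, List.mem_replicate] at hm
        rcases hm with h | h
        · exact h
        · exact h.2
      rw [this]; simp
    linarith
  · intro A E hAE hval
    have hval' : ValidC (adjS D) ((t :: T) ++ (E ++ A)) := by
      rw [List.append_assoc] at hval
      have := validC_rot hval
      rwa [List.append_assoc] at this
    have hEA : E ++ A ≠ [] := by
      intro h; apply hAE
      simp only [List.append_eq_nil_iff] at h ⊢
      exact ⟨h.2, h.1⟩
    have h1 := (hins (E ++ A) hEA hval').1
    have h2 : plen (dec D (E ++ A)) ≤ plen (dec D ((t :: T) ++ (E ++ A))) := by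
      rw [dec_append _ (t :: T)]; exact plen_le_append _ _
    rw [hlenrot' A E, hlenrot A E]
    constructor <;> linarith
  · intro A E hAE hval _ h2
    have hval' : ValidC (adjS D) ((t :: T) ++ (E ++ A)) := by
      rw [List.append_assoc] at hval
      have := validC_rot hval
      rwa [List.append_assoc] at this
    have hEA : E ++ A ≠ [] := by
      intro h; apply hAE
      simp only [List.append_eq_nil_iff] at h ⊢
      exact ⟨h.2, h.1⟩
    show lab (dec D (A ++ (t :: T) ++ E)) = lab (dec D (A ++ E))
    rw [hlamrot A E, dec_rot hlab D A E]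
    refine (hins (E ++ A) hEA hval').2 ?_
    rw [hlenrot A E] at h2
    linarith

end step

end Pool.Agent.Helper21.Cut
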