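import Pool.Agent.Helper21.Cut.Ports

/-!
# Lengths of closed polygons (MP_86dbc7_gt)
-/

namespace Pool.Agent.Helper21.Cut

variable {X : Type*} [PseudoMetricSpace X]

/-- length of an open polygonal path through the points of a list -/
def inner : List X → ℝ
  | [] => 0
  | [_] => 0
  | a :: b :: l => dist a b + inner (b :: l)

@[simp] theorem inner_nil : inner ([] : List X) = 0 := rfl
@[simp] theorem inner_single (a : X) : inner [a] = 0 := rfl
@[simp] theorem inner_cons_cons (a b : X) (l : List X) :
    inner (a :: b :: l) = dist a b + inner (b :: l) := rfl

theorem inner_nonneg (l : List X) : 0 ≤ inner l := by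
  induction l with
  | nil => simp
  | cons a l ih =>
    cases l with
    | nil => simp
    | cons b l => rw [inner_cons_cons]; positivity

theorem walkLen_eq (a b : X) (l : List X) : walkLen a l b = inner (a :: (l ++ [b])) := by
  induction l generalizing a with
  | nil => simp [walkLen]
  | cons x l ih => simp [walkLen, ih]

theorem inner_append (A B : List X) (hA : A ≠ []) (hB : B ≠ []) (d : X) :
    inner (A ++ B) = inner A + dist (A.getLastD d) (B.headD d) + inner B := by
  induction A with
  | nil => exact absurd rfl hA
  | cons a A ih =>
    cases A with
    | nil =>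
      cases B with
      | nil => exact absurd rfl hB
      | cons b B => simp
    | cons a' A =>
      have := ih (by simp)
      simp only [List.cons_append, inner_cons_cons, List.getLastD_cons] at this ⊢
      rw [this]; ring

theorem plen_eq (l : List X) (hl : l ≠ []) (d : X) :
    plen l = inner l + dist (l.getLastD d) (l.headD d) := by
  cases l with
  | nil => exact absurd rfl hl
  | cons a l =>
    simp only [plen, walkLen_eq]
    rw [← List.cons_append, inner_append (a :: l) [a] (by simp) (by simp) d]
    simp

theorem plen_nonneg (l : List X) : 0 ≤ plen l := by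
  cases l with
  | nil => simp [plen]
  | cons a l =>
    rw [plen_eq _ (by simp) a]
    have := inner_nonneg (a :: l)
    positivity

omit [PseudoMetricSpace X] in
theorem headD_append {A : List X} (h : A ≠ []) (B : List X) (x : X) :
    (A ++ B).headD x = A.headD x := headD_append_of_ne h x x

omit [PseudoMetricSpace X] in
theorem getLastD_append {B : List X} (h : B ≠ []) (A : List X) (x : X) :
    (A ++ B).getLastD x = B.getLastD x := getLastD_append_of_ne h x x

theorem plen_append (A B : List X) (hA : A ≠ []) (hB : B ≠ []) (d : X) :
    plen (A ++ B) = inner A + dist (A.getLastD d) (B.headD d) + inner B +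
      dist (B.getLastD d) (A.headD d) := by
  rw [plen_eq (A ++ B) (by simp [hA]) d, inner_append A B hA hB d, getLastD_append hB,
    headD_append hA]

theorem plen_rot (A B : List X) : plen (A ++ B) = plen (B ++ A) := by
  by_cases hA : A = []
  · simp [hA]
  by_cases hB : B = []
  · simp [hB]
  obtain ⟨d, _⟩ := List.exists_mem_of_ne_nil A hA
  rw [plen_append A B hA hB d, plen_append B A hB hA d]
  ring

theorem plen_cons_cons (z a : X) (l : List X) :
    plen (z :: a :: l) = plen (a :: l) + (dist ((a :: l).getLastD a) z + dist z a -
      dist ((a :: l).getLastD a) a) := by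
  rw [plen_eq (z :: a :: l) (by simp) a, plen_eq (a :: l) (by simp) a]
  simp only [inner_cons_cons, List.getLastD_cons, List.headD_cons]
  ring

theorem plen_le_cons (z : X) (l : List X) : plen l ≤ plen (z :: l) := by
  cases l with
  | nil => simpa [plen] using plen_nonneg [z]
  | cons a l =>
    rw [plen_cons_cons]
    have := dist_triangle ((a :: l).getLastD a) z a
    linarith

theorem plen_le_append (A B : List X) : plen B ≤ plen (A ++ B) := by
  induction A with
  | nil => simp
  | cons a A ih => exact ih.trans (plen_le_cons a _)

theorem plen_le_of_sublist {A B : List X} (h : A.Sublist B) : plen A ≤ plen B := by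
  -- general: `plen (A ++ C) ≤ plen (B ++ C)`
  have key : ∀ {A B : List X}, A.Sublist B → ∀ C : List X, plen (A ++ C) ≤ plen (B ++ C) := by
    intro A B h
    induction h with
    | slnil => intro C; exact le_rfl
    | @cons A B b h ih =>
      intro C
      exact (ih C).trans (plen_le_cons b _)
    | @cons_cons A B b h ih =>
      intro C
      have := ih (C ++ [b])
      have e1 : plen (b :: A ++ C) = plen (A ++ (C ++ [b])) := by
        have := plen_rot [b] (A ++ C)
        simpa using this
      have e2 : plen (b :: B ++ C) = plen (B ++ (C ++ [b])) := by
        have := plen_rot [b] (B ++ C)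
        simpa using this
      rw [e1, e2]; exact this
  simpa using key h []

/-- cutting a closed polygon at two gaps between points which are close to each other -/
theorem plen_cut {δ : ℝ} (b : X) (A B C : List X) (hB : B ≠ [])
    (h1 : dist (B.getLastD b) (B.headD b) ≤ δ) (h2 : dist (A.getLastD b) (C.headD b) ≤ δ) :
    plen B + plen (b :: (A ++ C)) ≤ plen (b :: (A ++ (B ++ C))) + 2 * δ := by
  have e0 := plen_eq B hB b
  by_cases hC : C = []
  · subst hC
    have e1 := plen_eq (b :: (A ++ [])) (by simp) b
    have e2 := plen_append (b :: A) B (by simp) hB b
    simp only [List.append_nil, List.getLastD_cons, List.headD_cons, List.headD_nil,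
      List.cons_append] at *
    have h3 := dist_nonneg (x := A.getLastD b) (y := B.headD b)
    have h4 := dist_nonneg (x := B.getLastD b) (y := b)
    linarith
  · have e1 := plen_append (b :: A) C (by simp) hC b
    have e2 := plen_append (b :: A) (B ++ C) (by simp) (by simp [hB]) b
    have e3 := inner_append B C hB hC b
    simp only [List.getLastD_cons, List.headD_cons, List.cons_append] at *
    rw [headD_append hB, getLastD_append hC] at e2
    have h3 := dist_nonneg (x := A.getLastD b) (y := B.headD b)
    have h4 := dist_nonneg (x := B.getLastD b) (y := C.headD b)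
    linarith

/-! ### mesh -/

theorem mesh_iff_cyc {δ : ℝ} (l : List X) (hl : l ≠ []) (d : X) :
    Mesh δ l ↔ List.IsChain (fun x y => dist x y ≤ δ) l ∧ dist (l.getLastD d) (l.headD d) ≤ δ := by
  cases l with
  | nil => exact absurd rfl hl
  | cons a l =>
    change List.IsChain (fun x y => dist x y ≤ δ) (a :: (l ++ [a])) ↔ _
    rw [← List.cons_append, List.isChain_append]
    simp only [List.isChain_singleton, true_and, List.headD_cons]
    constructor
    · rintro ⟨h1, h2⟩
      refine ⟨h1, ?_⟩
      refine h2 _ ?_ _ (by simp)
      rcases (a :: l).eq_nil_or_concat with h | ⟨l', x, h⟩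
      · simp at h
      · rw [h]; simp
    · rintro ⟨h1, h2⟩
      refine ⟨h1, ?_⟩
      intro x hx y hy
      simp only [List.head?_cons, Option.mem_def, Option.some.injEq] at hy
      subst hy
      have : (a :: l).getLastD d = x := by
        rcases (a :: l).eq_nil_or_concat with h | ⟨l', x', h⟩
        · simp at h
        · rw [h] at hx ⊢; simp at hx ⊢; exact hx
      rw [← this]; exact h2

end Pool.Agent.Helper21.Cut
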