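import Pool.Agent.Helper21.Cut.InsertStep

/-!
# Moves of closed walks (MP_86dbc7_gt)
-/

namespace Pool.Agent.Helper21.Cut

section relabel

variable {S R : Type*} [CommRing R]

theorem nu_relabel (J : S → S → S → S → ℤ) (adj : S → S → Prop) (lam lam' : List S → R)
    (len len' : List S → ℝ) (ρ κ Lt : ℝ) (hρ : 0 ≤ ρ) (hκ : 0 ≤ κ)
    (hJ : ∀ a b c d, J a b c d ≠ 0 → adj a b ∧ adj c d ∧ adj a d ∧ adj c b)
    (hlow : ∀ B, lam B ≠ 0 → ρ + κ ≤ len B) (hlow' : ∀ B, lam' B ≠ 0 → ρ + κ ≤ len' B)
    (hcut : ∀ b A B C, B ≠ [] → ValidC adj (b :: (A ++ (B ++ C))) →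
      J (A.getLastD b) (B.headD b) (B.getLastD b) (C.headD b) ≠ 0 →
      len B + len (b :: (A ++ C)) ≤ len (b :: (A ++ (B ++ C))))
    (hcut' : ∀ b A B C, B ≠ [] → ValidC adj (b :: (A ++ (B ++ C))) →
      J (A.getLastD b) (B.headD b) (B.getLastD b) (C.headD b) ≠ 0 →
      len' B + len' (b :: (A ++ C)) ≤ len' (b :: (A ++ (B ++ C))))
    (hlen : ∀ B : List S, B.Nodup → ValidC adj B → len B ≤ len' B + κ ∧ len' B ≤ len B + κ)
    (hlam : ∀ B : List S, B.Nodup → ValidC adj B → len B ≤ Lt - ρ → len' B ≤ Lt - ρ →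
      lam B = lam' B)
    (k : ℕ) (b : S) (W : List S) (hnd : (b :: W).Nodup) (hW : ValidC adj (b :: W))
    (h1 : len (b :: W) ≤ Lt) (h2 : len' (b :: W) ≤ Lt)
    (h0 : k = 0 → len (b :: W) ≤ Lt - ρ ∧ len' (b :: W) ≤ Lt - ρ) :
    nu J lam k b W = nu J lam' k b W := by
  induction k generalizing W with
  | zero => exact hlam _ hnd hW (h0 rfl).1 (h0 rfl).2
  | succ k ih =>
    rw [nu_succ, nu_succ]
    refine cut_congr fun A B E hB hABE => ?_
    by_cases hJ0 : J (A.getLastD b) (B.headD b) (B.getLastD b) (E.headD b) = 0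
    · rw [hJ0]; simp
    obtain ⟨_, _, j3, j4⟩ := hJ _ _ _ _ hJ0
    have hval := validC_cut hB (hABE ▸ hW) j3 j4
    have hndB : B.Nodup := by
      rw [← hABE] at hnd
      refine hnd.sublist ?_
      exact (((List.sublist_append_left B E).trans (List.sublist_append_right A _)).trans
        (List.sublist_cons_self b _))
    have hndR : (b :: (A ++ E)).Nodup := by
      rw [← hABE] at hnd
      refine hnd.sublist ?_
      exact List.Sublist.cons_cons _ ((List.Sublist.refl A).append (List.sublist_append_right B E))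
    have c1 := hcut b A B E hB (hABE ▸ hW) hJ0
    have c2 := hcut' b A B E hB (hABE ▸ hW) hJ0
    rw [hABE] at c1 c2
    obtain ⟨l1, l2⟩ := hlen B hndB hval.1
    obtain ⟨l3, l4⟩ := hlen (b :: (A ++ E)) hndR hval.2
    have key : lam B * nu J lam k b (A ++ E) = lam' B * nu J lam' k b (A ++ E) := by
      by_cases hP : lam B * nu J lam k b (A ++ E) = 0
      · by_cases hP' : lam' B * nu J lam' k b (A ++ E) = 0
        · rw [hP, hP']
        · have a1 := hlow' _ (left_ne_zero_of_mul hP')
          have a2 := nu_low J adj lam' len' (ρ + κ) (by linarith) hJ hlow' hcut' k b (A ++ E)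
            hval.2 (right_ne_zero_of_mul hP')
          rw [hlam B hndB hval.1 (by linarith) (by linarith),
            ih (A ++ E) hndR hval.2 (by linarith) (by linarith)
              (fun _ => ⟨by linarith, by linarith⟩)]
      · have a1 := hlow _ (left_ne_zero_of_mul hP)
        have a2 := nu_low J adj lam len (ρ + κ) (by linarith) hJ hlow hcut k b (A ++ E)
          hval.2 (right_ne_zero_of_mul hP)
        rw [hlam B hndB hval.1 (by linarith) (by linarith),
            ih (A ++ E) hndR hval.2 (by linarith) (by linarith)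
              (fun _ => ⟨by linarith, by linarith⟩)]
    rw [mul_assoc, key, mul_assoc]

end relabel

section moves

variable {V X : Type*} [PseudoMetricSpace X] {δ : ℝ}
variable {p : ℕ} [Fact p.Prime] (C : Cover V X δ) (hδ : 0 ≤ δ) {ρ Λ Lw : ℝ}
    {lab : List X → ZMod p} (hlab : LabOK δ ρ Λ lab) (hρ : 4 * δ < ρ) (hΛ : Lw - ρ + 8 * δ < Λ)

theorem dec_eq_zs {S : Type*} (D : S → Dart V X) (W : List S) : dec D W = zs (W.map D) := by
  simp [dec, zs]

theorem dec_get (w : List (Dart V X)) : dec w.get (List.finRange w.length) = zs w := by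
  rw [dec_eq_zs]
  congr 1
  simp

theorem valid_get (w : List (Dart V X)) (hw : Walk C w) :
    ValidC (adjS w.get) (List.finRange w.length) := by
  have h := hw.valid
  have e : (List.finRange w.length).map w.get = w := by simp
  rw [← e, validC_map] at h
  exact h

include hδ hlab hρ in
theorem NW_low (w : List (Dart V X)) (hw : Walk C w) (h : NW C lab w ≠ 0) : ρ ≤ plen (zs w) := by
  have hval := valid_get C w hw
  unfold NW NWf at h
  have hdec := dec_get w
  generalize List.finRange w.length = W at *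
  cases W with
  | nil => exact absurd rfl h
  | cons b W =>
    have := nu_low _ (adjS w.get) _ (fun B => plen (dec w.get B) - 2 * δ) (ρ - 2 * δ)
      (by linarith) (fun a b c d h => JS_ne_zero h) (fun B hB => by
        have := hlab.low _ hB
        show ρ - 2 * δ ≤ plen (dec w.get B) - 2 * δ
        linarith)
      (fun b A B E hB _ hJ => cut_len C _ (fun i => hw.adm _ (w.get_mem i)) _ b A B E hB hJ)
      (p - 1) b W hval h
    rw [hdec] at this
    linarith

theorem inj_succ {n : ℕ} : Function.Injective (fun i : Fin n => ((i : ℕ) : ℤ) + 1) := by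
  intro i j h
  simp only [add_left_inj, Nat.cast_inj] at h
  exact Fin.ext h

theorem pos_succ {n : ℕ} (i : Fin n) : (0 : ℤ) < ((i : ℕ) : ℤ) + 1 := by positivity

theorem mem_append_finRange {n : ℕ} {T W : List (Fin n)} (h : List.finRange n = T ++ W) (c : Fin n) :
    c ∈ T ∨ c ∈ W := by
  have := List.mem_finRange c
  rw [h, List.mem_append] at this
  exact this

theorem lt_append_finRange {n : ℕ} {T W : List (Fin n)} (h : List.finRange n = T ++ W) {a b : Fin n}
    (ha : a ∈ T) (hb : b ∈ W) : ((a : ℕ) : ℤ) + 1 < ((b : ℕ) : ℤ) + 1 := by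
  have := List.pairwise_lt_finRange n
  rw [h, List.pairwise_append] at this
  have := this.2.2 a ha b hb
  rw [Fin.lt_def] at this
  omega

theorem Walk.rot {C : Cover V X δ} {A B : List (Dart V X)} (h : Walk C (A ++ B)) :
    Walk C (B ++ A) :=
  ⟨validC_rot h.valid, fun d hd => h.adm d (by
    simp only [List.mem_append] at hd ⊢; tauto)⟩

theorem zs_append (A B : List (Dart V X)) : zs (A ++ B) = zs A ++ zs B := by simp [zs]

theorem plen_zs_rot (A B : List (Dart V X)) : plen (zs (A ++ B)) = plen (zs (B ++ A)) := by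
  rw [zs_append, zs_append, plen_rot]

/-- removing a closed walk from a closed walk -/
theorem Walk.drop {C : Cover V X δ} {T E : List (Dart V X)} (h : Walk C (T ++ E))
    (hT : Walk C T) : Walk C E := by
  refine ⟨?_, fun d hd => h.adm d (by simp [hd])⟩
  by_cases hE : E = []
  · subst hE; trivial
  by_cases hT0 : T = []
  · subst hT0; exact h.valid
  obtain ⟨d, _⟩ := List.exists_mem_of_ne_nil E hE
  have h1 := (validC_iff (T ++ E) (by simp [hE]) d).1 h.valid
  have h2 := (validC_iff T hT0 d).1 hT.valid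
  rw [validC_iff E hE d]
  rw [List.isChain_append, getLastD_append_of_ne hE d d, headD_append_of_ne hT0 d d] at h1
  refine ⟨h1.1.2.1, ?_⟩
  have h3 : (T.getLastD d).v = (E.headD d).u := by
    refine h1.1.2.2 _ ?_ _ ?_
    · rcases T.eq_nil_or_concat with rfl | ⟨l', x, rfl⟩
      · exact absurd rfl hT0
      · simp
    · cases E with
      | nil => exact absurd rfl hE
      | cons e E => simp
  rw [h1.2, ← h2.2, h3]

include hδ hlab hρ hΛ in
/-- removal of a backtrack -/
theorem NW_backtrack (a b : V) (z : X) (E : List (Dart V X)) (hE : E ≠ [])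
    (hw : Walk C (⟨a, b, z⟩ :: ⟨b, a, z⟩ :: E)) (hlen : plen (zs (⟨a, b, z⟩ :: ⟨b, a, z⟩ :: E)) ≤ Lw) :
    NW C lab (⟨a, b, z⟩ :: ⟨b, a, z⟩ :: E) = NW C lab E := by
  set w : List (Dart V X) := ⟨a, b, z⟩ :: ⟨b, a, z⟩ :: E with hwdef
  have hmap : (List.finRange w.length).map w.get = [⟨a, b, z⟩, ⟨b, a, z⟩] ++ E := by simp [hwdef]
  have hadm : ∀ i, Adm C (w.get i) := fun i => hw.adm _ (w.get_mem i)
  have hval0 := valid_get C w hw
  have hNW : NW C lab w = nuC (JS C w.get fun i => ((i : ℕ) : ℤ) + 1)
        (fun B => lab (dec w.get B)) (p - 1) (List.finRange w.length) := rfl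
  have hdec0 := dec_get w
  obtain ⟨D, hD⟩ : ∃ D : Fin w.length → Dart V X, D = w.get := ⟨_, rfl⟩
  rw [← hD] at hmap hadm hval0 hNW hdec0
  obtain ⟨T, W, hTW, hT, hWE⟩ := List.map_eq_append_iff.1 hmap
  obtain ⟨t₁, T', rfl, ht₁, hT'⟩ := List.map_eq_cons_iff.1 hT
  obtain ⟨t₂, T'', rfl, ht₂, hT''⟩ := List.map_eq_cons_iff.1 hT'
  rw [List.map_eq_nil_iff] at hT''
  subst hT''
  have hab : a ≠ b := (hw.adm ⟨a, b, z⟩ (by simp [hwdef])).ne
  have hnd : ([t₁, t₂] ++ W).Nodup := by rw [← hTW]; exact List.nodup_finRange _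
  have hnd' : (W ++ [t₁, t₂]).Nodup := by rw [List.nodup_append_comm]; exact hnd
  have hval : ValidC (adjS D) ([t₁, t₂] ++ W) := by rw [← hTW]; exact hval0
  have hval' := validC_rot hval
  cases W with
  | nil => exact absurd hWE.symm hE
  | cons b₀ W =>
    have e0 : NW C lab w = nuC (JS C D fun i => ((i : ℕ) : ℤ) + 1)
        (fun B => lab (dec D B)) (p - 1) ([t₁, t₂] ++ b₀ :: W) := by
      rw [hNW, hTW]
    have hTv : ValidC (adjS D) [t₁, t₂] := by
      show List.IsChain (adjS D) [t₁, t₂, t₁]
      simp [adjS, ht₁, ht₂]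
    have h12 : t₁ ≠ t₂ := by
      intro h; rw [h, ht₂] at ht₁; simp at ht₁; exact hab ht₁.1.symm
    have hdecW : dec D (b₀ :: (W ++ [t₁, t₂])) = zs (E ++ [⟨a, b, z⟩, ⟨b, a, z⟩]) := by
      rw [dec_eq_zs, ← List.cons_append, List.map_append, hWE]; simp [ht₁, ht₂]
    have hlen' : plen (dec D (b₀ :: (W ++ [t₁, t₂]))) ≤ Lw := by
      rw [hdecW, plen_zs_rot]; exact hlen
    have e1 := nuC_insert C hδ hlab hρ hΛ D hadm (fun i => ((i : ℕ) : ℤ) + 1) pos_succ
      inj_succ t₁ [t₂] hTv z (by simp [dec, ht₁, ht₂, List.replicate]) ?_ b₀ W hnd' hval' hlen'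
    · have hwE : Walk C E := by
        refine Walk.drop (T := [⟨a, b, z⟩, ⟨b, a, z⟩]) hw ⟨?_, fun d hd => hw.adm d ?_⟩
        · show List.IsChain _ [_, _, _]
          simp
        · simp only [List.mem_cons, List.not_mem_nil, or_false] at hd
          rcases hd with rfl | rfl <;> simp [hwdef]
      have e2 := nuC_eq_NW C hδ hlab hρ.le hΛ D (fun i => ((i : ℕ) : ℤ) + 1) (b₀ :: W)
        (by
          refine hnd'.sublist ?_
          exact List.sublist_append_left (b₀ :: W) _)
        (fun i _ => pos_succ i) (fun i _ j _ h => inj_succ h) (by rw [hWE]; exact hwE) (by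
          rw [hWE]
          refine le_trans ?_ hlen
          have : zs w = zs [⟨a, b, z⟩, ⟨b, a, z⟩] ++ zs E := by rw [← zs_append]; rfl
          rw [this]; exact plen_le_append _ _)
      rw [e0, nuC_JS_rot C hlab D _ pos_succ inj_succ [t₁, t₂] (b₀ :: W) hnd,
        List.cons_append, e1, e2, hWE]
    · intro T₁ T₂ s s' h c d hc hd
      have hb1 : ∀ c, c ≠ t₁ → (D c).v = b → ((t₁ : ℕ) : ℤ) + 1 < ((c : ℕ) : ℤ) + 1 := by
        intro c hc hcv
        rcases mem_append_finRange hTW c with h | h
        · simp only [List.mem_cons, List.not_mem_nil, or_false] at h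
          rcases h with h | h
          · exact absurd h hc
          · rw [h, ht₂] at hcv; exact absurd hcv hab
        · exact lt_append_finRange hTW (by simp) h
      have hb2 : ∀ c, c ≠ t₂ → (D c).u = b → ((t₂ : ℕ) : ℤ) + 1 < ((c : ℕ) : ℤ) + 1 := by
        intro c hc hcv
        rcases mem_append_finRange hTW c with h | h
        · simp only [List.mem_cons, List.not_mem_nil, or_false] at h
          rcases h with h | h
          · rw [h, ht₁] at hcv; exact absurd hcv hab
          · exact absurd h hc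
        · exact lt_append_finRange hTW (by simp) h
      have ha1 : ∀ c, c ≠ t₂ → (D c).v = a → ((t₂ : ℕ) : ℤ) + 1 < ((c : ℕ) : ℤ) + 1 := by
        intro c hc hcv
        rcases mem_append_finRange hTW c with h | h
        · simp only [List.mem_cons, List.not_mem_nil, or_false] at h
          rcases h with h | h
          · rw [h, ht₁] at hcv; exact absurd hcv.symm hab
          · exact absurd h hc
        · exact lt_append_finRange hTW (by simp) h
      have ha2 : ∀ c, c ≠ t₁ → (D c).u = a → ((t₁ : ℕ) : ℤ) + 1 < ((c : ℕ) : ℤ) + 1 := by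
        intro c hc hcv
        rcases mem_append_finRange hTW c with h | h
        · simp only [List.mem_cons, List.not_mem_nil, or_false] at h
          rcases h with h | h
          · exact absurd h hc
          · rw [h, ht₂] at hcv; exact absurd hcv.symm hab
        · exact lt_append_finRange hTW (by simp) h
      cases T₁ with
      | nil =>
        simp only [List.cons_append, List.nil_append, List.cons.injEq] at h
        obtain ⟨rfl, rfl, _⟩ := h
        exact gap_backtrack C D _ pos_succ t₁ t₂ (by rw [ht₁, ht₂]) (by rw [ht₁, ht₂])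
          (fun c hc hv => hb1 c hc (by rw [hv, ht₁])) (fun c hc hv => hb2 c hc (by rw [hv, ht₁]))
          c d hc hd
      | cons x T₁ =>
        cases T₁ with
        | nil =>
          simp only [List.cons_append, List.nil_append, List.cons.injEq] at h
          obtain ⟨rfl, rfl, rfl, _⟩ := h
          exact gap_backtrack C D _ pos_succ t₂ t₁ (by rw [ht₁, ht₂]) (by rw [ht₁, ht₂])
            (fun c hc hv => ha1 c hc (by rw [hv, ht₂])) (fun c hc hv => ha2 c hc (by rw [hv, ht₂]))
            c d hc hd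
        | cons x' T₁ =>
          exfalso
          have := congrArg List.length h
          simp at this
          omega

include hδ hlab hρ hΛ in
/-- removal of a face -/
theorem NW_face (a b c : V) (z : X) (hF : C.Face a b c) (hac : a ≠ c) (E : List (Dart V X))
    (hE : E ≠ []) (hw : Walk C (E ++ [⟨a, b, z⟩, ⟨b, c, z⟩, ⟨c, a, z⟩]))
    (hlen : plen (zs (E ++ [⟨a, b, z⟩, ⟨b, c, z⟩, ⟨c, a, z⟩])) ≤ Lw) :
    NW C lab (E ++ [⟨a, b, z⟩, ⟨b, c, z⟩, ⟨c, a, z⟩]) = NW C lab E := by
  set w : List (Dart V X) := E ++ [⟨a, b, z⟩, ⟨b, c, z⟩, ⟨c, a, z⟩] with hwdef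
  have hmap : (List.finRange w.length).map w.get = E ++ [⟨a, b, z⟩, ⟨b, c, z⟩, ⟨c, a, z⟩] := by
    simp [← hwdef]
  have hadm : ∀ i, Adm C (w.get i) := fun i => hw.adm _ (w.get_mem i)
  have hval0 := valid_get C w hw
  have hNW : NW C lab w = nuC (JS C w.get fun i => ((i : ℕ) : ℤ) + 1)
        (fun B => lab (dec w.get B)) (p - 1) (List.finRange w.length) := rfl
  have hdec0 := dec_get w
  obtain ⟨D, hD⟩ : ∃ D : Fin w.length → Dart V X, D = w.get := ⟨_, rfl⟩
  rw [← hD] at hmap hadm hval0 hNW hdec0
  obtain ⟨W, T, hTW, hWE, hT⟩ := List.map_eq_append_iff.1 hmap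
  obtain ⟨t₁, T', rfl, ht₁, hT'⟩ := List.map_eq_cons_iff.1 hT
  obtain ⟨t₂, T'', rfl, ht₂, hT''⟩ := List.map_eq_cons_iff.1 hT'
  obtain ⟨t₃, T''', rfl, ht₃, hT'''⟩ := List.map_eq_cons_iff.1 hT''
  rw [List.map_eq_nil_iff] at hT'''
  subst hT'''
  have hab : a ≠ b := (hw.adm ⟨a, b, z⟩ (by simp [hwdef])).ne
  have hbc : b ≠ c := (hw.adm ⟨b, c, z⟩ (by simp [hwdef])).ne
  have hnd : (W ++ [t₁, t₂, t₃]).Nodup := by rw [← hTW]; exact List.nodup_finRange _
  have hval : ValidC (adjS D) (W ++ [t₁, t₂, t₃]) := by rw [← hTW]; exact hval0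
  cases W with
  | nil => exact absurd hWE.symm hE
  | cons b₀ W =>
    have e0 : NW C lab w = nuC (JS C D fun i => ((i : ℕ) : ℤ) + 1)
        (fun B => lab (dec D B)) (p - 1) (b₀ :: (W ++ [t₁, t₂, t₃])) := by
      rw [hNW, hTW]; rfl
    have hTv : ValidC (adjS D) [t₁, t₂, t₃] := by
      show List.IsChain (adjS D) [t₁, t₂, t₃, t₁]
      simp [adjS, ht₁, ht₂, ht₃]
    have hdecW : dec D (b₀ :: (W ++ [t₁, t₂, t₃])) = zs w := by
      rw [← hdec0, hTW]; rfl
    have e1 := nuC_insert C hδ hlab hρ hΛ D hadm (fun i => ((i : ℕ) : ℤ) + 1) pos_succ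
      inj_succ t₁ [t₂, t₃] hTv z (by simp [dec, ht₁, ht₂, ht₃, List.replicate]) ?_ b₀ W hnd hval
      (by rw [hdecW]; exact hlen)
    · have hwE : Walk C E := by
        refine Walk.drop (T := [⟨a, b, z⟩, ⟨b, c, z⟩, ⟨c, a, z⟩]) hw.rot
          ⟨?_, fun d hd => hw.adm d ?_⟩
        · show List.IsChain _ [_, _, _, _]
          simp
        · rw [hwdef, List.mem_append]; exact Or.inr hd
      have e2 := nuC_eq_NW C hδ hlab hρ.le hΛ D (fun i => ((i : ℕ) : ℤ) + 1) (b₀ :: W)
        (by
          refine hnd.sublist ?_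
          exact List.sublist_append_left (b₀ :: W) _)
        (fun i _ => pos_succ i) (fun i _ j _ h => inj_succ h) (by rw [hWE]; exact hwE) (by
          rw [hWE]
          refine le_trans ?_ hlen
          rw [hwdef, plen_zs_rot, zs_append]; exact plen_le_append _ _)
      rw [e0, e1, e2, hWE]
    · intro T₁ T₂ s s' h c' d hc hd
      have key : ∀ t ∈ [t₁, t₂, t₃], ∀ c', (∀ t' ∈ [t₁, t₂, t₃], (D t').v = (D t).v → t' = t) →
          c' ≠ t → (D c').v = (D t).v → ((c' : ℕ) : ℤ) + 1 < ((t : ℕ) : ℤ) + 1 := by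
        intro t ht c' hu hct hcv
        rcases mem_append_finRange hTW c' with h | h
        · exact lt_append_finRange hTW h ht
        · exact absurd (hu c' h hcv) hct
      have key' : ∀ t ∈ [t₁, t₂, t₃], ∀ c', (∀ t' ∈ [t₁, t₂, t₃], (D t').u = (D t).u → t' = t) →
          c' ≠ t → (D c').u = (D t).u → ((c' : ℕ) : ℤ) + 1 < ((t : ℕ) : ℤ) + 1 := by
        intro t ht c' hu hct hcv
        rcases mem_append_finRange hTW c' with h | h
        · exact lt_append_finRange hTW h ht
        · exact absurd (hu c' h hcv) hct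
      have uv1 : ∀ t' ∈ [t₁, t₂, t₃], (D t').v = (D t₁).v → t' = t₁ := by
        intro t' ht' hh
        simp only [List.mem_cons, List.not_mem_nil, or_false] at ht'
        rcases ht' with rfl | rfl | rfl
        · rfl
        · rw [ht₁, ht₂] at hh; exact absurd hh hbc.symm
        · rw [ht₁, ht₃] at hh; exact absurd hh hab
      have uv2 : ∀ t' ∈ [t₁, t₂, t₃], (D t').v = (D t₂).v → t' = t₂ := by
        intro t' ht' hh
        simp only [List.mem_cons, List.not_mem_nil, or_false] at ht'
        rcases ht' with rfl | rfl | rfl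
        · rw [ht₁, ht₂] at hh; exact absurd hh hbc
        · rfl
        · rw [ht₂, ht₃] at hh; exact absurd hh hac
      have uv3 : ∀ t' ∈ [t₁, t₂, t₃], (D t').v = (D t₃).v → t' = t₃ := by
        intro t' ht' hh
        simp only [List.mem_cons, List.not_mem_nil, or_false] at ht'
        rcases ht' with rfl | rfl | rfl
        · rw [ht₁, ht₃] at hh; exact absurd hh hab.symm
        · rw [ht₂, ht₃] at hh; exact absurd hh hac.symm
        · rfl
      have uu1 : ∀ t' ∈ [t₁, t₂, t₃], (D t').u = (D t₁).u → t' = t₁ := by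
        intro t' ht' hh
        simp only [List.mem_cons, List.not_mem_nil, or_false] at ht'
        rcases ht' with rfl | rfl | rfl
        · rfl
        · rw [ht₁, ht₂] at hh; exact absurd hh hab.symm
        · rw [ht₁, ht₃] at hh; exact absurd hh hac.symm
      have uu2 : ∀ t' ∈ [t₁, t₂, t₃], (D t').u = (D t₂).u → t' = t₂ := by
        intro t' ht' hh
        simp only [List.mem_cons, List.not_mem_nil, or_false] at ht'
        rcases ht' with rfl | rfl | rfl
        · rw [ht₁, ht₂] at hh; exact absurd hh hab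
        · rfl
        · rw [ht₂, ht₃] at hh; exact absurd hh hbc.symm
      have uu3 : ∀ t' ∈ [t₁, t₂, t₃], (D t').u = (D t₃).u → t' = t₃ := by
        intro t' ht' hh
        simp only [List.mem_cons, List.not_mem_nil, or_false] at ht'
        rcases ht' with rfl | rfl | rfl
        · rw [ht₁, ht₃] at hh; exact absurd hh hac
        · rw [ht₂, ht₃] at hh; exact absurd hh hbc
        · rfl
      cases T₁ with
      | nil =>
        simp only [List.cons_append, List.nil_append, List.cons.injEq] at h
        obtain ⟨rfl, rfl, _⟩ := h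
        exact gap_face C D hadm _ pos_succ t₁ t₂ (by rw [ht₁, ht₂]) (by rw [ht₁, ht₂]; exact hF)
          (fun c hc hv => key t₁ (by simp) c uv1 hc hv)
          (fun c hc hv => key' t₂ (by simp) c uu2 hc (by rw [hv, ht₁, ht₂]))
          c' d hc hd
      | cons x T₁ =>
        cases T₁ with
        | nil =>
          simp only [List.cons_append, List.nil_append, List.cons.injEq] at h
          obtain ⟨rfl, rfl, rfl, _⟩ := h
          exact gap_face C D hadm _ pos_succ t₂ t₃ (by rw [ht₂, ht₃])
            (by rw [ht₂, ht₃]; exact C.face_rot _ _ _ hF)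
            (fun c hc hv => key t₂ (by simp) c uv2 hc hv)
            (fun c hc hv => key' t₃ (by simp) c uu3 hc (by rw [hv, ht₂, ht₃]))
            c' d hc hd
        | cons x' T₁ =>
          cases T₁ with
          | nil =>
            simp only [List.cons_append, List.nil_append, List.cons.injEq] at h
            obtain ⟨rfl, rfl, rfl, rfl, _⟩ := h
            exact gap_face C D hadm _ pos_succ t₃ t₁ (by rw [ht₁, ht₃])
              (by rw [ht₁, ht₃]; exact C.face_rot _ _ _ (C.face_rot _ _ _ hF))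
              (fun c hc hv => key t₃ (by simp) c uv3 hc hv)
              (fun c hc hv => key' t₁ (by simp) c uu1 hc (by rw [hv, ht₁, ht₃]))
              c' d hc hd
          | cons x'' T₁ =>
            exfalso
            have := congrArg List.length h
            simp at this
            omega

end moves

end Pool.Agent.Helper21.Cut
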