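import Pool.Agent.Helper21.Cut.WalkMoves

/-!
# Closed paths of sample points with chosen sets of the cover (MP_86dbc7_gt)
-/

namespace Pool.Agent.Helper21.Cut

section walks

variable {V X : Type*} [PseudoMetricSpace X] {δ : ℝ}

/-- the walk from `a` through the vertices of `Q`, the step to the vertex `b` of the item `(z, b)`
being decorated by `z` -/
noncomputable def stepsFrom : V → List (X × V) → List (Dart V X)
  | _, [] => []
  | a, q :: Q => step a q.2 q.1 ++ stepsFrom q.2 Q

/-- the last vertex -/
def endv : V → List (X × V) → V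
  | a, [] => a
  | _, q :: Q => endv q.2 Q

/-- the decorations are in the right sets -/
def OkFrom (C : Cover V X δ) : V → List (X × V) → Prop
  | _, [] => True
  | a, q :: Q => q.1 ∈ C.U a ∧ q.1 ∈ C.U q.2 ∧ OkFrom C q.2 Q

theorem stepsFrom_append (a : V) (Q Q' : List (X × V)) :
    stepsFrom a (Q ++ Q') = stepsFrom a Q ++ stepsFrom (endv a Q) Q' := by
  induction Q generalizing a with
  | nil => rfl
  | cons q Q ih => simp only [List.cons_append, stepsFrom, endv, ih, List.append_assoc]

theorem endv_append (a : V) (Q Q' : List (X × V)) :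
    endv a (Q ++ Q') = endv (endv a Q) Q' := by
  induction Q generalizing a with
  | nil => rfl
  | cons q Q ih => simp only [List.cons_append, endv, ih]

theorem OkFrom_append {C : Cover V X δ} (a : V) (Q Q' : List (X × V)) :
    OkFrom C a (Q ++ Q') ↔ OkFrom C a Q ∧ OkFrom C (endv a Q) Q' := by
  induction Q generalizing a with
  | nil => simp [OkFrom, endv]
  | cons q Q ih => simp only [List.cons_append, OkFrom, endv, ih, and_assoc]

theorem OkFrom.ow {C : Cover V X δ} {a : V} {Q : List (X × V)} (h : OkFrom C a Q) :
    OW C a (stepsFrom a Q) (endv a Q) := by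
  induction Q generalizing a with
  | nil => rfl
  | cons q Q ih => exact (step_OW h.1 h.2.1).append (ih h.2.2)

theorem zs_stepsFrom_sublist (a : V) (Q : List (X × V)) :
    (zs (stepsFrom a Q)).Sublist (Q.map Prod.fst) := by
  induction Q generalizing a with
  | nil => simp [stepsFrom, zs]
  | cons q Q ih =>
    simp only [stepsFrom, zs_append, List.map_cons]
    exact (zs_step_sublist a q.2 q.1).append (ih q.2)

variable {p : ℕ} [Fact p.Prime] (C : Cover V X δ) (hδ : 0 ≤ δ) {ρ Λ Lw : ℝ}
    {lab : List X → ZMod p} (hlab : LabOK δ ρ Λ lab) (hρ : 4 * δ < ρ) (hΛ : Lw - ρ + 8 * δ < Λ)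

include hδ hlab hρ hΛ in
theorem path_rot (a : V) (q : X × V) (Q : List (X × V)) (hok : OkFrom C a (q :: Q))
    (hend : endv a (q :: Q) = a) (hlen : plen ((q :: Q).map Prod.fst) ≤ Lw) :
    NW C lab (stepsFrom a (q :: Q)) = NW C lab (stepsFrom q.2 (Q ++ [q])) := by
  have h := OkFrom.ow hok
  rw [hend] at h
  have e : stepsFrom q.2 (Q ++ [q]) = stepsFrom q.2 Q ++ step a q.2 q.1 := by
    rw [stepsFrom_append]
    have : endv q.2 Q = a := hend
    rw [this]
    simp [stepsFrom]
  rw [e]
  exact NW_rot C hδ hlab hρ.le hΛ (step a q.2 q.1) (stepsFrom q.2 Q) h.walk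
    ((plen_le_of_sublist (zs_stepsFrom_sublist a (q :: Q))).trans hlen)

include hδ hlab hρ hΛ in
/-- change of one vertex -/
theorem path_change (a b b' c : V) (x y : X) (Q : List (X × V)) (hxa : x ∈ C.U a)
    (hxb : x ∈ C.U b) (hxb' : x ∈ C.U b') (hyb : y ∈ C.U b) (hyb' : y ∈ C.U b') (hyc : y ∈ C.U c)
    (hok : OkFrom C c Q) (hend : endv c Q = a) (hlen : plen (x :: y :: Q.map Prod.fst) ≤ Lw) :
    NW C lab (stepsFrom a ((x, b) :: (y, c) :: Q)) =
      NW C lab (stepsFrom a ((x, b') :: (y, c) :: Q)) := by
  set F := stepsFrom c Q with hFdef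
  have hF : OW C c F a := by
    have := OkFrom.ow hok
    rwa [hend] at this
  have hFs : (zs F).Sublist (Q.map Prod.fst) := zs_stepsFrom_sublist c Q
  have sax := zs_step_sublist (X := X) a b' x
  have sbc := zs_step_sublist (X := X) b c y
  have sb'c := zs_step_sublist (X := X) b' c y
  -- lengths
  have l1 : plen (x :: zs (step b c y ++ F)) ≤ Lw := by
    refine (plen_le_of_sublist ?_).trans hlen
    rw [zs_append]
    exact (sbc.append hFs).cons_cons x
  have lx : plen (x :: (zs (step b c y ++ F) ++ zs (step a b' x))) ≤ Lw := by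
    have h1 : plen (x :: (zs (step b c y ++ F) ++ zs (step a b' x))) ≤
        plen (x :: (zs (step b c y ++ F) ++ [x])) := by
      refine plen_le_of_sublist ?_
      exact ((List.Sublist.refl _).append sax).cons_cons x
    have h2 : plen (x :: (zs (step b c y ++ F) ++ [x])) = plen (x :: zs (step b c y ++ F)) := by
      have := plen_rot (x :: zs (step b c y ++ F)) [x]
      simp only [List.cons_append, List.nil_append] at this
      rw [this, plen_dup]
    rw [h2] at h1
    exact h1.trans l1
  have ly : plen (y :: (zs (step b c y ++ F) ++ zs (step a b' x))) ≤ Lw := by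
    have h1 : plen (y :: (zs (step b c y ++ F) ++ zs (step a b' x))) ≤
        plen (y :: y :: (Q.map Prod.fst ++ [x])) := by
      refine plen_le_of_sublist ?_
      rw [zs_append, List.append_assoc]
      exact ((sbc.append (hFs.append sax))).cons_cons y
    have h2 : plen (y :: y :: (Q.map Prod.fst ++ [x])) = plen (x :: y :: Q.map Prod.fst) := by
      rw [plen_dup]
      have := plen_rot (y :: Q.map Prod.fst) [x]
      simpa using this
    rw [h2] at h1
    exact h1.trans hlen
  have ly2 : plen (y :: zs (F ++ step a b' x)) ≤ Lw := by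
    refine (plen_le_of_sublist ?_).trans ly
    rw [zs_append, zs_append, List.append_assoc]
    exact (List.sublist_append_right _ _).cons_cons y
  -- the open walks
  have oab' : OW C a (step a b' x) b' := step_OW hxa hxb'
  have ob'bx : OW C b' (step b' b x) b := step_OW hxb' hxb
  have ob'by : OW C b' (step b' b y) b := step_OW hyb' hyb
  have obc : OW C b (step b c y) c := step_OW hyb hyc
  have ob'c : OW C b' (step b' c y) c := step_OW hyb' hyc
  -- (1) insertion of `b'`
  have e1 := NW_R1 C hδ hlab hρ hΛ a b' b x hxa hxb' hxb (step b c y ++ F) (obc.append hF) l1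
  -- rotation
  have e2 : NW C lab (step a b' x ++ (step b' b x ++ (step b c y ++ F))) =
      NW C lab (step b' b x ++ ((step b c y ++ F) ++ step a b' x)) := by
    rw [NW_rot C hδ hlab hρ.le hΛ]
    · simp only [List.append_assoc]
    · exact (oab'.append (ob'bx.append (obc.append hF))).walk
    · rw [plen_zs_rot]
      have h1 : plen (zs ((step b' b x ++ (step b c y ++ F)) ++ step a b' x)) ≤
          plen (x :: (zs (step b c y ++ F) ++ zs (step a b' x))) := by
        refine plen_le_of_sublist ?_
        rw [zs_append, zs_append, List.append_assoc]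
        exact (zs_step_sublist b' b x).append (List.Sublist.refl _)
      exact h1.trans lx
  -- (2) change of the decoration
  have e3 := NW_R2 C hδ hlab hρ hΛ b' b x y hxb' hxb hyb' hyb ((step b c y ++ F) ++ step a b' x)
    ((obc.append hF).append oab') (by rw [zs_append]; exact lx) (by rw [zs_append]; exact ly)
  -- (3) removal of `b`
  have e4 := NW_R1 C hδ hlab hρ hΛ b' b c y hyb' hyb hyc (F ++ step a b' x) (hF.append oab') ly2
  have e5 : step b' b y ++ ((step b c y ++ F) ++ step a b' x) =
      step b' b y ++ (step b c y ++ (F ++ step a b' x)) := by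
    simp only [List.append_assoc]
  -- rotation
  have e6 : NW C lab (step a b' x ++ (step b' c y ++ F)) =
      NW C lab (step b' c y ++ (F ++ step a b' x)) := by
    rw [NW_rot C hδ hlab hρ.le hΛ]
    · simp only [List.append_assoc]
    · exact (oab'.append (ob'c.append hF)).walk
    · refine (plen_le_of_sublist ?_).trans hlen
      rw [zs_append, zs_append]
      exact sax.append (sb'c.append hFs)
  show NW C lab (step a b x ++ (step b c y ++ F)) = NW C lab (step a b' x ++ (step b' c y ++ F))
  rw [← e1, e2, e3, e5, e4, e6]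

/-! ### periodic families -/

/-- the invariant of a periodic family of sample points with chosen vertices, read from `i` -/
noncomputable def NR (C : Cover V X δ) (lab : List X → ZMod p) (m : ℕ) (z : ℕ → X) (v : ℕ → V)
    (i : ℕ) : ZMod p :=
  NW C lab (stepsFrom (v (i + m - 1)) ((List.range m).map fun j => (z (i + j), v (i + j))))

/-- admissible choice of the vertices -/
structure Choice (C : Cover V X δ) (m : ℕ) (z : ℕ → X) (v : ℕ → V) : Prop where
  perz : ∀ i, z (i + m) = z i
  perv : ∀ i, v (i + m) = v i
  left : ∀ i, z i ∈ C.U (v i)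
  right : ∀ i, z (i + 1) ∈ C.U (v i)

theorem path_endv (a : V) (k : ℕ) (z : ℕ → X) (v : ℕ → V) (i : ℕ) :
    endv a ((List.range (k + 1)).map fun j => (z (i + j), v (i + j))) = v (i + k) := by
  rw [List.range_succ, List.map_append, endv_append]
  simp [endv]

theorem path_ok {C : Cover V X δ} {m : ℕ} {z : ℕ → X} {v : ℕ → V} (h : Choice C m z v) (a : V)
    (i : ℕ) (ha : z i ∈ C.U a) (k : ℕ) :
    OkFrom C a ((List.range k).map fun j => (z (i + j), v (i + j))) := by
  induction k with
  | zero => trivial
  | succ k ih =>
    rw [List.range_succ, List.map_append, OkFrom_append]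
    refine ⟨ih, ?_⟩
    cases k with
    | zero => exact ⟨ha, h.left _, trivial⟩
    | succ k =>
      rw [path_endv]
      exact ⟨h.right _, h.left _, trivial⟩

theorem path_fst (k : ℕ) (z : ℕ → X) (v : ℕ → V) (i : ℕ) :
    ((List.range k).map fun j => (z (i + j), v (i + j))).map Prod.fst =
      (List.range k).map fun j => z (i + j) := by
  simp

theorem plen_shift (m : ℕ) (z : ℕ → X) (hper : ∀ i, z (i + m) = z i) (i : ℕ) :
    plen ((List.range m).map fun j => z (i + j)) = plen ((List.range m).map z) := by
  induction i with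
  | zero => simp
  | succ i ih =>
    rw [← ih]
    cases m with
    | zero => simp
    | succ m =>
      have e1 : (List.range (m + 1)).map (fun j => z (i + j)) =
          [z i] ++ (List.range m).map (fun j => z (i + 1 + j)) := by
        rw [List.range_succ_eq_map]
        simp only [List.map_cons, List.map_map, List.singleton_append, add_zero]
        congr 1
        refine List.map_congr_left fun j _ => ?_
        simp only [Function.comp]
        congr 1; omega
      have e2 : (List.range (m + 1)).map (fun j => z (i + 1 + j)) =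
          (List.range m).map (fun j => z (i + 1 + j)) ++ [z i] := by
        rw [List.range_succ, List.map_append]
        congr 1
        simp only [List.map_cons, List.map_nil]
        rw [← hper i]
        congr 2; omega
      rw [e1, e2, plen_rot]

include hδ hlab hρ hΛ in
theorem NR_succ {m : ℕ} (hm : 0 < m) {z : ℕ → X} {v : ℕ → V} (h : Choice C m z v)
    (hlen : plen ((List.range m).map z) ≤ Lw) (i : ℕ) :
    NR C lab m z v i = NR C lab m z v (i + 1) := by
  obtain ⟨m, rfl⟩ : ∃ k, m = k + 1 := ⟨m - 1, by omega⟩
  unfold NR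
  have e1 : (List.range (m + 1)).map (fun j => (z (i + j), v (i + j))) =
      (z i, v i) :: (List.range m).map (fun j => (z (i + 1 + j), v (i + 1 + j))) := by
    rw [List.range_succ_eq_map]
    simp only [List.map_cons, List.map_map, add_zero]
    congr 1
    refine List.map_congr_left fun j _ => ?_
    simp only [Function.comp]
    rw [show i + (j + 1) = i + 1 + j by omega]
  have e2 : (List.range (m + 1)).map (fun j => (z (i + 1 + j), v (i + 1 + j))) =
      (List.range m).map (fun j => (z (i + 1 + j), v (i + 1 + j))) ++ [(z i, v i)] := by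
    rw [List.range_succ, List.map_append]
    congr 1
    simp only [List.map_cons, List.map_nil]
    rw [← h.perz i, ← h.perv i]
    rw [show i + 1 + m = i + (m + 1) by omega]
  have e3 : v (i + 1 + (m + 1) - 1) = v i := by
    rw [← h.perv i]; congr 1; omega
  have e4 : i + (m + 1) - 1 = i + m := by omega
  have hok := path_ok h (v (i + (m + 1) - 1)) i (by
    rw [e4, ← h.perz i]
    exact h.right (i + m)) (m + 1)
  have hend : endv (v (i + (m + 1) - 1))
      ((List.range (m + 1)).map fun j => (z (i + j), v (i + j))) = v (i + (m + 1) - 1) := by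
    rw [path_endv, e4]
  have hl : plen (((List.range (m + 1)).map fun j => (z (i + j), v (i + j))).map Prod.fst) ≤ Lw := by
    rw [path_fst, plen_shift (m + 1) z h.perz]; exact hlen
  rw [e3, e2]
  rw [e1] at hok hend hl ⊢
  exact path_rot C hδ hlab hρ hΛ _ _ _ hok hend hl

include hδ hlab hρ hΛ in
theorem NR_zero {m : ℕ} (hm : 0 < m) {z : ℕ → X} {v : ℕ → V} (h : Choice C m z v)
    (hlen : plen ((List.range m).map z) ≤ Lw) (i : ℕ) :
    NR C lab m z v i = NR C lab m z v 0 := by
  induction i with
  | zero => rfl
  | succ i ih => rw [← NR_succ C hδ hlab hρ hΛ hm h hlen i, ih]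

include hδ hlab hρ hΛ in
/-- change of the vertex number `k` (mod `m`) -/
theorem NR_change {m : ℕ} (hm : 2 ≤ m) {z : ℕ → X} {v w : ℕ → V} (hv : Choice C m z v)
    (hw : Choice C m z w) (hlen : plen ((List.range m).map z) ≤ Lw) (k : ℕ)
    (hk : ∀ i, i % m ≠ k % m → v i = w i) :
    NR C lab m z v 0 = NR C lab m z w 0 := by
  rw [← NR_zero C hδ hlab hρ hΛ (by omega) hv hlen k, ← NR_zero C hδ hlab hρ hΛ (by omega) hw hlen k]
  obtain ⟨m, rfl⟩ : ∃ l, m = l + 2 := ⟨m - 2, by omega⟩
  unfold NR
  have e1 : ∀ v : ℕ → V, (List.range (m + 2)).map (fun j => (z (k + j), v (k + j))) =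
      (z k, v k) :: (z (k + 1), v (k + 1)) ::
        (List.range m).map (fun j => (z (k + 2 + j), v (k + 2 + j))) := by
    intro v
    rw [List.range_succ_eq_map, List.range_succ_eq_map]
    simp only [List.map_cons, List.map_map, add_zero, zero_add]
    congr 2
    refine List.map_congr_left fun j _ => ?_
    simp only [Function.comp]
    rw [show k + (j + 1 + 1) = k + 2 + j by omega]
  have hne : ∀ j, 0 < j → j < m + 2 → (k + j) % (m + 2) ≠ k % (m + 2) := by
    intro j hj hj2 h
    have h2 : (k + j) ≡ (k + 0) [MOD (m + 2)] := by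
      show (k + j) % (m + 2) = (k + 0) % (m + 2)
      rw [add_zero]; exact h
    have h3 := Nat.ModEq.add_left_cancel' k h2
    have : j % (m + 2) = 0 := h3
    rw [Nat.mod_eq_of_lt hj2] at this
    omega
  have e2 : v (k + (m + 2) - 1) = w (k + (m + 2) - 1) := by
    rw [show k + (m + 2) - 1 = k + (m + 1) by omega]
    exact hk _ (hne _ (by omega) (by omega))
  have e3 : v (k + 1) = w (k + 1) := hk _ (hne 1 (by omega) (by omega))
  have e4 : (List.range m).map (fun j => (z (k + 2 + j), v (k + 2 + j))) =
      (List.range m).map (fun j => (z (k + 2 + j), w (k + 2 + j))) := by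
    refine List.map_congr_left fun j hj => ?_
    rw [List.mem_range] at hj
    rw [show k + 2 + j = k + (2 + j) by omega, hk _ (hne _ (by omega) (by omega))]
  have hzk : z k ∈ C.U (w (k + (m + 2) - 1)) := by
    have := hw.right (k + (m + 1))
    rw [show k + (m + 1) + 1 = k + (m + 2) by omega, hw.perz] at this
    rwa [show k + (m + 2) - 1 = k + (m + 1) by omega]
  rw [e1 v, e1 w, e2, e3, e4]
  refine path_change C hδ hlab hρ hΛ _ _ _ _ _ _ _ hzk (hv.left k) (hw.left k) (hv.right k)
    (hw.right k) (hw.left (k + 1)) ?_ ?_ ?_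
  · exact path_ok hw _ (k + 2) (hw.right (k + 1)) m
  · cases m with
    | zero => rfl
    | succ m =>
      rw [path_endv]
      congr 1; omega
  · have := plen_shift (m + 2) z hw.perz k
    have e5 : (List.range (m + 2)).map (fun j => z (k + j)) =
        z k :: z (k + 1) :: ((List.range m).map (fun j => (z (k + 2 + j), w (k + 2 + j)))).map
          Prod.fst := by
      have := congrArg (List.map Prod.fst) (e1 w)
      rw [path_fst] at this
      simpa using this
    rw [← e5, this]
    exact hlen

/-- mixture of two choices -/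
def mix {T : Type*} (m : ℕ) (v w : ℕ → T) (k : ℕ) (i : ℕ) : T := if i % m < k then w i else v i

include hδ hlab hρ hΛ in
/-- the invariant does not depend on the choice of the vertices -/
theorem NR_choice {m : ℕ} (hm : 2 ≤ m) {z : ℕ → X} {v w : ℕ → V} (hv : Choice C m z v)
    (hw : Choice C m z w) (hlen : plen ((List.range m).map z) ≤ Lw) :
    NR C lab m z v 0 = NR C lab m z w 0 := by
  have hmix : ∀ k, Choice C m z (mix m v w k) := by
    intro k
    refine ⟨hv.perz, fun i => ?_, fun i => ?_, fun i => ?_⟩
    · unfold mix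
      rw [Nat.add_mod_right, hv.perv, hw.perv]
    · unfold mix
      split
      · exact hw.left i
      · exact hv.left i
    · unfold mix
      split
      · exact hw.right i
      · exact hv.right i
  have key : ∀ k, NR C lab m z v 0 = NR C lab m z (mix m v w k) 0 := by
    intro k
    induction k with
    | zero =>
      have : mix m v w 0 = v := by funext i; simp [mix]
      rw [this]
    | succ k ih =>
      rw [ih]
      by_cases hkm : k < m
      · refine NR_change C hδ hlab hρ hΛ hm (hmix k) (hmix (k + 1)) hlen k ?_
        intro i hi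
        rw [Nat.mod_eq_of_lt hkm] at hi
        unfold mix
        by_cases h1 : i % m < k
        · rw [if_pos h1, if_pos (by omega)]
        · rw [if_neg h1, if_neg (by omega)]
      · congr 1
        funext i
        have : i % m < m := Nat.mod_lt _ (by omega)
        unfold mix
        rw [if_pos (by omega), if_pos (by omega)]
  rw [key m]
  congr 1
  funext i
  have : i % m < m := Nat.mod_lt _ (by omega)
  unfold mix
  rw [if_pos this]

include hδ hlab hρ hΛ in
/-- change of the sample point number `k` (mod `m`) -/
theorem NR_move {m : ℕ} (hm : 2 ≤ m) {z z' : ℕ → X} {v w : ℕ → V} (hv : Choice C m z v)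
    (hw : Choice C m z' w) (hlen : plen ((List.range m).map z) ≤ Lw)
    (hlen' : plen ((List.range m).map z') ≤ Lw) (k : ℕ)
    (hk : ∀ i, i % m ≠ k % m → z i = z' i)
    (u : V) (hu1 : z (k + m - 1) ∈ C.U u) (hu2 : z k ∈ C.U u) (hu3 : z' k ∈ C.U u)
    (hu4 : z (k + 1) ∈ C.U u) :
    NR C lab m z v 0 = NR C lab m z' w 0 := by
  -- a common choice
  set v' : ℕ → V := fun i => if i % m = k % m ∨ (i + 1) % m = k % m then u else v i with hv'def
  have hzmod : ∀ (z : ℕ → X), (∀ i, z (i + m) = z i) → ∀ i j, i % m = j % m → z i = z j := by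
    intro z hz i j hij
    have h1 : ∀ i, z i = z (i % m) := by
      intro i
      have h2 : ∀ n r, z (r + m * n) = z r := by
        intro n
        induction n with
        | zero => intro r; simp
        | succ n ih => intro r; rw [Nat.mul_succ, ← add_assoc, hz, ih]
      conv_lhs => rw [← Nat.mod_add_div i m]
      exact h2 _ _
    rw [h1 i, h1 j, hij]
  have hne1 : ∀ i, i % m = k % m → (i + 1) % m ≠ k % m := by
    intro i h1 h2
    have h3 : i + 1 ≡ i + 0 [MOD m] := by
      show (i + 1) % m = (i + 0) % m
      rw [h2, add_zero, h1]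
    have h4 := Nat.ModEq.add_left_cancel' i h3
    have : 1 % m = 0 := h4
    rw [Nat.mod_eq_of_lt (by omega)] at this
    omega
  have hmod_succ : ∀ i j, i % m = j % m ↔ (i + 1) % m = (j + 1) % m := by
    intro i j
    constructor
    · intro h
      exact Nat.ModEq.add_right 1 h
    · intro h
      exact Nat.ModEq.add_right_cancel' 1 h
  have hkm1 : (k + m - 1 + 1) % m = k % m := by
    rw [show k + m - 1 + 1 = k + m by omega, Nat.add_mod_right]
  have hv' : Choice C m z v' := by
    refine ⟨hv.perz, fun i => ?_, fun i => ?_, fun i => ?_⟩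
    · simp only [hv'def]
      rw [Nat.add_mod_right, show i + m + 1 = (i + 1) + m by omega, Nat.add_mod_right, hv.perv]
    · simp only [hv'def]
      split
      · next h =>
        rcases h with h | h
        · rw [hzmod z hv.perz i k h]; exact hu2
        · rw [hzmod z hv.perz i (k + m - 1) ((hmod_succ _ _).2 (by rw [h, hkm1]))]; exact hu1
      · exact hv.left i
    · simp only [hv'def]
      split
      · next h =>
        rcases h with h | h
        · rw [hzmod z hv.perz (i + 1) (k + 1) ((hmod_succ _ _).1 h)]; exact hu4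
        · rw [hzmod z hv.perz (i + 1) k h]; exact hu2
      · exact hv.right i
  have hk1 : z' (k + 1) = z (k + 1) := (hk _ (hne1 k rfl)).symm
  have hkm : z' (k + m - 1) = z (k + m - 1) := by
    refine (hk _ fun h => ?_).symm
    exact hne1 _ h hkm1
  have hv'' : Choice C m z' v' := by
    refine ⟨hw.perz, hv'.perv, fun i => ?_, fun i => ?_⟩
    · by_cases h : i % m = k % m
      · simp only [hv'def]
        rw [if_pos (Or.inl h), hzmod z' hw.perz i k h]; exact hu3
      · rw [← hk i h]; exact hv'.left i
    · by_cases h : (i + 1) % m = k % m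
      · simp only [hv'def]
        rw [if_pos (Or.inr h), hzmod z' hw.perz (i + 1) k h]; exact hu3
      · rw [← hk (i + 1) h]; exact hv'.right i
  rw [NR_choice C hδ hlab hρ hΛ hm hv hv' hlen, NR_choice C hδ hlab hρ hΛ hm hw hv'' hlen',
    ← NR_zero C hδ hlab hρ hΛ (by omega) hv' hlen k, ← NR_zero C hδ hlab hρ hΛ (by omega) hv'' hlen' k]
  unfold NR
  have hvk : v' k = u := by simp only [hv'def]; simp
  have hvk' : v' (k + m - 1) = u := by
    simp only [hv'def]; rw [if_pos (Or.inr hkm1)]
  obtain ⟨m, rfl⟩ : ∃ l, m = l + 1 := ⟨m - 1, by omega⟩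
  have e1 : ∀ z : ℕ → X, (List.range (m + 1)).map (fun j => (z (k + j), v' (k + j))) =
      (z k, v' k) :: (List.range m).map (fun j => (z (k + 1 + j), v' (k + 1 + j))) := by
    intro z
    rw [List.range_succ_eq_map]
    simp only [List.map_cons, List.map_map, add_zero]
    congr 1
    refine List.map_congr_left fun j _ => ?_
    simp only [Function.comp]
    rw [show k + (j + 1) = k + 1 + j by omega]
  have hne : ∀ j, 0 < j → j < m + 1 → (k + j) % (m + 1) ≠ k % (m + 1) := by
    intro j hj hj2 h
    have h2 : (k + j) ≡ (k + 0) [MOD (m + 1)] := by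
      show (k + j) % (m + 1) = (k + 0) % (m + 1)
      rw [add_zero]; exact h
    have h3 := Nat.ModEq.add_left_cancel' k h2
    have : j % (m + 1) = 0 := h3
    rw [Nat.mod_eq_of_lt hj2] at this
    omega
  have e4 : (List.range m).map (fun j => (z (k + 1 + j), v' (k + 1 + j))) =
      (List.range m).map (fun j => (z' (k + 1 + j), v' (k + 1 + j))) := by
    refine List.map_congr_left fun j hj => ?_
    rw [List.mem_range] at hj
    rw [show k + 1 + j = k + (1 + j) by omega, hk _ (hne _ (by omega) (by omega))]
  rw [e1 z, e1 z', e4]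
  simp only [stepsFrom]
  rw [hvk, hvk', step_self, step_self]

end walks

end Pool.Agent.Helper21.Cut
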