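import Pool.Agent.Helper21.Cut.BaseChange

/-!
# Crossing numbers of passages (MP_86dbc7_gt)
-/

namespace Pool.Agent.Helper21.Cut

section ports

variable {P : Type*} [LinearOrder P]

theorem om_antisymm (a b : P) : om a b = - om b a := by
  unfold om
  rcases lt_trichotomy a b with h | h | h
  · simp [h, h.not_gt]
  · simp [h]
  · simp [h, h.not_gt]

theorem om_self (a : P) : om a a = 0 := by simp [om]

theorem om_sq {a b : P} (h : a ≠ b) : om a b * om a b = 1 := by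
  unfold om
  rcases lt_or_gt_of_ne h with h | h
  · simp [h]
  · simp [h, h.not_gt]

theorem om_of_lt {a b : P} (h : a < b) : om a b = 1 := by simp [om, h]

theorem om_of_gt {a b : P} (h : b < a) : om a b = -1 := by simp [om, h, h.not_gt]

/-- the cocycle `om a b + om b c + om c a` has values `± 1` -/
theorem om_tri {a b c : P} (hab : a ≠ b) (hbc : b ≠ c) (hac : a ≠ c) :
    (om a b + om b c + om c a) * (om a b + om b c + om c a) = 1 := by
  rcases lt_or_gt_of_ne hab with h1 | h1 <;> rcases lt_or_gt_of_ne hbc with h2 | h2 <;>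
    rcases lt_or_gt_of_ne hac with h3 | h3
  all_goals first
    | (exfalso; exact absurd (lt_trans h1 h2) (lt_asymm h3))
    | (exfalso; exact absurd (lt_trans h2 h1) (lt_asymm h3))
    | (simp [om, h1, h2, h3, h1.not_gt, h2.not_gt, h3.not_gt])

theorem two_side {s t x : P} (hst : s ≠ t) (hs : x ≠ s) (ht : x ≠ t) :
    2 * side s t x = (if s < t then 2 else 0) + om t x - om s x := by
  unfold side om
  rcases lt_or_gt_of_ne hst with h1 | h1 <;> rcases lt_or_gt_of_ne hs with h2 | h2 <;>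
    rcases lt_or_gt_of_ne ht with h3 | h3
  all_goals first
    | (exfalso; exact absurd (lt_trans h1 h3) (lt_asymm h2))
    | (exfalso; exact absurd (lt_trans h1 h2) (lt_asymm h3))
    | (simp [h1, h2, h3, h1.not_gt, h2.not_gt, h3.not_gt])

theorem two_side_sub {s t x x' : P} (hst : s ≠ t) (hs : x ≠ s) (ht : x ≠ t) (hs' : x' ≠ s)
    (ht' : x' ≠ t) : 2 * (side s t x - side s t x') = om t x - om s x - om t x' + om s x' := by
  have h1 := two_side hst hs ht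
  have h2 := two_side hst hs' ht'
  linear_combination h1 - h2

theorem two_lk {s t s' t' : P} (h1 : s ≠ t) (h2 : s ≠ s') (h3 : s ≠ t') (h4 : t ≠ s') (h5 : t ≠ t') :
    2 * lk s t s' t' = om t t' - om s t' - om t s' + om s s' := by
  unfold lk
  rw [two_side_sub h1 h3.symm h5.symm h2.symm h4.symm]

theorem lk_antisymm {s t s' t' : P} (h1 : s ≠ t) (h2 : s ≠ s') (h3 : s ≠ t') (h4 : t ≠ s')
    (h5 : t ≠ t') (h6 : s' ≠ t') : lk s t s' t' = - lk s' t' s t := by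
  have e1 := two_lk h1 h2 h3 h4 h5
  have e2 := two_lk h6 h2.symm h4.symm h3.symm h5.symm
  rw [om_antisymm t' t, om_antisymm s' t, om_antisymm t' s, om_antisymm s' s] at e2
  linarith

/-- switching the ends of two chords -/
theorem lk_switch {a t r c x y : P} (h1 : a ≠ t) (h2 : a ≠ x) (h3 : a ≠ y) (h4 : t ≠ x) (h5 : t ≠ y)
    (h6 : r ≠ c) (h7 : r ≠ x) (h8 : r ≠ y) (h9 : c ≠ x) (h10 : c ≠ y) (h11 : a ≠ c) (h12 : r ≠ t) :
    lk a t x y + lk r c x y = lk a c x y + lk r t x y := by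
  have e1 := two_lk h1 h2 h3 h4 h5
  have e2 := two_lk h6 h7 h8 h9 h10
  have e3 := two_lk h11 h2 h3 h9 h10
  have e4 := two_lk h12 h7 h8 h4 h5
  linarith

set_option linter.unusedSimpArgs false in
/-- the quadratic relation -/
theorem lk_quad {x₁ x₂ x₃ y₁ y₂ y₃ : P} (h12 : x₁ ≠ x₂) (h23 : x₂ ≠ x₃) (h13 : x₁ ≠ x₃)
    (k12 : y₁ ≠ y₂) (k23 : y₂ ≠ y₃) (k13 : y₁ ≠ y₃)
    (a11 : x₁ ≠ y₁) (a12 : x₁ ≠ y₂) (a13 : x₁ ≠ y₃)
    (a21 : x₂ ≠ y₁) (a22 : x₂ ≠ y₂) (a23 : x₂ ≠ y₃)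
    (a31 : x₃ ≠ y₁) (a32 : x₃ ≠ y₂) (a33 : x₃ ≠ y₃) :
    lk x₁ y₁ x₂ y₂ * lk x₁ y₂ x₃ y₃ + lk x₂ y₂ x₃ y₃ * lk x₂ y₃ x₁ y₁
        + lk x₃ y₃ x₁ y₁ * lk x₃ y₁ x₂ y₂ = 0 := by
  have e1 := two_lk a11 h12 a12 a21.symm k12
  have e2 := two_lk a12 h13 a13 a32.symm k23
  have e3 := two_lk a22 h23 a23 a32.symm k23
  have e4 := two_lk a23 h12.symm a21 a13.symm k13.symm
  have e5 := two_lk a33 h13.symm a31 a13.symm k13.symm
  have e6 := two_lk a31 h23.symm a32 a21.symm k12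
  have t1 := om_tri h12 h23 h13
  have t2 := om_tri h12 a23 a13
  have t3 := om_tri h13 a32 a12
  have t4 := om_tri a12 k23 a13
  have t5 := om_tri h23 a31 a21
  have t6 := om_tri a21 k13 a23
  have t7 := om_tri a31 k12 a32
  have t8 := om_tri k12 k23 k13
  simp only [om_antisymm x₂ x₁, om_antisymm x₃ x₁, om_antisymm x₃ x₂, om_antisymm y₂ y₁,
    om_antisymm y₃ y₁, om_antisymm y₃ y₂, om_antisymm y₁ x₁, om_antisymm y₁ x₂, om_antisymm y₁ x₃,
    om_antisymm y₂ x₁, om_antisymm y₂ x₂, om_antisymm y₂ x₃, om_antisymm y₃ x₁, om_antisymm y₃ x₂,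
    om_antisymm y₃ x₃] at e1 e2 e3 e4 e5 e6 t1 t2 t3 t4 t5 t6 t7 t8
  have key : ∀ a b c d e f A B C D E F' : ℤ, 2 * a = A → 2 * b = B → 2 * c = C → 2 * d = D →
      2 * e = E → 2 * f = F' → A * B + C * D + E * F' = 0 → a * b + c * d + e * f = 0 := by
    intro a b c d e f A B C D E F' h1 h2 h3 h4 h5 h6 h
    subst h1 h2 h3 h4 h5 h6
    nlinarith
  refine key _ _ _ _ _ _ _ _ _ _ _ _ e1 e2 e3 e4 e5 e6 ?_
  have h2 : (2 : ℤ) ≠ 0 := two_ne_zero
  refine mul_left_cancel₀ h2 ?_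
  linear_combination -t1 + t2 + t3 - t4 + t5 - t6 - t7 + t8

end ports

section letters

variable {V X : Type*} (key : V → V → ℝ)

theorem pin_ne_pin {x z : Letter V X} (h : x.y ≠ z.y) : x.pin key ≠ z.pin key := by
  intro he
  have := congrArg (fun q => (ofLex q).2) he
  simp only [Letter.pin, ofLex_toLex] at this
  exact h (by linarith)

theorem pout_ne_pout {x z : Letter V X} (h : x.y ≠ z.y) : x.pout key ≠ z.pout key := by
  intro he
  have := congrArg (fun q => (ofLex q).2) he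
  simp only [Letter.pout, ofLex_toLex] at this
  exact h this

theorem pin_ne_pout {x z : Letter V X} (hx : 0 < x.y) (hz : 0 < z.y) :
    x.pin key ≠ z.pout key := by
  intro he
  have := congrArg (fun q => (ofLex q).2) he
  simp only [Letter.pin, Letter.pout, ofLex_toLex] at this
  linarith

theorem Jl_ne_zero {a b c d : Letter V X} (h : Jl key a b c d ≠ 0) :
    a.v = b.u ∧ a.v = c.v ∧ a.v = d.u := by
  unfold Jl at h
  by_contra hc
  rw [if_neg hc] at h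
  exact h rfl

theorem Jl_of_vertex {a b c d : Letter V X} (h : a.v = b.u ∧ a.v = c.v ∧ a.v = d.u) :
    Jl key a b c d = lk (a.pin key) (b.pout key) (c.pin key) (d.pout key) := by
  unfold Jl
  rw [if_pos h]

theorem Jl_of_not_vertex {a b c d : Letter V X} (h : ¬ (a.v = b.u ∧ a.v = c.v ∧ a.v = d.u)) :
    Jl key a b c d = 0 := by
  unfold Jl
  rw [if_neg h]

theorem Jl_antisymm (x y z w : Letter V X)
    (h1 : x.y ≠ z.y) (h2 : y.y ≠ w.y) (hx : 0 < x.y) (hy : 0 < y.y) (hz : 0 < z.y) (hw : 0 < w.y) :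
    Jl key x y z w = - Jl key z w x y := by
  by_cases h : x.v = y.u ∧ x.v = z.v ∧ x.v = w.u
  · have h' : z.v = w.u ∧ z.v = x.v ∧ z.v = y.u :=
      ⟨h.2.1.symm.trans h.2.2, h.2.1.symm, h.2.1.symm.trans h.1⟩
    rw [Jl_of_vertex key h, Jl_of_vertex key h']
    exact lk_antisymm (pin_ne_pout key hx hy) (pin_ne_pin key h1) (pin_ne_pout key hx hw)
      (pin_ne_pout key hz hy).symm (pout_ne_pout key h2) (pin_ne_pout key hz hw)
  · have h' : ¬ (z.v = w.u ∧ z.v = x.v ∧ z.v = y.u) := by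
      rintro ⟨a, b, c⟩
      exact h ⟨b.symm.trans c, b.symm, b.symm.trans a⟩
    rw [Jl_of_not_vertex key h, Jl_of_not_vertex key h', neg_zero]

theorem Jl_quad (x₁ x₂ x₃ y₁ y₂ y₃ : Letter V X)
    (h12 : x₁.y ≠ x₂.y) (h23 : x₂.y ≠ x₃.y) (h13 : x₁.y ≠ x₃.y)
    (k12 : y₁.y ≠ y₂.y) (k23 : y₂.y ≠ y₃.y) (k13 : y₁.y ≠ y₃.y)
    (hx1 : 0 < x₁.y) (hx2 : 0 < x₂.y) (hx3 : 0 < x₃.y)
    (hy1 : 0 < y₁.y) (hy2 : 0 < y₂.y) (hy3 : 0 < y₃.y) :
    Jl key x₁ y₁ x₂ y₂ * Jl key x₁ y₂ x₃ y₃ + Jl key x₂ y₂ x₃ y₃ * Jl key x₂ y₃ x₁ y₁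
        + Jl key x₃ y₃ x₁ y₁ * Jl key x₃ y₁ x₂ y₂ = 0 := by
  by_cases h : x₁.v = x₂.v ∧ x₁.v = x₃.v ∧ x₁.v = y₁.u ∧ x₁.v = y₂.u ∧ x₁.v = y₃.u
  · obtain ⟨a, b, c, d, e⟩ := h
    rw [Jl_of_vertex key ⟨c, a, d⟩, Jl_of_vertex key ⟨d, b, e⟩,
      Jl_of_vertex key ⟨a.symm.trans d, a.symm.trans b, a.symm.trans e⟩,
      Jl_of_vertex key ⟨a.symm.trans e, a.symm, a.symm.trans c⟩,
      Jl_of_vertex key ⟨b.symm.trans e, b.symm, b.symm.trans c⟩,
      Jl_of_vertex key ⟨b.symm.trans c, b.symm.trans a, b.symm.trans d⟩]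
    exact lk_quad (pin_ne_pin key h12) (pin_ne_pin key h23) (pin_ne_pin key h13)
      (pout_ne_pout key k12) (pout_ne_pout key k23) (pout_ne_pout key k13)
      (pin_ne_pout key hx1 hy1) (pin_ne_pout key hx1 hy2) (pin_ne_pout key hx1 hy3)
      (pin_ne_pout key hx2 hy1) (pin_ne_pout key hx2 hy2) (pin_ne_pout key hx2 hy3)
      (pin_ne_pout key hx3 hy1) (pin_ne_pout key hx3 hy2) (pin_ne_pout key hx3 hy3)
  · have z1 : Jl key x₁ y₁ x₂ y₂ * Jl key x₁ y₂ x₃ y₃ = 0 := by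
      by_contra hc
      have a := Jl_ne_zero key (left_ne_zero_of_mul hc)
      have b := Jl_ne_zero key (right_ne_zero_of_mul hc)
      exact h ⟨a.2.1, b.2.1, a.1, a.2.2, b.2.2⟩
    have z2 : Jl key x₂ y₂ x₃ y₃ * Jl key x₂ y₃ x₁ y₁ = 0 := by
      by_contra hc
      have a := Jl_ne_zero key (left_ne_zero_of_mul hc)
      have b := Jl_ne_zero key (right_ne_zero_of_mul hc)
      exact h ⟨b.2.1.symm, b.2.1.symm.trans a.2.1, b.2.1.symm.trans b.2.2,
        b.2.1.symm.trans a.1, b.2.1.symm.trans a.2.2⟩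
    have z3 : Jl key x₃ y₃ x₁ y₁ * Jl key x₃ y₁ x₂ y₂ = 0 := by
      by_contra hc
      have a := Jl_ne_zero key (left_ne_zero_of_mul hc)
      have b := Jl_ne_zero key (right_ne_zero_of_mul hc)
      exact h ⟨a.2.1.symm.trans b.2.1, a.2.1.symm, a.2.1.symm.trans a.2.2,
        a.2.1.symm.trans b.2.2, a.2.1.symm.trans a.1⟩
    rw [z1, z2, z3]; rfl

/-- switching, at the level of letters -/
theorem Jl_switch (a t r c x y : Letter V X) (hv : a.v = t.u ∧ a.v = r.v ∧ a.v = c.u)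
    (h2 : a.y ≠ x.y) (h5 : t.y ≠ y.y) (h7 : r.y ≠ x.y) (h10 : c.y ≠ y.y)
    (ha : 0 < a.y) (ht : 0 < t.y) (hr : 0 < r.y) (hc : 0 < c.y) (hx : 0 < x.y) (hy : 0 < y.y) :
    Jl key a t x y + Jl key r c x y = Jl key a c x y + Jl key r t x y := by
  obtain ⟨e1, e2, e3⟩ := hv
  by_cases h : a.v = x.v ∧ a.v = y.u
  · obtain ⟨f1, f2⟩ := h
    rw [Jl_of_vertex key ⟨e1, f1, f2⟩, Jl_of_vertex key ⟨e2.symm.trans e3, e2.symm.trans f1,
      e2.symm.trans f2⟩, Jl_of_vertex key ⟨e3, f1, f2⟩, Jl_of_vertex key ⟨e2.symm.trans e1,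
      e2.symm.trans f1, e2.symm.trans f2⟩]
    exact lk_switch (pin_ne_pout key ha ht) (pin_ne_pin key h2) (pin_ne_pout key ha hy)
      (pin_ne_pout key hx ht).symm (pout_ne_pout key h5) (pin_ne_pout key hr hc)
      (pin_ne_pin key h7) (pin_ne_pout key hr hy) (pin_ne_pout key hx hc).symm
      (pout_ne_pout key h10) (pin_ne_pout key ha hc) (pin_ne_pout key hr ht)
  · have n : ∀ q s : Letter V X, a.v = q.v → Jl key q s x y = 0 := fun q s hq =>
      Jl_of_not_vertex key (fun hh => h ⟨hq.trans hh.2.1, hq.trans hh.2.2⟩)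
    rw [n a t rfl, n r c e2, n a c rfl, n r t e2]

end letters

end Pool.Agent.Helper21.Cut
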