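import Pool.Agent.Helper21.Cut.Metric

/-!
# The invariant does not depend on the lateral positions (MP_86dbc7_gt)
-/

namespace Pool.Agent.Helper21.Cut

section order

variable {P P' : Type*} [LinearOrder P] [LinearOrder P']

theorem om_congr {a b : P} {a' b' : P'} (h1 : a < b ↔ a' < b') (h2 : b < a ↔ b' < a') :
    om a b = om a' b' := by
  simp only [om, h1, h2]

theorem side_congr {s t x : P} {s' t' x' : P'} (h1 : s < t ↔ s' < t') (h2 : s < x ↔ s' < x')
    (h3 : x < t ↔ x' < t') (h4 : t < x ↔ t' < x') (h5 : x < s ↔ x' < s') :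
    side s t x = side s' t' x' := by
  simp only [side, h1, h2, h3, h4, h5]

end order

/-- a dart `u → v` with a decoration -/
structure Dart (V X : Type*) where
  u : V
  v : V
  z : X

/-- the letter of a dart at the lateral position `y` -/
def Dart.at {V X : Type*} (d : Dart V X) (y : ℤ) : Letter V X := ⟨d.u, d.v, d.z, y⟩

section letters

variable {V X : Type*} (key : V → V → ℝ)

theorem pin_lt_pin {a b : Letter V X} : a.pin key < b.pin key ↔
    key a.v a.u < key b.v b.u ∨ (key a.v a.u = key b.v b.u ∧ b.y < a.y) := by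
  simp only [Letter.pin, Prod.Lex.toLex_lt_toLex, neg_lt_neg_iff]

theorem pout_lt_pout {a b : Letter V X} : a.pout key < b.pout key ↔
    key a.u a.v < key b.u b.v ∨ (key a.u a.v = key b.u b.v ∧ a.y < b.y) := by
  simp only [Letter.pout, Prod.Lex.toLex_lt_toLex]

theorem pin_lt_pout {a b : Letter V X} (ha : 0 < a.y) (hb : 0 < b.y) : a.pin key < b.pout key ↔
    key a.v a.u ≤ key b.u b.v := by
  simp only [Letter.pin, Letter.pout, Prod.Lex.toLex_lt_toLex]
  constructor
  · rintro (h | ⟨h, _⟩)
    · exact h.le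
    · exact h.le
  · intro h
    rcases h.lt_or_eq with h | h
    · exact Or.inl h
    · exact Or.inr ⟨h, by linarith⟩

theorem pout_lt_pin {a b : Letter V X} (ha : 0 < a.y) (hb : 0 < b.y) : a.pout key < b.pin key ↔
    key a.u a.v < key b.v b.u := by
  simp only [Letter.pin, Letter.pout, Prod.Lex.toLex_lt_toLex]
  constructor
  · rintro (h | ⟨h, h'⟩)
    · exact h
    · linarith
  · intro h
    exact Or.inl h

/-- `Jl` depends only on the darts and on the order of the lateral positions on each dart -/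
theorem Jl_congr {a b c d a' b' c' d' : Letter V X}
    (ha : a.u = a'.u ∧ a.v = a'.v) (hb : b.u = b'.u ∧ b.v = b'.v)
    (hc : c.u = c'.u ∧ c.v = c'.v) (hd : d.u = d'.u ∧ d.v = d'.v)
    (pa : 0 < a.y) (pb : 0 < b.y) (pc : 0 < c.y) (pd : 0 < d.y)
    (pa' : 0 < a'.y) (pb' : 0 < b'.y) (pc' : 0 < c'.y) (pd' : 0 < d'.y)
    (hin : a.v = c.v → key a.v a.u = key c.v c.u →
      ((a.y < c.y ↔ a'.y < c'.y) ∧ (c.y < a.y ↔ c'.y < a'.y)))
    (hout : b.u = d.u → key b.u b.v = key d.u d.v →
      ((b.y < d.y ↔ b'.y < d'.y) ∧ (d.y < b.y ↔ d'.y < b'.y))) :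
    Jl key a b c d = Jl key a' b' c' d' := by
  by_cases h : a.v = b.u ∧ a.v = c.v ∧ a.v = d.u
  · have h' : a'.v = b'.u ∧ a'.v = c'.v ∧ a'.v = d'.u := by
      rw [← ha.2, ← hb.1, ← hc.2, ← hd.1]; exact h
    rw [Jl_of_vertex key h, Jl_of_vertex key h']
    have hin' := hin h.2.1
    have hout' := hout (h.1.symm.trans h.2.2)
    have e1 : a.pin key < b.pout key ↔ a'.pin key < b'.pout key := by
      rw [pin_lt_pout key pa pb, pin_lt_pout key pa' pb', ha.1, ha.2, hb.1, hb.2]
    have e2 : a.pin key < d.pout key ↔ a'.pin key < d'.pout key := by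
      rw [pin_lt_pout key pa pd, pin_lt_pout key pa' pd', ha.1, ha.2, hd.1, hd.2]
    have e3 : d.pout key < a.pin key ↔ d'.pout key < a'.pin key := by
      rw [pout_lt_pin key pd pa, pout_lt_pin key pd' pa', ha.1, ha.2, hd.1, hd.2]
    have e4 : c.pin key < b.pout key ↔ c'.pin key < b'.pout key := by
      rw [pin_lt_pout key pc pb, pin_lt_pout key pc' pb', hc.1, hc.2, hb.1, hb.2]
    have e5 : b.pout key < c.pin key ↔ b'.pout key < c'.pin key := by
      rw [pout_lt_pin key pb pc, pout_lt_pin key pb' pc', hc.1, hc.2, hb.1, hb.2]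
    have e6 : a.pin key < c.pin key ↔ a'.pin key < c'.pin key := by
      rw [pin_lt_pin, pin_lt_pin, ← ha.1, ← ha.2, ← hc.1, ← hc.2]
      by_cases hk : key a.v a.u = key c.v c.u
      · rw [(hin' hk).2]
      · simp [hk]
    have e7 : c.pin key < a.pin key ↔ c'.pin key < a'.pin key := by
      rw [pin_lt_pin, pin_lt_pin, ← ha.1, ← ha.2, ← hc.1, ← hc.2]
      by_cases hk : key a.v a.u = key c.v c.u
      · rw [(hin' hk).1]
      · simp [Ne.symm hk]
    have e8 : b.pout key < d.pout key ↔ b'.pout key < d'.pout key := by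
      rw [pout_lt_pout, pout_lt_pout, ← hb.1, ← hb.2, ← hd.1, ← hd.2]
      by_cases hk : key b.u b.v = key d.u d.v
      · rw [(hout' hk).1]
      · simp [hk]
    have e9 : d.pout key < b.pout key ↔ d'.pout key < b'.pout key := by
      rw [pout_lt_pout, pout_lt_pout, ← hb.1, ← hb.2, ← hd.1, ← hd.2]
      by_cases hk : key b.u b.v = key d.u d.v
      · rw [(hout' hk).2]
      · simp [Ne.symm hk]
    unfold lk
    rw [side_congr e1 e2 e9 e8 e3, side_congr e1 e6 e4 e5 e7]
  · have h' : ¬ (a'.v = b'.u ∧ a'.v = c'.v ∧ a'.v = d'.u) := by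
      rw [← ha.2, ← hb.1, ← hc.2, ← hd.1]; exact h
    rw [Jl_of_not_vertex key h, Jl_of_not_vertex key h']

end letters

/-! ### labels and admissible darts -/

section setting

variable {V X : Type*} [PseudoMetricSpace X] {δ : ℝ}

/-- a dart of the nerve of the cover, decorated by a common point -/
structure Adm (C : Cover V X δ) (d : Dart V X) : Prop where
  ne : d.u ≠ d.v
  mu : d.z ∈ C.U d.u
  mv : d.z ∈ C.U d.v

/-- properties of the labels of closed polygons -/
structure LabOK {R : Type*} [Zero R] (δ ρ Λ : ℝ) (lab : List X → R) : Prop where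
  rot : ∀ A B, lab (A ++ B) = lab (B ++ A)
  low : ∀ B, lab B ≠ 0 → ρ ≤ plen B
  ins : ∀ z a l, Mesh δ (a :: l) → Mesh δ (z :: a :: l) → plen (a :: l) < Λ →
    plen (z :: a :: l) < Λ → lab (z :: a :: l) = lab (a :: l)

variable {S : Type*} {R : Type*}

/-- crossing numbers of letters given by darts and positions -/
noncomputable def JS (C : Cover V X δ) (D : S → Dart V X) (y : S → ℤ) (i j k l : S) : ℤ :=
  Jl C.key ((D i).at (y i)) ((D j).at (y j)) ((D k).at (y k)) ((D l).at (y l))

/-- decorations of a word -/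
def dec (D : S → Dart V X) (B : List S) : List X := B.map (fun i => (D i).z)

/-- consecutive darts -/
def adjS (D : S → Dart V X) (i j : S) : Prop := (D i).v = (D j).u

theorem dec_append (D : S → Dart V X) (A B : List S) : dec D (A ++ B) = dec D A ++ dec D B := by
  simp [dec]

theorem dec_cons (D : S → Dart V X) (a : S) (B : List S) : dec D (a :: B) = (D a).z :: dec D B := rfl

theorem dec_eq_nil (D : S → Dart V X) (B : List S) : dec D B = [] ↔ B = [] := by
  simp [dec]

theorem dec_getLastD (D : S → Dart V X) (B : List S) (b : S) :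
    (dec D B).getLastD (D b).z = (D (B.getLastD b)).z := by
  rcases B.eq_nil_or_concat with rfl | ⟨B', x, rfl⟩ <;> simp [dec]

theorem dec_headD (D : S → Dart V X) (B : List S) (b : S) :
    (dec D B).headD (D b).z = (D (B.headD b)).z := by
  cases B <;> simp [dec]

theorem adjS_adj (D : S → Dart V X) (a b c d : S) (h1 : adjS D a b) (h2 : adjS D c b)
    (h3 : adjS D c d) : adjS D a d := by
  unfold adjS at *
  exact h1.trans (h2.symm.trans h3)

theorem JS_ne_zero {C : Cover V X δ} {D : S → Dart V X} {y : S → ℤ} {a b c d : S}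
    (h : JS C D y a b c d ≠ 0) : adjS D a b ∧ adjS D c d ∧ adjS D a d ∧ adjS D c b := by
  have := Jl_ne_zero C.key h
  obtain ⟨h1, h2, h3⟩ := this
  exact ⟨h1, h2.symm.trans h3, h3, h2.symm.trans h1⟩

theorem near_of_adj (C : Cover V X δ) (D : S → Dart V X) (hD : ∀ i, Adm C (D i)) {i j : S}
    (h : adjS D i j) : dist (D i).z (D j).z ≤ δ :=
  C.diam _ _ (hD i).mv _ (h ▸ (hD j).mu)

theorem validC_iff {adj : S → S → Prop} (l : List S) (hl : l ≠ []) (d : S) :
    ValidC adj l ↔ List.IsChain adj l ∧ adj (l.getLastD d) (l.headD d) := by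
  cases l with
  | nil => exact absurd rfl hl
  | cons a l =>
    change List.IsChain adj (a :: (l ++ [a])) ↔ _
    rw [← List.cons_append, List.isChain_append]
    simp only [List.isChain_singleton, true_and, List.headD_cons]
    have hlast : ∀ x, x ∈ (a :: l).getLast? → (a :: l).getLastD d = x := by
      intro x hx
      rcases (a :: l).eq_nil_or_concat with h | ⟨l', x', h⟩
      · simp at h
      · rw [h] at hx ⊢; simp at hx ⊢; exact hx
    constructor
    · rintro ⟨h1, h2⟩
      refine ⟨h1, ?_⟩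
      refine h2 _ ?_ _ (by simp)
      rcases (a :: l).eq_nil_or_concat with h | ⟨l', x, h⟩
      · simp at h
      · rw [h]; simp
    · rintro ⟨h1, h2⟩
      refine ⟨h1, ?_⟩
      intro x hx y hy
      simp only [List.head?_cons, Option.mem_def, Option.some.injEq] at hy
      subst hy
      rw [← hlast x hx]; exact h2

theorem validC_rot {adj : S → S → Prop} {A B : List S} (h : ValidC adj (A ++ B)) :
    ValidC adj (B ++ A) := by
  by_cases hA : A = []
  · simpa [hA] using h
  by_cases hB : B = []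
  · simpa [hB] using h
  obtain ⟨d, _⟩ := List.exists_mem_of_ne_nil A hA
  have hlast : ∀ (l : List S), l ≠ [] → ∀ x, x ∈ l.getLast? → l.getLastD d = x := by
    intro l hl x hx
    rcases l.eq_nil_or_concat with h | ⟨l', x', rfl⟩
    · exact absurd h hl
    · simp at hx ⊢; exact hx
  have hlast' : ∀ (l : List S), l ≠ [] → l.getLastD d ∈ l.getLast? := by
    intro l hl
    rcases l.eq_nil_or_concat with h | ⟨l', x', rfl⟩
    · exact absurd h hl
    · simp
  have hhead : ∀ (l : List S), l ≠ [] → ∀ x, x ∈ l.head? → l.headD d = x := by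
    intro l hl x hx
    cases l with
    | nil => exact absurd rfl hl
    | cons a l => simpa using hx
  have hhead' : ∀ (l : List S), l ≠ [] → l.headD d ∈ l.head? := by
    intro l hl
    cases l with
    | nil => exact absurd rfl hl
    | cons a l => simp
  rw [validC_iff (A ++ B) (by simp [hA]) d, List.isChain_append] at h
  rw [validC_iff (B ++ A) (by simp [hA]) d, List.isChain_append]
  rw [getLastD_append_of_ne hB d d, headD_append_of_ne hA d d] at h
  rw [getLastD_append_of_ne hA d d, headD_append_of_ne hB d d]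
  obtain ⟨⟨h1, h2, h3⟩, h4⟩ := h
  refine ⟨⟨h2, h1, ?_⟩, h3 _ (hlast' A hA) _ (hhead' B hB)⟩
  intro x hx y hy
  rw [← hlast B hB x hx, ← hhead A hA y hy]
  exact h4

/-- the points of a closed walk form a polygon with small steps -/
theorem mesh_dec (C : Cover V X δ) (D : S → Dart V X) (hD : ∀ i, Adm C (D i)) (W : List S)
    (hW : ValidC (adjS D) W) : Mesh δ (dec D W) := by
  cases W with
  | nil => trivial
  | cons a W =>
    have h2 : List.IsChain (fun x y => dist x y ≤ δ) ((a :: (W ++ [a])).map (fun i => (D i).z)) := by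
      rw [List.isChain_map]
      exact List.IsChain.imp (fun i j h => near_of_adj C D hD h) hW
    simpa [dec, Mesh] using h2

theorem cut_len (C : Cover V X δ) (D : S → Dart V X) (hD : ∀ i, Adm C (D i)) (y : S → ℤ)
    (b : S) (A B E : List S) (hB : B ≠ [])
    (hJ : JS C D y (A.getLastD b) (B.headD b) (B.getLastD b) (E.headD b) ≠ 0) :
    (plen (dec D B) - 2 * δ) + (plen (dec D (b :: (A ++ E))) - 2 * δ) ≤
      plen (dec D (b :: (A ++ (B ++ E)))) - 2 * δ := by
  obtain ⟨h1, h2, h3, h4⟩ := JS_ne_zero hJ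
  have e1 := near_of_adj C D hD h4
  have e2 := near_of_adj C D hD h3
  have := plen_cut (δ := δ) (D b).z (dec D A) (dec D B) (dec D E)
    (by rwa [Ne, dec_eq_nil]) (by rw [dec_getLastD, dec_headD]; exact e1)
    (by rw [dec_getLastD, dec_headD]; exact e2)
  rw [dec_cons, dec_cons, dec_append, dec_append, dec_append]
  linarith

theorem key_dart (C : Cover V X δ) {d e : Dart V X} (hd : Adm C d) (he : Adm C e)
    (h : d.u = e.u) (hk : C.key d.u d.v = C.key e.u e.v) : d.v = e.v := by
  refine C.key_inj d.u d.v e.v hd.ne ⟨d.z, hd.mu, hd.mv⟩ (h ▸ he.ne) ⟨e.z, h ▸ he.mu, he.mv⟩ ?_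
  rw [hk, h]

theorem key_dart' (C : Cover V X δ) {d e : Dart V X} (hd : Adm C d) (he : Adm C e)
    (h : d.v = e.v) (hk : C.key d.v d.u = C.key e.v e.u) : d.u = e.u := by
  refine C.key_inj d.v d.u e.u hd.ne.symm ⟨d.z, hd.mv, hd.mu⟩ (h ▸ he.ne.symm)
    ⟨e.z, h ▸ he.mv, he.mu⟩ ?_
  rw [hk, h]

/-- change of positions which keeps the order on each dart -/
theorem JS_congr (C : Cover V X δ) (D D' : S → Dart V X) (hD : ∀ i, Adm C (D i))
    (y y' : S → ℤ) (hy : ∀ i, 0 < y i) (hy' : ∀ i, 0 < y' i) (f : S → S) (i j k l : S)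
    (hdi : (D i).u = (D' (f i)).u ∧ (D i).v = (D' (f i)).v)
    (hdj : (D j).u = (D' (f j)).u ∧ (D j).v = (D' (f j)).v)
    (hdk : (D k).u = (D' (f k)).u ∧ (D k).v = (D' (f k)).v)
    (hdl : (D l).u = (D' (f l)).u ∧ (D l).v = (D' (f l)).v)
    (hik : (D i).u = (D k).u → (D i).v = (D k).v →
      ((y i < y k ↔ y' (f i) < y' (f k)) ∧ (y k < y i ↔ y' (f k) < y' (f i))))
    (hjl : (D j).u = (D l).u → (D j).v = (D l).v →
      ((y j < y l ↔ y' (f j) < y' (f l)) ∧ (y l < y j ↔ y' (f l) < y' (f j)))) :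
    JS C D y i j k l = JS C D' y' (f i) (f j) (f k) (f l) := by
  unfold JS
  refine Jl_congr C.key hdi hdj hdk hdl (hy _) (hy _) (hy _) (hy _) (hy' _) (hy' _) (hy' _) (hy' _)
    ?_ ?_
  · intro h1 h2
    exact hik (key_dart' C (hD i) (hD k) h1 h2) h1
  · intro h1 h2
    exact hjl h1 (key_dart C (hD j) (hD l) h1 h2)

end setting

end Pool.Agent.Helper21.Cut
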