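import Pool.Agent.Helper21.Cut.Paths
import Pool.Agent.Helper57.Cut.LabConn

/-!
# Deleting the points of a closed path at which the vertex does not change (MP_86dbc7_gt)
-/

namespace Pool.Agent.Helper21.Cut

open Pool.Agent.Helper57.Cut

section

variable {V X : Type*} [PseudoMetricSpace X] {δ : ℝ}

/-- deletion of a point from a closed polygon -/
theorem conn_delete {Λ : ℝ} (A B : List X) (z : X) (h1 : Good δ Λ (A ++ z :: B))
    (h2 : Good δ Λ (A ++ B)) : Conn δ Λ (A ++ z :: B) (A ++ B) := by
  have h3 : Conn δ Λ (A ++ z :: B) ((z :: B) ++ A) := conn_rot A (z :: B) h1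
  have h4 : Conn δ Λ (A ++ B) (B ++ A) := conn_rot A B h2
  have g1 : Good δ Λ (z :: (B ++ A)) := by
    have := good_rot h1
    simpa using this
  have g2 : Good δ Λ (B ++ A) := good_rot h2
  have h5 : Conn δ Λ (B ++ A) (z :: (B ++ A)) := by
    obtain ⟨a, l, hl⟩ : ∃ a l, B ++ A = a :: l := by
      cases h : B ++ A with
      | nil => exact absurd h g2.1
      | cons a l => exact ⟨a, l, rfl⟩
    rw [hl] at g1 g2 ⊢
    exact Relation.EqvGen.rel _ _ (Move.ins z a l g2 g1)
  exact Relation.EqvGen.trans _ _ _ h3
    (Relation.EqvGen.trans _ _ _ (Relation.EqvGen.symm _ _ h5) (Relation.EqvGen.symm _ _ h4))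

/-- closed path -/
def ClosedOk (C : Cover V X δ) (a : V) (Q : List (X × V)) : Prop := OkFrom C a Q ∧ endv a Q = a

theorem ClosedOk.delete {C : Cover V X δ} {a : V} {A B : List (X × V)} {q : X × V}
    (h : ClosedOk C a (A ++ q :: B)) (hq : q.2 = endv a A) : ClosedOk C a (A ++ B) := by
  obtain ⟨h1, h2⟩ := h
  rw [OkFrom_append] at h1
  rw [endv_append] at h2
  refine ⟨?_, ?_⟩
  · rw [OkFrom_append]
    refine ⟨h1.1, ?_⟩
    have := h1.2.2.2
    rwa [hq] at this
  · rw [endv_append]
    have : endv q.2 B = a := h2
    rwa [hq] at this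

/-- consecutive points of an open path are close to each other -/
theorem OkFrom.chain {C : Cover V X δ} {a : V} {Q : List (X × V)} (h : OkFrom C a Q) :
    List.IsChain (fun x y => dist x y ≤ δ) (Q.map Prod.fst) ∧
      (∀ x ∈ (Q.map Prod.fst).head?, x ∈ C.U a) ∧
      (∀ x ∈ (Q.map Prod.fst).getLast?, x ∈ C.U (endv a Q)) := by
  induction Q generalizing a with
  | nil => simp
  | cons q Q ih =>
    obtain ⟨h1, h2, h3⟩ := h
    obtain ⟨i1, i2, i3⟩ := ih h3
    refine ⟨?_, ?_, ?_⟩
    · rw [List.map_cons]
      rw [List.isChain_cons]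
      refine ⟨?_, i1⟩
      intro y hy
      exact C.diam q.2 _ h2 _ (i2 y hy)
    · intro x hx
      simp only [List.map_cons, List.head?_cons, Option.mem_def, Option.some.injEq] at hx
      subst hx
      exact h1
    · intro x hx
      cases Q with
      | nil =>
        simp only [List.map_cons, List.map_nil, List.getLast?_singleton, Option.mem_def,
          Option.some.injEq] at hx
        subst hx
        exact h2
      | cons q' Q =>
        refine i3 x ?_
        rw [List.map_cons, List.map_cons, List.getLast?_cons_cons] at hx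
        rw [List.map_cons]
        exact hx

theorem ClosedOk.mesh {C : Cover V X δ} {a : V} {Q : List (X × V)} (h : ClosedOk C a Q)
    (hne : Q ≠ []) : Mesh δ (Q.map Prod.fst) := by
  obtain ⟨h1, h2⟩ := h
  obtain ⟨i1, i2, i3⟩ := h1.chain
  rw [h2] at i3
  have hne' : Q.map Prod.fst ≠ [] := by simpa using hne
  obtain ⟨d, _⟩ := List.exists_mem_of_ne_nil _ hne'
  rw [mesh_iff_cyc _ hne' d]
  refine ⟨i1, ?_⟩
  refine C.diam a _ (i3 _ ?_) _ (i2 _ ?_)
  · rcases (Q.map Prod.fst).eq_nil_or_concat with h | ⟨l', x, h⟩
    · exact absurd h hne'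
    · rw [h]; simp
  · cases h : Q.map Prod.fst with
    | nil => exact absurd h hne'
    | cons x l => simp

theorem ClosedOk.good {C : Cover V X δ} {a : V} {Q : List (X × V)} (h : ClosedOk C a Q)
    (hne : Q ≠ []) {Λ : ℝ} (hlen : plen (Q.map Prod.fst) < Λ) : Good δ Λ (Q.map Prod.fst) :=
  ⟨by simpa using hne, h.mesh hne, hlen⟩

open Classical in
/-- delete the points at which the vertex does not change -/
noncomputable def red : V → List (X × V) → List (X × V)
  | _, [] => []
  | a, q :: Q => if q.2 = a then red a Q else q :: red q.2 Q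

theorem red_map (a : V) (Q : List (X × V)) : (red a Q).map Prod.fst = zs (stepsFrom a Q) := by
  induction Q generalizing a with
  | nil => rfl
  | cons q Q ih =>
    simp only [red, stepsFrom, zs_append]
    by_cases h : q.2 = a
    · rw [if_pos h, ih, h, step_self]
      simp [zs]
    · rw [if_neg h, step_of_ne (fun h' => h h'.symm), List.map_cons, ih]
      simp [zs]

theorem red_sublist (a : V) (Q : List (X × V)) : (red a Q).Sublist Q := by
  induction Q generalizing a with
  | nil => exact List.Sublist.refl _
  | cons q Q ih =>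
    simp only [red]
    by_cases h : q.2 = a
    · rw [if_pos h]; exact (ih a).cons q
    · rw [if_neg h]; exact (ih q.2).cons_cons q

theorem conn_red {C : Cover V X δ} {Λ : ℝ} (a : V) (Q : List (X × V)) :
    ∀ A : List (X × V), ClosedOk C a (A ++ Q) → A ++ red (endv a A) Q ≠ [] →
      plen ((A ++ Q).map Prod.fst) < Λ →
      ClosedOk C a (A ++ red (endv a A) Q) ∧
      Conn δ Λ ((A ++ Q).map Prod.fst) ((A ++ red (endv a A) Q).map Prod.fst) := by
  induction Q with
  | nil => intro A h _ _; exact ⟨h, Relation.EqvGen.refl _⟩
  | cons q Q ih =>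
    intro A h hne hlen
    by_cases hq : q.2 = endv a A
    · have e : red (endv a A) (q :: Q) = red (endv a A) Q := by simp only [red]; rw [if_pos hq]
      rw [e] at hne ⊢
      have h' : ClosedOk C a (A ++ Q) := h.delete hq
      have hlen' : plen ((A ++ Q).map Prod.fst) < Λ := by
        refine lt_of_le_of_lt (plen_le_of_sublist ?_) hlen
        exact ((List.Sublist.refl A).append (List.sublist_cons_self q Q)).map _
      obtain ⟨i1, i2⟩ := ih A h' hne hlen'
      refine ⟨i1, Relation.EqvGen.trans _ _ _ ?_ i2⟩
      have hne2 : A ++ Q ≠ [] := by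
        intro h0
        rw [List.append_eq_nil_iff] at h0
        rw [h0.1, h0.2] at hne
        exact hne rfl
      have g1 := h.good (by simp) hlen
      have g2 := h'.good hne2 hlen'
      rw [List.map_append, List.map_cons] at g1 ⊢
      rw [List.map_append] at g2 ⊢
      exact conn_delete _ _ _ g1 g2
    · have e : red (endv a A) (q :: Q) = q :: red q.2 Q := by simp only [red]; rw [if_neg hq]
      have e2 : endv a (A ++ [q]) = q.2 := by rw [endv_append]; rfl
      rw [e] at hne ⊢
      have := ih (A ++ [q])
      rw [e2] at this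
      simp only [List.append_assoc, List.singleton_append] at this
      exact this h hne hlen

/-- a closed path is connected to its decorations -/
theorem conn_zs {C : Cover V X δ} {Λ : ℝ} (a : V) (Q : List (X × V)) (h : ClosedOk C a Q)
    (hne : stepsFrom a Q ≠ []) (hlen : plen (Q.map Prod.fst) < Λ) :
    Conn δ Λ (Q.map Prod.fst) (zs (stepsFrom a Q)) ∧ Good δ Λ (zs (stepsFrom a Q)) := by
  have hne' : red a Q ≠ [] := by
    intro h0
    have := red_map a Q
    rw [h0] at this
    have h1 : (stepsFrom a Q).map Dart.z = [] := this.symm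
    exact hne (List.map_eq_nil_iff.1 h1)
  obtain ⟨h1, h2⟩ := conn_red (Λ := Λ) a Q [] h hne' hlen
  simp only [List.nil_append, endv] at h1 h2
  refine ⟨?_, ?_⟩
  · rw [← red_map]; exact h2
  · rw [← red_map]
    refine h1.good hne' ?_
    exact lt_of_le_of_lt (plen_le_of_sublist ((red_sublist a Q).map _)) hlen

/-- a closed path staying in one set is connected to a point -/
theorem conn_point {C : Cover V X δ} {Λ : ℝ} (a : V) (Q : List (X × V)) (h : ClosedOk C a Q)
    (hQ : Q ≠ []) (hne : stepsFrom a Q = []) (hlen : plen (Q.map Prod.fst) < Λ) :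
    ∃ x, Conn δ Λ (Q.map Prod.fst) [x] := by
  cases Q with
  | nil => exact absurd rfl hQ
  | cons q Q =>
    have h0 : red a (q :: Q) = [] := by
      have := red_map a (q :: Q)
      rw [hne] at this
      exact List.map_eq_nil_iff.1 this
    have hqa : q.2 = a := by
      by_contra hqa
      simp only [red] at h0
      rw [if_neg hqa] at h0
      exact absurd h0 (by simp)
    have h1 : red q.2 Q = [] := by
      simp only [red] at h0
      rw [if_pos hqa] at h0
      rw [hqa]; exact h0
    have := conn_red (Λ := Λ) a Q [q] (by simpa using h) (by simp) (by simpa using hlen)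
    simp only [endv, h1] at this
    exact ⟨q.1, by simpa using this.2⟩

theorem plen_replicate (x : X) (k : ℕ) : plen (List.replicate k x) = 0 := by
  cases k with
  | zero => simp [plen]
  | succ k =>
    induction k with
    | zero => simp [plen, walkLen]
    | succ k ih =>
      rw [List.replicate_succ, List.replicate_succ, plen_dup, ← List.replicate_succ]
      exact ih

/-- the length of a multiple closed polygon -/
theorem plen_multiple (z : ℕ → X) (n q : ℕ) (hn : 0 < n) (hpow : ∀ i, z (i + n) = z i) :
    2 * plen ((List.range n).map z) ≤ plen ((List.range ((q + 2) * n)).map z) := by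
  have e : ∀ k, (List.range (n + k)).map z = (List.range n).map z ++ (List.range k).map z := by
    intro k
    rw [List.range_add, List.map_append, List.map_map]
    congr 1
    refine List.map_congr_left fun j _ => ?_
    simp only [Function.comp]
    rw [add_comm n j, hpow]
  have e1 : (List.range ((q + 2) * n)).map z =
      (List.range n).map z ++ (List.range ((q + 1) * n)).map z := by
    rw [← e]; congr 2; ring
  have e2 : (List.range ((q + 1) * n)).map z =
      (List.range n).map z ++ (List.range (q * n)).map z := by
    rw [← e]; congr 2; ring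
  have h1 : (List.range n).map z ≠ [] := by simp; omega
  have h2 : (List.range ((q + 1) * n)).map z ≠ [] := by
    rw [e2]; simp; omega
  have h3 : plen ((List.range n).map z) ≤ plen ((List.range ((q + 1) * n)).map z) := by
    rw [e2]; exact plen_le_of_sublist (List.sublist_append_left _ _)
  have h4 : ((List.range n).map z).headD (z 0) = z 0 := by
    cases n with
    | zero => omega
    | succ n => rw [List.range_succ_eq_map]; rfl
  have h5 : ((List.range ((q + 1) * n)).map z).headD (z 0) = z 0 := by
    rw [e2, headD_append h1]; exact h4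
  have h6 : plen ((List.range ((q + 2) * n)).map z) =
      plen ((List.range n).map z) + plen ((List.range ((q + 1) * n)).map z) := by
    rw [e1, plen_append _ _ h1 h2 (z 0), plen_eq _ h1 (z 0), plen_eq _ h2 (z 0), h4, h5]
    ring
  rw [h6]; linarith

end

end Pool.Agent.Helper21.Cut
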