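import Pool.Agent.Helper21.Cut.Pos

/-!
# Swapping two adjacent lateral positions (MP_86dbc7_gt)
-/

namespace Pool.Agent.Helper21.Cut

section letters

variable {V X : Type*} (key : V → V → ℝ)

theorem two_Jl {a b c d : Letter V X} (h : a.v = b.u ∧ a.v = c.v ∧ a.v = d.u)
    (h1 : a.y ≠ c.y) (h2 : b.y ≠ d.y) (ha : 0 < a.y) (hb : 0 < b.y) (hc : 0 < c.y) (hd : 0 < d.y) :
    2 * Jl key a b c d = om (b.pout key) (d.pout key) - om (a.pin key) (d.pout key)
      - om (b.pout key) (c.pin key) + om (a.pin key) (c.pin key) := by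
  rw [Jl_of_vertex key h]
  exact two_lk (pin_ne_pout key ha hb) (pin_ne_pin key h1) (pin_ne_pout key ha hd)
    (pin_ne_pout key hc hb).symm (pout_ne_pout key h2)

end letters

section swap

variable {S : Type*} [DecidableEq S]

theorem swap_order (y : S → ℤ) (hinj : Function.Injective y) (u v : S) (huv : y u < y v)
    (hadj : ∀ w, ¬ (y u < y w ∧ y w < y v)) (j l : S) (hjl : j ≠ l) (h1 : ¬ (j = u ∧ l = v))
    (h2 : ¬ (j = v ∧ l = u)) : y (Equiv.swap u v j) < y (Equiv.swap u v l) ↔ y j < y l := by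
  have hne : ∀ w, w ≠ u → w ≠ v → (y v < y w ↔ y u < y w) ∧ (y w < y v ↔ y w < y u) := by
    intro w hwu hwv
    have a1 : y w ≠ y u := fun h => hwu (hinj h)
    have a2 : y w ≠ y v := fun h => hwv (hinj h)
    have a3 := hadj w
    constructor
    · constructor
      · intro h; linarith
      · intro h
        by_contra hc
        exact a3 ⟨h, lt_of_le_of_ne (not_lt.1 hc) a2⟩
    · constructor
      · intro h
        by_contra hc
        exact a3 ⟨lt_of_le_of_ne (not_lt.1 hc) a1.symm, h⟩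
      · intro h; linarith
  by_cases hju : j = u
  · subst hju
    have hlv : l ≠ v := fun h => h1 ⟨rfl, h⟩
    rw [Equiv.swap_apply_left, Equiv.swap_apply_of_ne_of_ne hjl.symm hlv]
    exact (hne l hjl.symm hlv).1
  · by_cases hjv : j = v
    · subst hjv
      have hlu : l ≠ u := fun h => h2 ⟨rfl, h⟩
      rw [Equiv.swap_apply_right, Equiv.swap_apply_of_ne_of_ne hlu hjl.symm]
      exact (hne l hlu hjl.symm).1.symm
    · rw [Equiv.swap_apply_of_ne_of_ne hju hjv]
      by_cases hlu : l = u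
      · subst hlu
        rw [Equiv.swap_apply_left]
        exact (hne j hju hjv).2
      · by_cases hlv : l = v
        · subst hlv
          rw [Equiv.swap_apply_right]
          exact (hne j hju hjv).2.symm
        · rw [Equiv.swap_apply_of_ne_of_ne hlu hlv]

variable {V X : Type*} [PseudoMetricSpace X] {δ : ℝ}

theorem om_pout_swap (C : Cover V X δ) (D : S → Dart V X) (y : S → ℤ)
    (hinj : Function.Injective y) (u v : S) (huv : y u < y v)
    (hadj : ∀ w, ¬ (y u < y w ∧ y w < y v))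
    (hu : (D u).u = (D v).u) (hv : (D u).v = (D v).v) (j l : S) (hjl : j ≠ l) :
    om (((D j).at (y (Equiv.swap u v j))).pout C.key) (((D l).at (y (Equiv.swap u v l))).pout C.key)
      = om (((D j).at (y j)).pout C.key) (((D l).at (y l)).pout C.key)
        - 2 * (if j = u ∧ l = v then 1 else 0) + 2 * (if j = v ∧ l = u then 1 else 0) := by
  by_cases h1 : j = u ∧ l = v
  · obtain ⟨rfl, rfl⟩ := h1
    have h2 : ¬ (j = l ∧ l = j) := fun h => hjl h.1
    rw [if_pos ⟨rfl, rfl⟩, if_neg h2, Equiv.swap_apply_left, Equiv.swap_apply_right]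
    rw [om_of_gt, om_of_lt]
    · norm_num
    · rw [pout_lt_pout]; right; exact ⟨by simp [Dart.at, hu, hv], huv⟩
    · rw [pout_lt_pout]; right; exact ⟨by simp [Dart.at, hu, hv], huv⟩
  · by_cases h2 : j = v ∧ l = u
    · obtain ⟨rfl, rfl⟩ := h2
      rw [if_neg h1, if_pos ⟨rfl, rfl⟩, Equiv.swap_apply_left, Equiv.swap_apply_right]
      rw [om_of_lt, om_of_gt]
      · norm_num
      · rw [pout_lt_pout]; right; exact ⟨by simp [Dart.at, hu, hv], huv⟩
      · rw [pout_lt_pout]; right; exact ⟨by simp [Dart.at, hu, hv], huv⟩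
    · rw [if_neg h1, if_neg h2, mul_zero, sub_zero, add_zero]
      have o1 := swap_order y hinj u v huv hadj j l hjl h1 h2
      have o2 := swap_order y hinj u v huv hadj l j hjl.symm (fun h => h2 ⟨h.2, h.1⟩)
        (fun h => h1 ⟨h.2, h.1⟩)
      refine om_congr ?_ ?_
      · rw [pout_lt_pout, pout_lt_pout]
        simp only [Dart.at]
        rw [o1]
      · rw [pout_lt_pout, pout_lt_pout]
        simp only [Dart.at]
        rw [o2]

theorem om_pin_swap (C : Cover V X δ) (D : S → Dart V X) (y : S → ℤ)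
    (hinj : Function.Injective y) (u v : S) (huv : y u < y v)
    (hadj : ∀ w, ¬ (y u < y w ∧ y w < y v))
    (hu : (D u).u = (D v).u) (hv : (D u).v = (D v).v) (j l : S) (hjl : j ≠ l) :
    om (((D j).at (y (Equiv.swap u v j))).pin C.key) (((D l).at (y (Equiv.swap u v l))).pin C.key)
      = om (((D j).at (y j)).pin C.key) (((D l).at (y l)).pin C.key)
        + 2 * (if j = u ∧ l = v then 1 else 0) - 2 * (if j = v ∧ l = u then 1 else 0) := by
  by_cases h1 : j = u ∧ l = v
  · obtain ⟨rfl, rfl⟩ := h1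
    have h2 : ¬ (j = l ∧ l = j) := fun h => hjl h.1
    rw [if_pos ⟨rfl, rfl⟩, if_neg h2, Equiv.swap_apply_left, Equiv.swap_apply_right]
    rw [om_of_lt, om_of_gt]
    · norm_num
    · rw [pin_lt_pin]; right; exact ⟨by simp [Dart.at, hu, hv], huv⟩
    · rw [pin_lt_pin]; right; exact ⟨by simp [Dart.at, hu, hv], huv⟩
  · by_cases h2 : j = v ∧ l = u
    · obtain ⟨rfl, rfl⟩ := h2
      rw [if_neg h1, if_pos ⟨rfl, rfl⟩, Equiv.swap_apply_left, Equiv.swap_apply_right]
      rw [om_of_gt, om_of_lt]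
      · norm_num
      · rw [pin_lt_pin]; right; exact ⟨by simp [Dart.at, hu, hv], huv⟩
      · rw [pin_lt_pin]; right; exact ⟨by simp [Dart.at, hu, hv], huv⟩
    · rw [if_neg h1, if_neg h2, mul_zero, sub_zero, add_zero]
      have o1 := swap_order y hinj u v huv hadj j l hjl h1 h2
      have o2 := swap_order y hinj u v huv hadj l j hjl.symm (fun h => h2 ⟨h.2, h.1⟩)
        (fun h => h1 ⟨h.2, h.1⟩)
      refine om_congr ?_ ?_
      · rw [pin_lt_pin, pin_lt_pin]
        simp only [Dart.at]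
        rw [o2]
      · rw [pin_lt_pin, pin_lt_pin]
        simp only [Dart.at]
        rw [o1]

theorem JS_swap (C : Cover V X δ) (D : S → Dart V X) (y : S → ℤ)
    (hpos : ∀ i, 0 < y i) (hinj : Function.Injective y) (u v : S) (huv : y u < y v)
    (hadj : ∀ w, ¬ (y u < y w ∧ y w < y v))
    (hu : (D u).u = (D v).u) (hv : (D u).v = (D v).v) (x₁ y₁ x₂ y₂ : S) (hx : x₁ ≠ x₂)
    (hy : y₁ ≠ y₂) (h1 : adjS D x₁ y₁) (h2 : adjS D x₂ y₂) (h3 : adjS D x₁ y₂)
    (h4 : adjS D x₂ y₁) :
    JS C D (fun i => y (Equiv.swap u v i)) x₁ y₁ x₂ y₂ = JS C D y x₁ y₁ x₂ y₂ +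
      1 * ((if x₁ = u ∧ x₂ = v then 1 else 0)
        - (if x₁ = v ∧ x₂ = u then 1 else 0) - (if y₁ = u ∧ y₂ = v then 1 else 0)
        + (if y₁ = v ∧ y₂ = u then 1 else 0)) := by
  have hv' : (D x₁).v = (D y₁).u ∧ (D x₁).v = (D x₂).v ∧ (D x₁).v = (D y₂).u :=
    ⟨h1, h1.trans h4.symm, h3⟩
  have e1 := two_Jl C.key (a := (D x₁).at (y x₁)) (b := (D y₁).at (y y₁)) (c := (D x₂).at (y x₂))
    (d := (D y₂).at (y y₂)) hv' (fun h => hx (hinj h)) (fun h => hy (hinj h)) (hpos _) (hpos _)
    (hpos _) (hpos _)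
  have hinj' : Function.Injective (fun i => y (Equiv.swap u v i)) :=
    hinj.comp (Equiv.swap u v).injective
  have e2 := two_Jl C.key (a := (D x₁).at (y (Equiv.swap u v x₁)))
    (b := (D y₁).at (y (Equiv.swap u v y₁))) (c := (D x₂).at (y (Equiv.swap u v x₂)))
    (d := (D y₂).at (y (Equiv.swap u v y₂))) hv' (fun h => hx (hinj' h)) (fun h => hy (hinj' h))
    (hpos _) (hpos _) (hpos _) (hpos _)
  rw [om_pout_swap C D y hinj u v huv hadj hu hv y₁ y₂ hy,
    om_pin_swap C D y hinj u v huv hadj hu hv x₁ x₂ hx] at e2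
  have m1 : om (((D x₁).at (y (Equiv.swap u v x₁))).pin C.key)
      (((D y₂).at (y (Equiv.swap u v y₂))).pout C.key) =
      om (((D x₁).at (y x₁)).pin C.key) (((D y₂).at (y y₂)).pout C.key) := by
    refine om_congr ?_ ?_
    · rw [pin_lt_pout C.key (hpos _) (hpos _), pin_lt_pout C.key (hpos _) (hpos _)]; rfl
    · rw [pout_lt_pin C.key (hpos _) (hpos _), pout_lt_pin C.key (hpos _) (hpos _)]; rfl
  have m2 : om (((D y₁).at (y (Equiv.swap u v y₁))).pout C.key)
      (((D x₂).at (y (Equiv.swap u v x₂))).pin C.key) =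
      om (((D y₁).at (y y₁)).pout C.key) (((D x₂).at (y x₂)).pin C.key) := by
    refine om_congr ?_ ?_
    · rw [pout_lt_pin C.key (hpos _) (hpos _), pout_lt_pin C.key (hpos _) (hpos _)]; rfl
    · rw [pin_lt_pout C.key (hpos _) (hpos _), pin_lt_pout C.key (hpos _) (hpos _)]; rfl
  rw [m1, m2] at e2
  unfold JS
  have h2' : (2 : ℤ) ≠ 0 := two_ne_zero
  refine mul_left_cancel₀ h2' ?_
  linear_combination e2 - e1

/-- replacing `u` by `v` -/
theorem JS_rep (C : Cover V X δ) (D : S → Dart V X) (hD : ∀ i, Adm C (D i)) (y : S → ℤ)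
    (hpos : ∀ i, 0 < y i) (hinj : Function.Injective y) (u v : S) (huv : y u < y v)
    (hadj : ∀ w, ¬ (y u < y w ∧ y w < y v))
    (hu : (D u).u = (D v).u) (hv : (D u).v = (D v).v) (x₁ y₁ x₂ y₂ : S) (h1 : x₁ ≠ v)
    (h2 : y₁ ≠ v) (h3 : x₂ ≠ v) (h4 : y₂ ≠ v) :
    JS C D y (if x₁ = u then v else x₁) (if y₁ = u then v else y₁) (if x₂ = u then v else x₂)
        (if y₂ = u then v else y₂) = JS C D y x₁ y₁ x₂ y₂ := by
  have hd : ∀ i, (D i).u = (D (if i = u then v else i)).u ∧
      (D i).v = (D (if i = u then v else i)).v := by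
    intro i
    by_cases h : i = u
    · subst h; simp [hu, hv]
    · simp [h]
  have ho : ∀ i k, i ≠ v → k ≠ v →
      (y i < y k ↔ y (if i = u then v else i) < y (if k = u then v else k)) := by
    intro i k hi hk
    have hne : ∀ w, w ≠ u → w ≠ v → (y v < y w ↔ y u < y w) ∧ (y w < y v ↔ y w < y u) := by
      intro w hwu hwv
      have a1 : y w ≠ y u := fun h => hwu (hinj h)
      have a2 : y w ≠ y v := fun h => hwv (hinj h)
      have a3 := hadj w
      constructor
      · constructor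
        · intro h; linarith
        · intro h
          by_contra hc
          exact a3 ⟨h, lt_of_le_of_ne (not_lt.1 hc) a2⟩
      · constructor
        · intro h
          by_contra hc
          exact a3 ⟨lt_of_le_of_ne (not_lt.1 hc) a1.symm, h⟩
        · intro h; linarith
    by_cases h : i = u
    · subst h
      by_cases h' : k = i
      · subst h'; simp
      · simp only [if_true, if_neg h']
        exact (hne k h' hk).1.symm
    · by_cases h' : k = u
      · subst h'
        simp only [if_true, if_neg h]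
        exact (hne i h hi).2.symm
      · simp [h, h']
  exact (JS_congr C D D hD y y hpos hpos (fun i => if i = u then v else i) x₁ y₁ x₂ y₂
    (hd _) (hd _) (hd _) (hd _) (fun _ _ => ⟨ho _ _ h1 h3, ho _ _ h3 h1⟩)
    (fun _ _ => ⟨ho _ _ h2 h4, ho _ _ h4 h2⟩)).symm

end swap

end Pool.Agent.Helper21.Cut
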