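import Pool.Agent.Helper21.Cut.Swap
import Pool.Agent.Helper84.Cut.Swap

/-!
# The invariant is unchanged when two adjacent lateral positions are exchanged (MP_86dbc7_gt)
-/

namespace Pool.Agent.Helper21.Cut

section rot

variable {S : Type*} {R : Type*} [CommRing R]

theorem nuC_rot_one {p : ℕ} (hp : p.Prime) [CharP R p]
    (J : S → S → S → S → ℤ) (lam : List S → R)
    (hA : ∀ x y z w, x ≠ z → y ≠ w → J x y z w = - J z w x y)
    (hQ : ∀ x₁ x₂ x₃ y₁ y₂ y₃, x₁ ≠ x₂ → x₂ ≠ x₃ → x₁ ≠ x₃ → y₁ ≠ y₂ → y₂ ≠ y₃ → y₁ ≠ y₃ →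
      J x₁ y₁ x₂ y₂ * J x₁ y₂ x₃ y₃ + J x₂ y₂ x₃ y₃ * J x₂ y₃ x₁ y₁
        + J x₃ y₃ x₁ y₁ * J x₃ y₁ x₂ y₂ = 0)
    (hrot : ∀ A B, lam (A ++ B) = lam (B ++ A)) (x : S) (W : List S) (hnd : (x :: W).Nodup) :
    nuC J lam (p - 1) (x :: W) = nuC J lam (p - 1) (W ++ [x]) := by
  cases W with
  | nil => rfl
  | cons y W => exact base_change_prime hp J lam hA hQ hrot x y W hnd

theorem nuC_rot {p : ℕ} (hp : p.Prime) [CharP R p]
    (J : S → S → S → S → ℤ) (lam : List S → R)
    (hA : ∀ x y z w, x ≠ z → y ≠ w → J x y z w = - J z w x y)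
    (hQ : ∀ x₁ x₂ x₃ y₁ y₂ y₃, x₁ ≠ x₂ → x₂ ≠ x₃ → x₁ ≠ x₃ → y₁ ≠ y₂ → y₂ ≠ y₃ → y₁ ≠ y₃ →
      J x₁ y₁ x₂ y₂ * J x₁ y₂ x₃ y₃ + J x₂ y₂ x₃ y₃ * J x₂ y₃ x₁ y₁
        + J x₃ y₃ x₁ y₁ * J x₃ y₁ x₂ y₂ = 0)
    (hrot : ∀ A B, lam (A ++ B) = lam (B ++ A)) (A B : List S) (hnd : (A ++ B).Nodup) :
    nuC J lam (p - 1) (A ++ B) = nuC J lam (p - 1) (B ++ A) := by
  induction A generalizing B with
  | nil => simp
  | cons a A ih =>
    have h1 := nuC_rot_one hp J lam hA hQ hrot a (A ++ B) hnd
    have hnd' : (A ++ (B ++ [a])).Nodup := by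
      rw [← List.append_assoc]
      have : ((A ++ B) ++ [a]).Perm (a :: (A ++ B)) := by
        simpa using (List.perm_append_comm (l₁ := A ++ B) (l₂ := [a]))
      exact this.nodup_iff.2 hnd
    have h2 := ih (B ++ [a]) hnd'
    rw [List.cons_append, h1, List.append_assoc, h2, List.append_assoc]
    rfl

end rot

section mesh

variable {X : Type*} [PseudoMetricSpace X]

theorem mesh_iff_validC {δ : ℝ} (l : List X) : Mesh δ l ↔ ValidC (fun x y => dist x y ≤ δ) l := by
  cases l <;> exact Iff.rfl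

theorem mesh_rot {δ : ℝ} {A B : List X} (h : Mesh δ (A ++ B)) : Mesh δ (B ++ A) := by
  rw [mesh_iff_validC] at *
  exact validC_rot h

theorem mesh_cons_cons {δ : ℝ} {z a : X} {l : List X} (h : Mesh δ (a :: l)) (h1 : dist z a ≤ δ)
    (h2 : dist ((a :: l).getLastD a) z ≤ δ) : Mesh δ (z :: a :: l) := by
  rw [mesh_iff_cyc _ (by simp) a] at *
  refine ⟨?_, ?_⟩
  · rw [List.isChain_cons_cons]
    exact ⟨h1, h.1⟩
  · simpa using h2

theorem mesh_last {δ : ℝ} {z : X} {l : List X} (hl : l ≠ []) (h : Mesh δ (z :: l)) (d : X) :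
    dist (l.getLastD d) z ≤ δ := by
  rw [mesh_iff_cyc _ (by simp) d] at h
  have h2 := h.2
  rw [List.headD_cons] at h2
  have : (z :: l).getLastD d = l.getLastD d := getLastD_append_of_ne (A := [z]) hl d d
  rwa [this] at h2

end mesh

section setting

variable {S : Type*} {V X : Type*} [PseudoMetricSpace X] {δ : ℝ}

theorem JS_antisymm (C : Cover V X δ) (D : S → Dart V X) (y : S → ℤ) (hpos : ∀ i, 0 < y i)
    (hinj : Function.Injective y) (i j k l : S) (h1 : i ≠ k) (h2 : j ≠ l) :
    JS C D y i j k l = - JS C D y k l i j :=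
  Jl_antisymm C.key _ _ _ _ (fun h => h1 (hinj h)) (fun h => h2 (hinj h)) (hpos _) (hpos _)
    (hpos _) (hpos _)

theorem JS_quad (C : Cover V X δ) (D : S → Dart V X) (y : S → ℤ) (hpos : ∀ i, 0 < y i)
    (hinj : Function.Injective y) (x₁ x₂ x₃ y₁ y₂ y₃ : S) (h12 : x₁ ≠ x₂) (h23 : x₂ ≠ x₃)
    (h13 : x₁ ≠ x₃) (k12 : y₁ ≠ y₂) (k23 : y₂ ≠ y₃) (k13 : y₁ ≠ y₃) :
    JS C D y x₁ y₁ x₂ y₂ * JS C D y x₁ y₂ x₃ y₃ + JS C D y x₂ y₂ x₃ y₃ * JS C D y x₂ y₃ x₁ y₁
        + JS C D y x₃ y₃ x₁ y₁ * JS C D y x₃ y₁ x₂ y₂ = 0 :=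
  Jl_quad C.key _ _ _ _ _ _ (fun h => h12 (hinj h)) (fun h => h23 (hinj h))
    (fun h => h13 (hinj h)) (fun h => k12 (hinj h)) (fun h => k23 (hinj h))
    (fun h => k13 (hinj h)) (hpos _) (hpos _) (hpos _) (hpos _) (hpos _) (hpos _)

theorem dec_rot {R : Type*} [Zero R] {ρ Λ : ℝ} {lab : List X → R} (hlab : LabOK δ ρ Λ lab)
    (D : S → Dart V X) (A B : List S) : lab (dec D (A ++ B)) = lab (dec D (B ++ A)) := by
  rw [dec_append, dec_append, hlab.rot]

theorem nuC_JS_rot {p : ℕ} [Fact p.Prime] (C : Cover V X δ) {ρ Λ : ℝ} {lab : List X → ZMod p}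
    (hlab : LabOK δ ρ Λ lab) (D : S → Dart V X) (y : S → ℤ) (hpos : ∀ i, 0 < y i)
    (hinj : Function.Injective y) (A B : List S) (hnd : (A ++ B).Nodup) :
    nuC (JS C D y) (fun B => lab (dec D B)) (p - 1) (A ++ B) =
      nuC (JS C D y) (fun B => lab (dec D B)) (p - 1) (B ++ A) :=
  nuC_rot (Fact.out : p.Prime) _ _ (JS_antisymm C D y hpos hinj) (JS_quad C D y hpos hinj)
    (dec_rot hlab D) A B hnd

/-- replacing a point by a near one -/
theorem plen_replace (z z' : X) (l : List X) (h : dist z z' ≤ δ) :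
    plen (z' :: l) ≤ plen (z :: l) + 2 * δ := by
  cases l with
  | nil =>
    have := dist_nonneg (x := z) (y := z')
    simp [plen, walkLen]
    linarith
  | cons a l =>
    rw [plen_cons_cons, plen_cons_cons]
    have h1 := dist_triangle ((a :: l).getLastD a) z z'
    have h2 := dist_triangle z' z a
    rw [dist_comm z' z] at h2
    linarith

theorem lab_replace {R : Type*} [Zero R] {ρ Λ : ℝ} {lab : List X → R} (hlab : LabOK δ ρ Λ lab)
    (z z' a : X) (l : List X) (h : dist z z' ≤ δ) (hm : Mesh δ (z :: a :: l))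
    (hm' : Mesh δ (z' :: a :: l)) (hlen : plen (z :: a :: l) + 2 * δ < Λ)
    (hlen' : plen (z' :: a :: l) < Λ) : lab (z' :: a :: l) = lab (z :: a :: l) := by
  have hδ : 0 ≤ δ := dist_nonneg.trans h
  -- the long polygon
  have hmm : Mesh δ (z' :: z :: a :: l) := by
    refine mesh_cons_cons hm ?_ ?_
    · rw [dist_comm]; exact h
    · have := mesh_last (l := a :: l) (by simp) hm' z
      simpa using this
  have hl2 : plen (z' :: z :: a :: l) < Λ := by
    rw [plen_cons_cons z' z]
    have h1 := mesh_last (l := a :: l) (by simp) hm' z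
    have h2 := dist_nonneg (x := (z :: a :: l).getLastD z) (y := z)
    rw [dist_comm z' z]
    have h3 : (z :: a :: l).getLastD z = (a :: l).getLastD z := by simp
    rw [h3] at h2 ⊢
    linarith
  have e1 := hlab.ins z' z (a :: l) hm hmm (by linarith) hl2
  -- the other way
  have hm2 : Mesh δ (a :: (l ++ [z'])) := by
    have := mesh_rot (A := [z']) (B := a :: l) hm'
    simpa using this
  have hmm2 : Mesh δ (z :: a :: (l ++ [z'])) := by
    have := mesh_rot (A := [z']) (B := z :: a :: l) hmm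
    simpa using this
  have hl3 : plen (a :: (l ++ [z'])) = plen (z' :: a :: l) := by
    have := plen_rot [z'] (a :: l)
    simpa using this.symm
  have hl4 : plen (z :: a :: (l ++ [z'])) = plen (z' :: z :: a :: l) := by
    have := plen_rot [z'] (z :: a :: l)
    simpa using this.symm
  have e2 := hlab.ins z a (l ++ [z']) hm2 hmm2 (by rw [hl3]; exact hlen') (by rw [hl4]; exact hl2)
  have r1 : lab (a :: (l ++ [z'])) = lab (z' :: a :: l) := by
    have := hlab.rot [z'] (a :: l)
    simpa using this.symm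
  have r2 : lab (z :: a :: (l ++ [z'])) = lab (z' :: z :: a :: l) := by
    have := hlab.rot [z'] (z :: a :: l)
    simpa using this.symm
  rw [← r1, ← e2, r2, e1]

variable [DecidableEq S]

/-- exchange of two adjacent positions on the same dart, with a base letter which is not touched -/
theorem nu_swap_base {p : ℕ} [Fact p.Prime] (C : Cover V X δ) (hδ : 0 ≤ δ) {ρ Λ Lw : ℝ}
    {lab : List X → ZMod p} (hlab : LabOK δ ρ Λ lab) (hρ : 4 * δ ≤ ρ) (hΛ : Lw - ρ + 8 * δ < Λ)
    (D : S → Dart V X) (hD : ∀ i, Adm C (D i)) (y : S → ℤ) (hpos : ∀ i, 0 < y i)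
    (hinj : Function.Injective y) (u v : S) (huv : y u < y v)
    (hadj : ∀ w, ¬ (y u < y w ∧ y w < y v)) (hu : (D u).u = (D v).u) (hv : (D u).v = (D v).v)
    (b : S) (W : List S) (hnd : (b :: W).Nodup) (hW : ValidC (adjS D) (b :: W)) (hbu : b ≠ u)
    (hbv : b ≠ v) (hlen : plen (dec D (b :: W)) ≤ Lw) :
    nu (JS C D (fun i => y (Equiv.swap u v i))) (fun B => lab (dec D B)) (p - 1) b W =
      nu (JS C D y) (fun B => lab (dec D B)) (p - 1) b W := by
  have hp := (Fact.out : p.Prime).two_le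
  have hnear : dist (D u).z (D v).z ≤ δ := C.diam _ _ (hD u).mu _ (hu ▸ (hD v).mu)
  have hpar1 : ∀ x, adjS D x u ↔ adjS D x v := by
    intro x; unfold adjS; rw [hu]
  have hpar2 : ∀ x, adjS D u x ↔ adjS D v x := by
    intro x; unfold adjS; rw [hv]
  have hpar3 : ¬ adjS D u u := by
    unfold adjS; exact (hD u).ne.symm
  have hval : ∀ B, ValidC (adjS D) (u :: B) → ValidC (adjS D) (v :: B) := by
    intro B hB
    cases B with
    | nil =>
      exfalso
      have : List.IsChain (adjS D) [u, u] := hB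
      simp at this
      exact hpar3 this
    | cons w B =>
      rw [validC_iff _ (by simp) w] at hB ⊢
      obtain ⟨h1, h2⟩ := hB
      rw [List.isChain_cons_cons] at h1 ⊢
      refine ⟨⟨(hpar2 w).1 h1.1, h1.2⟩, ?_⟩
      simp only [List.headD_cons, List.getLastD_cons] at h2 ⊢
      exact (hpar1 _).1 h2
  refine Pool.Agent.Helper84.Cut.nu_swap (JS C D y) (JS C D (fun i => y (Equiv.swap u v i))) (adjS D)
    (fun B => lab (dec D B)) (fun B => plen (dec D B) - 2 * δ) (ρ - 4 * δ) (2 * δ) (Lw - 2 * δ)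
    (by linarith) (by linarith) (adjS_adj D) (fun a b c d h => JS_ne_zero h)
    (fun a b c d h => JS_ne_zero h) ?_ ?_ (dec_rot hlab D) ?_ u v (fun h => by
      rw [h] at huv; exact lt_irrefl _ huv) 1 hpar1 hpar2 hpar3
    (fun x₁ y₁ x₂ y₂ hx hy h1 h2 h3 h4 => JS_swap C D y hpos hinj u v huv hadj hu hv x₁ y₁ x₂ y₂
      hx hy h1 h2 h3 h4)
    (fun x y' z w h1 h2 h3 h4 => JS_rep C D hD y hpos hinj u v huv hadj hu hv x y' z w h1 h2 h3 h4)
    ?_ ?_ (p - 1) b W hnd hW hbu hbv (by simpa using hlen) (fun h => by omega)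
  · intro B hB
    have := hlab.low _ hB
    linarith
  · intro b A B E hB _ hJ
    rcases hJ with hJ | hJ
    · exact cut_len C D hD _ b A B E hB hJ
    · exact cut_len C D hD _ b A B E hB hJ
  · intro A B
    simp only [dec_append]
    rw [plen_rot]
  · intro B _ _ _
    simp only [dec_cons]
    have h1 := plen_replace (D u).z (D v).z (dec D B) hnear
    have h2 := plen_replace (δ := δ) (D v).z (D u).z (dec D B) (by rw [dist_comm]; exact hnear)
    constructor <;> linarith
  · intro B hnd' hvB hB h1 h2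
    have hm := mesh_dec C D hD _ hB
    have hm' := mesh_dec C D hD _ (hval B hB)
    cases B with
    | nil =>
      exfalso
      have : List.IsChain (adjS D) [u, u] := hB
      simp at this
      exact hpar3 this
    | cons w B =>
      simp only [dec_cons] at *
      exact lab_replace hlab _ _ _ _ hnear hm hm' (by linarith) (by linarith)

/-- exchange of two adjacent positions -/
theorem nuC_swap {p : ℕ} [Fact p.Prime] (C : Cover V X δ) (hδ : 0 ≤ δ) {ρ Λ Lw : ℝ}
    {lab : List X → ZMod p} (hlab : LabOK δ ρ Λ lab) (hρ : 4 * δ ≤ ρ) (hΛ : Lw - ρ + 8 * δ < Λ)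
    (D : S → Dart V X) (hD : ∀ i, Adm C (D i)) (y : S → ℤ) (hpos : ∀ i, 0 < y i)
    (hinj : Function.Injective y) (u v : S) (huv : y u < y v)
    (hadj : ∀ w, ¬ (y u < y w ∧ y w < y v))
    (W : List S) (hnd : W.Nodup) (hW : ValidC (adjS D) W) (hlen : plen (dec D W) ≤ Lw) :
    nuC (JS C D (fun i => y (Equiv.swap u v i))) (fun B => lab (dec D B)) (p - 1) W =
      nuC (JS C D y) (fun B => lab (dec D B)) (p - 1) W := by
  by_cases hd : (D u).u = (D v).u ∧ (D u).v = (D v).v
  · obtain ⟨hu, hv⟩ := hd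
    cases W with
    | nil => rfl
    | cons b W =>
      by_cases hb : b ≠ u ∧ b ≠ v
      · exact nu_swap_base C hδ hlab hρ hΛ D hD y hpos hinj u v huv hadj hu hv b W hnd hW hb.1 hb.2
          hlen
      · cases W with
        | nil =>
          exfalso
          have : List.IsChain (adjS D) [b, b] := hW
          simp [adjS] at this
          exact (hD b).ne this.symm
        | cons c W =>
          have hbc : adjS D b c := by
            rw [validC_iff _ (by simp) b] at hW
            have := hW.1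
            rw [List.isChain_cons_cons] at this
            exact this.1
          have hbv' : (D b).v = (D u).v := by
            by_cases h : b = u
            · rw [h]
            · have : b = v := by
                by_contra h'
                exact hb ⟨h, h'⟩
              rw [this, hv]
          have hcu : (D c).u = (D u).v := by
            unfold adjS at hbc
            rw [← hbc, hbv']
          have hc : c ≠ u ∧ c ≠ v := by
            constructor
            · rintro rfl
              exact (hD c).ne hcu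
            · rintro rfl
              rw [← hu] at hcu
              exact (hD u).ne hcu
          have hinj' : Function.Injective (fun i => y (Equiv.swap u v i)) :=
            hinj.comp (Equiv.swap u v).injective
          have r1 := nuC_JS_rot C hlab D (fun i => y (Equiv.swap u v i)) (fun i => hpos _) hinj'
            [b] (c :: W) hnd
          have r2 := nuC_JS_rot C hlab D y hpos hinj [b] (c :: W) hnd
          simp only [List.singleton_append, List.cons_append, List.nil_append] at r1 r2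
          rw [r1, r2]
          have hW' : ValidC (adjS D) (c :: (W ++ [b])) := validC_rot (A := [b]) (B := c :: W) hW
          have hnd' : (c :: (W ++ [b])).Nodup := by
            have : (c :: (W ++ [b])).Perm (b :: c :: W) := by
              simpa using (List.perm_append_comm (l₁ := c :: W) (l₂ := [b]))
            exact this.nodup_iff.2 hnd
          have hlen' : plen (dec D (c :: (W ++ [b]))) ≤ Lw := by
            have : plen (dec D (c :: (W ++ [b]))) = plen (dec D (b :: c :: W)) := by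
              have h := plen_rot (dec D [b]) (dec D (c :: W))
              rw [← dec_append, ← dec_append] at h
              simpa using h.symm
            rw [this]; exact hlen
          exact nu_swap_base C hδ hlab hρ hΛ D hD y hpos hinj u v huv hadj hu hv c (W ++ [b])
            hnd' hW' hc.1 hc.2 hlen'
  · have hJ : JS C D (fun i => y (Equiv.swap u v i)) = JS C D y := by
      funext i j k l
      have ho : ∀ i k, (D i).u = (D k).u → (D i).v = (D k).v →
          (y (Equiv.swap u v i) < y (Equiv.swap u v k) ↔ y i < y k) := by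
        intro i k h1 h2
        by_cases hik : i = k
        · subst hik; simp
        · refine swap_order y hinj u v huv hadj i k hik ?_ ?_
          · rintro ⟨rfl, rfl⟩; exact hd ⟨h1, h2⟩
          · rintro ⟨rfl, rfl⟩; exact hd ⟨h1.symm, h2.symm⟩
      exact JS_congr C D D hD _ _ (fun i => hpos _) hpos id i j k l ⟨rfl, rfl⟩ ⟨rfl, rfl⟩
        ⟨rfl, rfl⟩ ⟨rfl, rfl⟩ (fun h1 h2 => ⟨ho _ _ h1 h2, ho _ _ h1.symm h2.symm⟩)
        (fun h1 h2 => ⟨ho _ _ h1 h2, ho _ _ h1.symm h2.symm⟩)
    rw [hJ]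

end setting

end Pool.Agent.Helper21.Cut
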