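import Pool.Agent.Helper21.Cut.NWMoves

/-!
# Triangle relations for closed walks (MP_86dbc7_gt)
-/

namespace Pool.Agent.Helper21.Cut

section relabel

variable {S : Type*} {V X : Type*} [PseudoMetricSpace X] {δ : ℝ}
variable {p : ℕ} [Fact p.Prime] (C : Cover V X δ) (hδ : 0 ≤ δ) {ρ Λ Lw : ℝ}
    {lab : List X → ZMod p} (hlab : LabOK δ ρ Λ lab) (hρ : 4 * δ < ρ) (hΛ : Lw - ρ + 8 * δ < Λ)

include hδ hlab hρ hΛ in
/-- change of the decoration of one dart -/
theorem nuC_relabel (D D' : S → Dart V X) (hD : ∀ i, Adm C (D i)) (hD' : ∀ i, Adm C (D' i))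
    (u : S) (hu : ∀ i, i ≠ u → D i = D' i) (h1 : (D u).u = (D' u).u) (h2 : (D u).v = (D' u).v)
    (y : S → ℤ) (hpos : ∀ i, 0 < y i) (W : List S) (hnd : W.Nodup) (hW : ValidC (adjS D) W)
    (hlen : plen (dec D W) ≤ Lw) (hlen' : plen (dec D' W) ≤ Lw) :
    nuC (JS C D y) (fun B => lab (dec D B)) (p - 1) W =
      nuC (JS C D' y) (fun B => lab (dec D' B)) (p - 1) W := by
  classical
  have hp := (Fact.out : p.Prime).two_le
  have hdd : ∀ i, (D i).u = (D' i).u ∧ (D i).v = (D' i).v := by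
    intro i
    by_cases h : i = u
    · subst h; exact ⟨h1, h2⟩
    · rw [hu i h]; exact ⟨rfl, rfl⟩
  have hJ : JS C D y = JS C D' y := by
    funext i j k l
    exact JS_congr C D D' hD y y hpos hpos id i j k l (hdd i) (hdd j) (hdd k) (hdd l)
      (fun _ _ => ⟨Iff.rfl, Iff.rfl⟩) (fun _ _ => ⟨Iff.rfl, Iff.rfl⟩)
  have hadj : adjS D = adjS D' := by
    funext i j
    unfold adjS
    rw [(hdd i).2, (hdd j).1]
  rw [hJ]
  have hnear : dist (D u).z (D' u).z ≤ δ := C.diam _ _ (hD u).mu _ (h1 ▸ (hD' u).mu)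
  have hsame : ∀ B : List S, u ∉ B → dec D B = dec D' B := by
    intro B hB
    unfold dec
    refine List.map_congr_left fun i hi => ?_
    rw [hu i (fun h => hB (h ▸ hi))]
  cases W with
  | nil => rfl
  | cons b W =>
    refine nu_relabel (JS C D' y) (adjS D) (fun B => lab (dec D B)) (fun B => lab (dec D' B))
      (fun B => plen (dec D B) - 2 * δ) (fun B => plen (dec D' B) - 2 * δ) (ρ - 4 * δ) (2 * δ)
      (Lw - 2 * δ) (by linarith) (by linarith) (fun a b c d h => ?_) (fun B hB => ?_)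
      (fun B hB => ?_) ?_ ?_ ?_ ?_ (p - 1) b W hnd hW (by linarith) (by linarith)
      (fun h => by omega)
    · rw [hadj]; exact JS_ne_zero h
    · have := hlab.low _ hB
      linarith
    · have := hlab.low _ hB
      linarith
    · intro b A B E hB _ hJ0
      rw [← hJ] at hJ0
      exact cut_len C D hD _ b A B E hB hJ0
    · intro b A B E hB _ hJ0
      exact cut_len C D' hD' _ b A B E hB hJ0
    · intro B hndB _
      by_cases huB : u ∈ B
      · obtain ⟨B₁, B₂, rfl⟩ := List.append_of_mem huB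
        have hnd2 : u ∉ B₂ ++ B₁ := by
          rw [List.nodup_append] at hndB
          obtain ⟨n1, n2, n3⟩ := hndB
          rw [List.mem_append, not_or]
          rw [List.nodup_cons] at n2
          exact ⟨n2.1, fun h => n3 u h u (by simp) rfl⟩
        have e1 : plen (dec D (B₁ ++ u :: B₂)) = plen ((D u).z :: dec D (B₂ ++ B₁)) := by
          rw [dec_append, plen_rot, ← dec_append]; rfl
        have e2 : plen (dec D' (B₁ ++ u :: B₂)) = plen ((D' u).z :: dec D (B₂ ++ B₁)) := by
          rw [dec_append, plen_rot, ← dec_append, hsame _ hnd2]; rfl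
        have a1 := plen_replace (D u).z (D' u).z (dec D (B₂ ++ B₁)) hnear
        have a2 := plen_replace (δ := δ) (D' u).z (D u).z (dec D (B₂ ++ B₁))
          (by rw [dist_comm]; exact hnear)
        simp only [e1, e2]
        constructor <;> linarith
      · simp only [hsame B huB]
        constructor <;> linarith
    · intro B hndB hB a1 a2
      by_cases huB : u ∈ B
      · obtain ⟨B₁, B₂, rfl⟩ := List.append_of_mem huB
        have hnd2 : u ∉ B₂ ++ B₁ := by
          rw [List.nodup_append] at hndB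
          obtain ⟨n1, n2, n3⟩ := hndB
          rw [List.mem_append, not_or]
          rw [List.nodup_cons] at n2
          exact ⟨n2.1, fun h => n3 u h u (by simp) rfl⟩
        have e1 : plen (dec D (B₁ ++ u :: B₂)) = plen ((D u).z :: dec D (B₂ ++ B₁)) := by
          rw [dec_append, plen_rot, ← dec_append]; rfl
        have e2 : plen (dec D' (B₁ ++ u :: B₂)) = plen ((D' u).z :: dec D (B₂ ++ B₁)) := by
          rw [dec_append, plen_rot, ← dec_append, hsame _ hnd2]; rfl
        have f1 : lab (dec D (B₁ ++ u :: B₂)) = lab ((D u).z :: dec D (B₂ ++ B₁)) := by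
          rw [dec_append, hlab.rot, ← dec_append]; rfl
        have f2 : lab (dec D' (B₁ ++ u :: B₂)) = lab ((D' u).z :: dec D (B₂ ++ B₁)) := by
          rw [dec_append, hlab.rot, ← dec_append, hsame _ hnd2]; rfl
        simp only [e1, e2] at a1 a2
        simp only [f1, f2]
        have hv : ValidC (adjS D) (u :: (B₂ ++ B₁)) := validC_rot hB
        have hm := mesh_dec C D hD _ hv
        rw [hadj] at hv
        have hm' := mesh_dec C D' hD' _ hv
        rw [dec_cons] at hm
        rw [dec_cons, ← hsame _ hnd2] at hm'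
        cases hE : B₂ ++ B₁ with
        | nil =>
          exfalso
          rw [hE] at hv
          have : List.IsChain (adjS D') [u, u] := hv
          simp [adjS] at this
          exact (hD' u).ne this.symm
        | cons e E =>
          rw [hE, dec_cons] at hm hm'
          simp only [hE, dec_cons] at a1 a2 ⊢
          exact (lab_replace hlab _ _ _ _ hnear hm hm' (by linarith) (by linarith)).symm
      · simp only [hsame B huB]

end relabel

section walks

variable {V X : Type*} [PseudoMetricSpace X] {δ : ℝ}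

/-- open walks -/
def OW (C : Cover V X δ) : V → List (Dart V X) → V → Prop
  | a, [], b => a = b
  | a, d :: w, b => d.u = a ∧ Adm C d ∧ OW C d.v w b

theorem OW.append {C : Cover V X δ} {a b c : V} {w w' : List (Dart V X)} (h : OW C a w b)
    (h' : OW C b w' c) : OW C a (w ++ w') c := by
  induction w generalizing a with
  | nil => rw [show a = b from h]; exact h'
  | cons d w ih => exact ⟨h.1, h.2.1, ih h.2.2⟩

theorem OW.adm {C : Cover V X δ} {a b : V} {w : List (Dart V X)} (h : OW C a w b) :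
    ∀ d ∈ w, Adm C d := by
  induction w generalizing a with
  | nil => simp
  | cons d w ih =>
    intro e he
    simp only [List.mem_cons] at he
    rcases he with rfl | he
    · exact h.2.1
    · exact ih h.2.2 e he

theorem OW.chain {C : Cover V X δ} {a b : V} {w : List (Dart V X)} (h : OW C a w b) :
    List.IsChain (fun d e => d.v = e.u) w ∧ (∀ d ∈ w.head?, d.u = a) ∧
      (∀ d ∈ w.getLast?, d.v = b) := by
  induction w generalizing a with
  | nil => simp
  | cons d w ih =>
    obtain ⟨h1, h2, h3⟩ := ih h.2.2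
    refine ⟨?_, ?_, ?_⟩
    · cases w with
      | nil => simp
      | cons e w =>
        rw [List.isChain_cons_cons]
        exact ⟨(h2 e (by simp)).symm, h1⟩
    · intro e he
      simp only [List.head?_cons, Option.mem_def, Option.some.injEq] at he
      rw [← he]; exact h.1
    · intro e he
      cases w with
      | nil =>
        simp only [List.getLast?_singleton, Option.mem_def, Option.some.injEq] at he
        rw [← he]; exact h.2.2
      | cons f w =>
        rw [List.getLast?_cons_cons] at he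
        exact h3 e he

theorem OW.walk {C : Cover V X δ} {a : V} {w : List (Dart V X)} (h : OW C a w a) : Walk C w := by
  refine ⟨?_, h.adm⟩
  obtain ⟨h1, h2, h3⟩ := h.chain
  cases w with
  | nil => trivial
  | cons d w =>
    rw [validC_iff _ (by simp) d]
    refine ⟨h1, ?_⟩
    rw [List.headD_cons, h2 d (by simp), List.getLastD_cons]
    exact h3 _ (last_mem d w)

theorem zs_cons (d : Dart V X) (w : List (Dart V X)) : zs (d :: w) = d.z :: zs w := rfl

variable {p : ℕ} [Fact p.Prime] (C : Cover V X δ) (hδ : 0 ≤ δ) {ρ Λ Lw : ℝ}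
    {lab : List X → ZMod p} (hlab : LabOK δ ρ Λ lab) (hρ : 4 * δ < ρ) (hΛ : Lw - ρ + 8 * δ < Λ)

include hδ hlab hρ hΛ in
theorem NW_relabel (a b : V) (z z' : X) (F : List (Dart V X)) (hw : Walk C (⟨a, b, z⟩ :: F))
    (hw' : Walk C (⟨a, b, z'⟩ :: F)) (hlen : plen (z :: zs F) ≤ Lw)
    (hlen' : plen (z' :: zs F) ≤ Lw) :
    NW C lab (⟨a, b, z⟩ :: F) = NW C lab (⟨a, b, z'⟩ :: F) := by
  have hdec := dec_get (⟨a, b, z⟩ :: F : List (Dart V X))
  have hdec' := dec_get (⟨a, b, z'⟩ :: F : List (Dart V X))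
  refine nuC_relabel C hδ hlab hρ hΛ (S := Fin (F.length + 1))
    (fun i => (⟨a, b, z⟩ :: F : List (Dart V X)).get i)
    (fun i => (⟨a, b, z'⟩ :: F : List (Dart V X)).get i) (fun i => hw.adm _ (List.get_mem (⟨a, b, z⟩ :: F) i))
    (fun i => hw'.adm _ (List.get_mem (⟨a, b, z'⟩ :: F) i)) 0 ?_ rfl rfl _ pos_succ _ (List.nodup_finRange _)
    (valid_get C _ hw) ?_ ?_
  · intro i hi
    obtain ⟨j, rfl⟩ := Fin.exists_succ_eq.2 hi
    rfl
  · exact (le_of_eq (congrArg plen hdec)).trans hlen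
  · exact (le_of_eq (congrArg plen hdec')).trans hlen'

open Classical in
/-- a step of a walk, possibly trivial -/
noncomputable def step (a b : V) (z : X) : List (Dart V X) := if a = b then [] else [⟨a, b, z⟩]

theorem step_self (a : V) (z : X) : step a a z = [] := by simp [step]

theorem step_of_ne {a b : V} (h : a ≠ b) (z : X) : step a b z = [⟨a, b, z⟩] := by simp [step, h]

theorem step_OW {C : Cover V X δ} {a b : V} {z : X} (ha : z ∈ C.U a) (hb : z ∈ C.U b) :
    OW C a (step a b z) b := by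
  by_cases h : a = b
  · subst h; rw [step_self]; rfl
  · rw [step_of_ne h]; exact ⟨rfl, ⟨h, ha, hb⟩, rfl⟩

theorem zs_step_sublist (a b : V) (z : X) : (zs (step a b z)).Sublist [z] := by
  by_cases h : a = b
  · subst h; rw [step_self]; simp [zs]
  · rw [step_of_ne h]; simp [zs]

theorem plen_dup (z : X) (l : List X) : plen (z :: z :: l) = plen (z :: l) := by
  rw [plen_cons_cons, dist_self]; ring

theorem dart_OW {C : Cover V X δ} {a b : V} {z : X} (h : a ≠ b) (ha : z ∈ C.U a) (hb : z ∈ C.U b) :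
    OW C a [⟨a, b, z⟩] b := ⟨rfl, ⟨h, ha, hb⟩, rfl⟩

include hδ hlab hρ hΛ in
/-- removal of a backtrack, general form -/
theorem NW_bt (a b : V) (z : X) (hab : a ≠ b) (ha : z ∈ C.U a) (hb : z ∈ C.U b)
    (F : List (Dart V X)) (hF : OW C a F a) (hlen : plen (z :: zs F) ≤ Lw) :
    NW C lab (⟨a, b, z⟩ :: ⟨b, a, z⟩ :: F) = NW C lab F := by
  have hw : Walk C (⟨a, b, z⟩ :: ⟨b, a, z⟩ :: F) :=
    OW.walk (a := a) ⟨rfl, ⟨hab, ha, hb⟩, rfl, ⟨hab.symm, hb, ha⟩, hF⟩
  have hl : plen (zs (⟨a, b, z⟩ :: ⟨b, a, z⟩ :: F)) ≤ Lw := by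
    rw [zs_cons, zs_cons, plen_dup]; exact hlen
  by_cases h : F = []
  · subst h
    have e : NW C lab ([] : List (Dart V X)) = 0 := rfl
    rw [e]
    by_contra hne
    have := NW_low C hδ hlab hρ _ hw hne
    have h0 : plen (zs ([⟨a, b, z⟩, ⟨b, a, z⟩] : List (Dart V X))) = 0 := by
      rw [zs_cons, zs_cons, plen_dup]; simp [zs, plen, walkLen]
    rw [h0] at this
    linarith
  · exact NW_backtrack C hδ hlab hρ hΛ a b z F h hw hl

include hδ hlab hρ hΛ in
/-- the triangle relation -/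
theorem NW_R1 (a b c : V) (z : X) (ha : z ∈ C.U a) (hb : z ∈ C.U b) (hc : z ∈ C.U c)
    (F : List (Dart V X)) (hF : OW C c F a) (hlen : plen (z :: zs F) ≤ Lw) :
    NW C lab (step a b z ++ (step b c z ++ F)) = NW C lab (step a c z ++ F) := by
  by_cases hab : a = b
  · subst hab; rw [step_self]; rfl
  by_cases hbc : b = c
  · subst hbc; rw [step_self b]; rfl
  by_cases hac : a = c
  · subst hac
    rw [step_self a, step_of_ne hab, step_of_ne hbc]
    exact NW_bt C hδ hlab hρ hΛ a b z hab ha hb F hF hlen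
  rw [step_of_ne hab, step_of_ne hbc, step_of_ne hac]
  have oab := dart_OW hab ha hb
  have oba := dart_OW (Ne.symm hab) hb ha
  have obc := dart_OW hbc hb hc
  have ocb := dart_OW (Ne.symm hbc) hc hb
  have oac := dart_OW hac ha hc
  have oca := dart_OW (Ne.symm hac) hc ha
  rcases C.face_of_mem a b c z hab hbc hac ha hb hc with hface | hface
  · -- Face a b c
    have h1 := NW_face C hδ hlab hρ hΛ a b c z hface hac (⟨a, c, z⟩ :: F) (by simp)
      (((oac.append hF).append (oab.append (obc.append oca))).walk) (by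
        have : plen (zs ((⟨a, c, z⟩ :: F) ++ [⟨a, b, z⟩, ⟨b, c, z⟩, ⟨c, a, z⟩])) =
            plen (z :: zs F) := by
          rw [plen_zs_rot]
          simp only [List.cons_append, List.nil_append, zs_cons]
          rw [plen_dup, plen_dup, plen_dup]
        rw [this]; exact hlen)
    have h2 : NW C lab (⟨c, a, z⟩ :: ⟨a, c, z⟩ :: (F ++ [⟨a, b, z⟩, ⟨b, c, z⟩])) =
        NW C lab (F ++ [⟨a, b, z⟩, ⟨b, c, z⟩]) :=
      NW_bt C hδ hlab hρ hΛ c a z (Ne.symm hac) hc ha _ (hF.append (oab.append obc)) (by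
        have : plen (z :: zs (F ++ [⟨a, b, z⟩, ⟨b, c, z⟩])) = plen (z :: zs F) := by
          have e : z :: zs (F ++ [⟨a, b, z⟩, ⟨b, c, z⟩]) =
              zs ((⟨a, b, z⟩ :: F) ++ [⟨a, b, z⟩, ⟨b, c, z⟩]) := rfl
          rw [e, plen_zs_rot]
          simp only [List.cons_append, List.nil_append, zs_cons]
          rw [plen_dup, plen_dup]
        rw [this]; exact hlen)
    have h3 : NW C lab ((⟨a, c, z⟩ :: F) ++ [⟨a, b, z⟩, ⟨b, c, z⟩, ⟨c, a, z⟩]) =
        NW C lab (⟨c, a, z⟩ :: ⟨a, c, z⟩ :: (F ++ [⟨a, b, z⟩, ⟨b, c, z⟩])) := by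
      have e : (⟨a, c, z⟩ :: F) ++ [⟨a, b, z⟩, ⟨b, c, z⟩, ⟨c, a, z⟩] =
          ((⟨a, c, z⟩ :: F) ++ [⟨a, b, z⟩, ⟨b, c, z⟩]) ++ [⟨c, a, z⟩] := by simp
      rw [e, NW_rot C hδ hlab hρ.le hΛ]
      · rfl
      · exact (((oac.append hF).append (oab.append obc)).append oca).walk
      · have : plen (zs (((⟨a, c, z⟩ :: F) ++ [⟨a, b, z⟩, ⟨b, c, z⟩]) ++ [⟨c, a, z⟩])) =
            plen (z :: zs F) := by
          rw [← e, plen_zs_rot]
          simp only [List.cons_append, List.nil_append, zs_cons]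
          rw [plen_dup, plen_dup, plen_dup]
        rw [this]; exact hlen
    have h4 : NW C lab (F ++ [⟨a, b, z⟩, ⟨b, c, z⟩]) =
        NW C lab ([⟨a, b, z⟩, ⟨b, c, z⟩] ++ F) := by
      rw [NW_rot C hδ hlab hρ.le hΛ]
      · exact (hF.append (oab.append obc)).walk
      · have : plen (zs (F ++ [⟨a, b, z⟩, ⟨b, c, z⟩])) = plen (z :: zs F) := by
          rw [plen_zs_rot]
          simp only [List.cons_append, List.nil_append, zs_cons]
          rw [plen_dup]
        rw [this]; exact hlen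
    have h5 : [(⟨a, b, z⟩ : Dart V X)] ++ ([⟨b, c, z⟩] ++ F) = [⟨a, b, z⟩, ⟨b, c, z⟩] ++ F := rfl
    rw [h5, ← h4, ← h2, ← h3, h1]
    rfl
  · -- Face a c b
    have hface' : C.Face b a c := C.face_rot _ _ _ (C.face_rot _ _ _ hface)
    -- the word starting at `b`
    have h0 : NW C lab ([⟨a, b, z⟩] ++ ([⟨b, c, z⟩] ++ F)) =
        NW C lab (([⟨b, c, z⟩] ++ F) ++ [⟨a, b, z⟩]) := by
      rw [NW_rot C hδ hlab hρ.le hΛ]
      · exact (oab.append (obc.append hF)).walk
      · simp only [List.cons_append, List.nil_append, zs_cons]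
        rw [plen_dup]; exact hlen
    have h1 := NW_face C hδ hlab hρ hΛ b a c z hface' hbc (([⟨b, c, z⟩] ++ F) ++ [⟨a, b, z⟩])
      (by simp)
      ((((obc.append hF).append oab).append (oba.append (oac.append ocb))).walk) (by
        have : plen (zs ((([⟨b, c, z⟩] ++ F) ++ [⟨a, b, z⟩]) ++
            [⟨b, a, z⟩, ⟨a, c, z⟩, ⟨c, b, z⟩])) = plen (z :: zs F) := by
          rw [List.append_assoc, plen_zs_rot]
          simp only [List.cons_append, List.nil_append, zs_cons]
          rw [plen_dup, plen_dup, plen_dup, plen_dup]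
        rw [this]; exact hlen)
    have h2 : NW C lab ((([⟨b, c, z⟩] ++ F) ++ [⟨a, b, z⟩]) ++
        [⟨b, a, z⟩, ⟨a, c, z⟩, ⟨c, b, z⟩]) =
        NW C lab (⟨c, b, z⟩ :: ⟨b, c, z⟩ :: (F ++ [⟨a, b, z⟩, ⟨b, a, z⟩, ⟨a, c, z⟩])) := by
      have e : (([⟨b, c, z⟩] ++ F) ++ [⟨a, b, z⟩]) ++ [⟨b, a, z⟩, ⟨a, c, z⟩, ⟨c, b, z⟩] =
          (([⟨b, c, z⟩] ++ F) ++ [⟨a, b, z⟩, ⟨b, a, z⟩, ⟨a, c, z⟩]) ++ [⟨c, b, z⟩] := by simp
      rw [e, NW_rot C hδ hlab hρ.le hΛ]
      · simp
      · exact (((obc.append hF).append (oab.append (oba.append oac))).append ocb).walk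
      · have : plen (zs ((([⟨b, c, z⟩] ++ F) ++ [⟨a, b, z⟩, ⟨b, a, z⟩, ⟨a, c, z⟩]) ++
            [⟨c, b, z⟩])) = plen (z :: zs F) := by
          rw [List.append_assoc, plen_zs_rot]
          simp only [List.cons_append, List.nil_append, zs_cons]
          rw [plen_dup, plen_dup, plen_dup, plen_dup]
        rw [this]; exact hlen
    have h3 : NW C lab (⟨c, b, z⟩ :: ⟨b, c, z⟩ :: (F ++ [⟨a, b, z⟩, ⟨b, a, z⟩, ⟨a, c, z⟩])) =
        NW C lab (F ++ [⟨a, b, z⟩, ⟨b, a, z⟩, ⟨a, c, z⟩]) :=
      NW_bt C hδ hlab hρ hΛ c b z (Ne.symm hbc) hc hb _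
        (hF.append (oab.append (oba.append oac))) (by
        have : plen (z :: zs (F ++ [⟨a, b, z⟩, ⟨b, a, z⟩, ⟨a, c, z⟩])) = plen (z :: zs F) := by
          have e : z :: zs (F ++ [⟨a, b, z⟩, ⟨b, a, z⟩, ⟨a, c, z⟩]) =
              zs ((⟨a, b, z⟩ :: F) ++ [⟨a, b, z⟩, ⟨b, a, z⟩, ⟨a, c, z⟩]) := rfl
          rw [e, plen_zs_rot]
          simp only [List.cons_append, List.nil_append, zs_cons]
          rw [plen_dup, plen_dup, plen_dup]
        rw [this]; exact hlen)
    have h4 : NW C lab (F ++ [⟨a, b, z⟩, ⟨b, a, z⟩, ⟨a, c, z⟩]) =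
        NW C lab (⟨a, b, z⟩ :: ⟨b, a, z⟩ :: (⟨a, c, z⟩ :: F)) := by
      rw [NW_rot C hδ hlab hρ.le hΛ]
      · rfl
      · exact (hF.append (oab.append (oba.append oac))).walk
      · have : plen (zs (F ++ [⟨a, b, z⟩, ⟨b, a, z⟩, ⟨a, c, z⟩])) = plen (z :: zs F) := by
          rw [plen_zs_rot]
          simp only [List.cons_append, List.nil_append, zs_cons]
          rw [plen_dup, plen_dup]
        rw [this]; exact hlen
    have h5 : NW C lab (⟨a, b, z⟩ :: ⟨b, a, z⟩ :: (⟨a, c, z⟩ :: F)) =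
        NW C lab (⟨a, c, z⟩ :: F) :=
      NW_bt C hδ hlab hρ hΛ a b z hab ha hb _ (oac.append hF) (by
        rw [zs_cons, plen_dup]; exact hlen)
    rw [h0, ← h1, h2, h3, h4, h5]
    rfl

include hδ hlab hρ hΛ in
/-- change of the decoration of a step -/
theorem NW_R2 (a b : V) (z z' : X) (ha : z ∈ C.U a) (hb : z ∈ C.U b) (ha' : z' ∈ C.U a)
    (hb' : z' ∈ C.U b) (F : List (Dart V X)) (hF : OW C b F a) (hlen : plen (z :: zs F) ≤ Lw)
    (hlen' : plen (z' :: zs F) ≤ Lw) :
    NW C lab (step a b z ++ F) = NW C lab (step a b z' ++ F) := by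
  by_cases hab : a = b
  · subst hab; rw [step_self, step_self]
  rw [step_of_ne hab, step_of_ne hab]
  exact NW_relabel C hδ hlab hρ hΛ a b z z' F
    ((dart_OW hab ha hb).append hF).walk ((dart_OW hab ha' hb').append hF).walk hlen hlen'

end walks

end Pool.Agent.Helper21.Cut
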