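import Pool.Agent.Helper21.Cut.Defs2

/-!
# Cutting words (MP_86dbc7_gt): split sums
-/

namespace Pool.Agent.Helper21.Cut

variable {S : Type*} {R : Type*}

section monoid

variable [AddCommMonoid R]

/-- the sum of `f A B` over all splittings `W = A ++ B` with `B ≠ []` -/
def spl : List S → (List S → List S → R) → R
  | [], _ => 0
  | a :: W, f => f [] (a :: W) + spl W (fun A B => f (a :: A) B)

@[simp] theorem sp_nil (f : List S → List S → R) : sp [] f = f [] [] := rfl
@[simp] theorem sp_cons (a : S) (W : List S) (f : List S → List S → R) :
    sp (a :: W) f = f [] (a :: W) + sp W (fun A B => f (a :: A) B) := rfl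
@[simp] theorem spn_nil (f : List S → List S → R) : spn [] f = 0 := rfl
@[simp] theorem spn_cons (a : S) (W : List S) (f : List S → List S → R) :
    spn (a :: W) f = sp W (fun B C => f (a :: B) C) := rfl
@[simp] theorem spl_nil (f : List S → List S → R) : spl [] f = 0 := rfl
@[simp] theorem spl_cons (a : S) (W : List S) (f : List S → List S → R) :
    spl (a :: W) f = f [] (a :: W) + spl W (fun A B => f (a :: A) B) := rfl

theorem sp_congr {W : List S} {f g : List S → List S → R}
    (h : ∀ A B, A ++ B = W → f A B = g A B) : sp W f = sp W g := by
  induction W generalizing f g with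
  | nil => simpa using h [] [] rfl
  | cons a W ih =>
    simp only [sp_cons]
    rw [h [] (a :: W) rfl, ih (fun A B hAB => h (a :: A) B (by simp [hAB]))]

theorem spn_congr {W : List S} {f g : List S → List S → R}
    (h : ∀ A B, A ≠ [] → A ++ B = W → f A B = g A B) : spn W f = spn W g := by
  cases W with
  | nil => rfl
  | cons a W =>
    simp only [spn_cons]
    exact sp_congr (fun A B hAB => h (a :: A) B (by simp) (by simp [hAB]))

theorem spl_congr {W : List S} {f g : List S → List S → R}
    (h : ∀ A B, B ≠ [] → A ++ B = W → f A B = g A B) : spl W f = spl W g := by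
  induction W generalizing f g with
  | nil => rfl
  | cons a W ih =>
    simp only [spl_cons]
    rw [h [] (a :: W) (by simp) rfl, ih (fun A B hB hAB => h (a :: A) B hB (by simp [hAB]))]

theorem sp_zero (W : List S) : sp W (fun _ _ => (0 : R)) = 0 := by
  induction W with
  | nil => rfl
  | cons a W ih => simp [ih]

theorem spn_zero (W : List S) : spn W (fun _ _ => (0 : R)) = 0 := by
  cases W with
  | nil => rfl
  | cons a W => simp [sp_zero]

theorem spl_zero (W : List S) : spl W (fun _ _ => (0 : R)) = 0 := by
  induction W with
  | nil => rfl
  | cons a W ih => simp [ih]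

theorem sp_eq_zero {W : List S} {f : List S → List S → R}
    (h : ∀ A B, A ++ B = W → f A B = 0) : sp W f = 0 := by
  rw [sp_congr h, sp_zero]

theorem spn_eq_zero {W : List S} {f : List S → List S → R}
    (h : ∀ A B, A ≠ [] → A ++ B = W → f A B = 0) : spn W f = 0 := by
  rw [spn_congr h, spn_zero]

theorem sp_add (W : List S) (f g : List S → List S → R) :
    sp W (fun A B => f A B + g A B) = sp W f + sp W g := by
  induction W generalizing f g with
  | nil => rfl
  | cons a W ih =>
    simp only [sp_cons, ih]
    exact add_add_add_comm _ _ _ _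

theorem spn_add (W : List S) (f g : List S → List S → R) :
    spn W (fun A B => f A B + g A B) = spn W f + spn W g := by
  cases W with
  | nil => simp
  | cons a W => simp [sp_add]

/-- first splitting separated -/
theorem sp_eq_spn (W : List S) (f : List S → List S → R) : sp W f = f [] W + spn W f := by
  cases W with
  | nil => simp
  | cons a W => simp

/-- last splitting separated -/
theorem sp_eq_spl (W : List S) (f : List S → List S → R) : sp W f = spl W f + f W [] := by
  induction W generalizing f with
  | nil => simp
  | cons a W ih =>
    simp only [sp_cons, spl_cons, ih]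
    rw [add_assoc]

theorem sp_append (A D : List S) (f : List S → List S → R) :
    sp (A ++ D) f = spl A (fun A₁ A₂ => f A₁ (A₂ ++ D)) + sp D (fun D₁ D₂ => f (A ++ D₁) D₂) := by
  induction A generalizing f with
  | nil => simp
  | cons a A ih =>
    simp only [List.cons_append, sp_cons, spl_cons, ih]
    rw [add_assoc]

theorem sp_concat (W : List S) (x : S) (f : List S → List S → R) :
    sp (W ++ [x]) f = sp W (fun A B => f A (B ++ [x])) + f (W ++ [x]) [] := by
  rw [sp_append, sp_eq_spl W]
  simp only [sp_cons, sp_nil, List.append_nil, List.nil_append]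
  rw [add_assoc]

theorem spn_concat (W : List S) (x : S) (f : List S → List S → R) :
    spn (W ++ [x]) f = spn W (fun A B => f A (B ++ [x])) + f (W ++ [x]) [] := by
  cases W with
  | nil => simp
  | cons a W =>
    simp only [List.cons_append, spn_cons, sp_concat]

/-- coassociativity of splittings -/
theorem sp_assoc (W : List S) (f : List S → List S → List S → R) :
    sp W (fun P Q => sp P (fun A B => f A B Q)) = sp W (fun A E => sp E (fun B Q => f A B Q)) := by
  induction W generalizing f with
  | nil => rfl
  | cons a W ih =>
    simp only [sp_cons, sp_nil]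
    rw [sp_add, ih, add_assoc]

theorem sp_spl (W : List S) (f : List S → List S → List S → R) :
    sp W (fun P Q => spl P (fun A B => f A B Q)) = sp W (fun A E => spn E (fun B Q => f A B Q)) := by
  induction W generalizing f with
  | nil => rfl
  | cons a W ih =>
    simp only [sp_cons, spl_nil, spl_cons, spn_cons, zero_add]
    rw [sp_add, ih]

theorem sp_spn (W : List S) (f : List S → List S → List S → R) :
    sp W (fun P Q => spn P (fun A B => f A B Q)) = spn W (fun A E => sp E (fun B Q => f A B Q)) := by
  cases W with
  | nil => rfl
  | cons a W =>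
    simp only [sp_cons, spn_nil, spn_cons, zero_add]
    rw [sp_assoc]

theorem spn_spn (W : List S) (f : List S → List S → List S → R) :
    spn W (fun P Q => spn P (fun A B => f A B Q)) = spn W (fun A E => sp E (fun B Q => f A B Q)) := by
  rw [← sp_spn, sp_eq_spn W]
  simp

/-- exchange of the order of summation over `W = A ++ B ++ C` -/
theorem sp_map {S' : Type*} (g : S → S') (W : List S) (f : List S' → List S' → R) :
    sp (W.map g) f = sp W (fun A B => f (A.map g) (B.map g)) := by
  induction W generalizing f with
  | nil => rfl
  | cons a W ih => simp [ih]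

theorem spn_map {S' : Type*} (g : S → S') (W : List S) (f : List S' → List S' → R) :
    spn (W.map g) f = spn W (fun A B => f (A.map g) (B.map g)) := by
  cases W with
  | nil => rfl
  | cons a W => simp [sp_map]

end monoid

section semiring

variable [NonUnitalNonAssocSemiring R]

theorem mul_sp (c : R) (W : List S) (f : List S → List S → R) :
    c * sp W f = sp W (fun A B => c * f A B) := by
  induction W generalizing f with
  | nil => rfl
  | cons a W ih => simp [mul_add, ih]

theorem mul_spn (c : R) (W : List S) (f : List S → List S → R) :
    c * spn W f = spn W (fun A B => c * f A B) := by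
  cases W with
  | nil => simp
  | cons a W => simp [mul_sp]

theorem mul_spl (c : R) (W : List S) (f : List S → List S → R) :
    c * spl W f = spl W (fun A B => c * f A B) := by
  induction W generalizing f with
  | nil => simp
  | cons a W ih => simp [mul_add, ih]

end semiring

theorem sp_neg [AddCommGroup R] (W : List S) (f : List S → List S → R) :
    sp W (fun A B => - f A B) = - sp W f := by
  induction W generalizing f with
  | nil => rfl
  | cons a W ih => simp [ih, add_comm]

theorem spn_neg [AddCommGroup R] (W : List S) (f : List S → List S → R) :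
    spn W (fun A B => - f A B) = - spn W f := by
  cases W with
  | nil => simp
  | cons a W => simp [sp_neg]

theorem sp_sub [AddCommGroup R] (W : List S) (f g : List S → List S → R) :
    sp W (fun A B => f A B - g A B) = sp W f - sp W g := by
  simp only [sub_eq_add_neg, sp_add, sp_neg]

theorem spn_sub [AddCommGroup R] (W : List S) (f g : List S → List S → R) :
    spn W (fun A B => f A B - g A B) = spn W f - spn W g := by
  simp only [sub_eq_add_neg, spn_add, spn_neg]

theorem map_sp {R' F : Type*} [AddCommMonoid R] [AddCommMonoid R'] [FunLike F R R']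
    [AddMonoidHomClass F R R'] (φ : F) (W : List S) (f : List S → List S → R) :
    φ (sp W f) = sp W (fun A B => φ (f A B)) := by
  induction W generalizing f with
  | nil => rfl
  | cons a W ih => simp [ih]

theorem map_spn {R' F : Type*} [AddCommMonoid R] [AddCommMonoid R'] [FunLike F R R']
    [AddMonoidHomClass F R R'] (φ : F) (W : List S) (f : List S → List S → R) :
    φ (spn W f) = spn W (fun A B => φ (f A B)) := by
  cases W with
  | nil => simp
  | cons a W => simp [map_sp]

/-- the double sum over the cuts `W = A ++ B ++ C`, `B ≠ []` -/
theorem sp_sum {ι : Type*} [AddCommMonoid R] (s : Finset ι) (W : List S)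
    (f : ι → List S → List S → R) :
    sp W (fun A B => ∑ i ∈ s, f i A B) = ∑ i ∈ s, sp W (f i) := by
  induction W generalizing f with
  | nil => rfl
  | cons a W ih => simp [ih, Finset.sum_add_distrib]

theorem spn_sum {ι : Type*} [AddCommMonoid R] (s : Finset ι) (W : List S)
    (f : ι → List S → List S → R) :
    spn W (fun A B => ∑ i ∈ s, f i A B) = ∑ i ∈ s, spn W (f i) := by
  cases W with
  | nil => simp
  | cons a W => simp [sp_sum]

theorem cut_congr [AddCommMonoid R] {W : List S} {f g : List S → List S → List S → R}
    (h : ∀ A B C, B ≠ [] → A ++ (B ++ C) = W → f A B C = g A B C) :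
    sp W (fun A D => spn D (fun B C => f A B C)) = sp W (fun A D => spn D (fun B C => g A B C)) :=
  sp_congr fun A D hAD => spn_congr fun B C hB hBC => h A B C hB (by rw [hBC, hAD])

theorem cut_eq_zero [AddCommMonoid R] {W : List S} {f : List S → List S → List S → R}
    (h : ∀ A B C, B ≠ [] → A ++ (B ++ C) = W → f A B C = 0) :
    sp W (fun A D => spn D (fun B C => f A B C)) = 0 :=
  sp_eq_zero fun A D hAD => spn_eq_zero fun B C hB hBC => h A B C hB (by rw [hBC, hAD])

theorem exists_of_sp_ne_zero [AddCommMonoid R] {W : List S} {f : List S → List S → R}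
    (h : sp W f ≠ 0) : ∃ A B, A ++ B = W ∧ f A B ≠ 0 := by
  by_contra hc
  push Not at hc
  exact h (sp_eq_zero hc)

theorem exists_of_cut_ne_zero [AddCommMonoid R] {W : List S} {f : List S → List S → List S → R}
    (h : sp W (fun A D => spn D (fun B C => f A B C)) ≠ 0) :
    ∃ A B C, B ≠ [] ∧ A ++ (B ++ C) = W ∧ f A B C ≠ 0 := by
  by_contra hc
  push Not at hc
  exact h (cut_eq_zero hc)

/-! ### `nu` -/

section nu

variable [CommRing R]

theorem nu_zero (J : S → S → S → S → ℤ) (lam : List S → R) (b : S) (W : List S) :
    nu J lam 0 b W = lam (b :: W) := rfl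

theorem nu_succ (J : S → S → S → S → ℤ) (lam : List S → R) (k : ℕ) (b : S) (W : List S) :
    nu J lam (k + 1) b W = sp W fun A D => spn D fun B C =>
      (J (A.getLastD b) (B.headD b) (B.getLastD b) (C.headD b) : R) * lam B *
        nu J lam k b (A ++ C) := rfl

/-- values of `J` and `lam` on parts of the word only matter -/
theorem nu_congr {J J' : S → S → S → S → ℤ} {lam lam' : List S → R} (b : S) (W : List S)
    (hJ : ∀ x ∈ b :: W, ∀ y ∈ b :: W, ∀ z ∈ b :: W, ∀ w ∈ b :: W, J x y z w = J' x y z w)
    (hlam : ∀ B : List S, B ⊆ b :: W → lam B = lam' B) (k : ℕ) :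
    nu J lam k b W = nu J' lam' k b W := by
  induction k generalizing W with
  | zero => exact hlam _ (fun x hx => hx)
  | succ k ih =>
    simp only [nu_succ]
    refine cut_congr fun A B C hB hW => ?_
    have hA : ∀ x ∈ A, x ∈ b :: W := fun x hx => by
      rw [← hW]; simp [hx]
    have hB' : ∀ x ∈ B, x ∈ b :: W := fun x hx => by
      rw [← hW]; simp [hx]
    have hC : ∀ x ∈ C, x ∈ b :: W := fun x hx => by
      rw [← hW]; simp [hx]
    have hl : ∀ (l : List S), (∀ x ∈ l, x ∈ b :: W) → l.getLastD b ∈ b :: W := by
      intro l hl
      rcases l.eq_nil_or_concat with rfl | ⟨l', a, rfl⟩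
      · simp
      · simpa using hl a (by simp)
    have hh : ∀ (l : List S), (∀ x ∈ l, x ∈ b :: W) → l.headD b ∈ b :: W := by
      intro l hl
      cases l with
      | nil => simp
      | cons a l => simpa using hl a (by simp)
    rw [hJ _ (hl A hA) _ (hh B hB') _ (hl B hB') _ (hh C hC), hlam B (fun x hx => hB' x hx)]
    have hsub : ∀ x ∈ b :: (A ++ C), x ∈ b :: W := by
      intro x hx
      simp only [List.mem_cons, List.mem_append] at hx
      rcases hx with rfl | hx | hx
      · simp
      · exact hA x hx
      · exact hC x hx
    rw [ih (A ++ C) (fun x hx y hy z hz w hw => hJ x (hsub x hx) y (hsub y hy) z (hsub z hz) w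
      (hsub w hw)) (fun B hB => hlam B (fun y hy => hsub y (hB hy)))]

theorem nu_map {S' : Type*} (J : S' → S' → S' → S' → ℤ) (lam : List S' → R) (f : S → S') (k : ℕ)
    (b : S) (W : List S) :
    nu J lam k (f b) (W.map f) =
      nu (fun x y z w => J (f x) (f y) (f z) (f w)) (fun B => lam (B.map f)) k b W := by
  induction k generalizing W with
  | zero => simp [nu_zero]
  | succ k ih =>
    simp only [nu_succ, sp_map, spn_map]
    refine cut_congr fun A B C hB hW => ?_
    rw [← List.map_append, ih]
    have h1 : ∀ l : List S, (l.map f).getLastD (f b) = f (l.getLastD b) := by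
      intro l
      rcases l.eq_nil_or_concat with rfl | ⟨l', a, rfl⟩ <;> simp
    have h2 : ∀ l : List S, (l.map f).headD (f b) = f (l.headD b) := by
      intro l
      cases l <;> simp
    rw [h1, h1, h2, h2]

end nu

end Pool.Agent.Helper21.Cut
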